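import Mathlib

set_option autoImplicit false

/-!
# Abstract part: canonical heights, Cauchy-Schwarz, simultaneous Dirichlet approximation
-/

namespace Pool.Agent.H7.Vojta

open Filter Topology

section Quad

variable {G : Type*} [AddCommGroup G]

/-- The parallelogram law. -/
def Para (q : G → ℝ) : Prop := ∀ x y, q (x + y) + q (x - y) = 2 * q x + 2 * q y

theorem Para.zero {q : G → ℝ} (h : Para q) : q 0 = 0 := by
  have := h 0 0
  simp at this
  linarith

theorem Para.neg {q : G → ℝ} (h : Para q) (x : G) : q (-x) = q x := by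
  have := h 0 x
  rw [zero_add, zero_sub, h.zero] at this
  linarith

theorem Para.three {q : G → ℝ} (h : Para q) (x y z : G) :
    q (x + y + z) = q (x + y) + q (y + z) + q (x + z) - q x - q y - q z := by
  have h1 := h (x + y) z
  have h2 := h x (y - z)
  have h3 := h (x + z) y
  have h4 := h y z
  rw [show x + (y - z) = x + y - z by abel, show x - (y - z) = x + z - y by abel] at h2
  rw [show x + z + y = x + y + z by abel] at h3
  linarith

/-- The associated bilinear form. -/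
def bil (q : G → ℝ) (x y : G) : ℝ := q (x + y) - q x - q y

theorem Para.bil_add_left {q : G → ℝ} (h : Para q) (x z y : G) :
    bil q (x + z) y = bil q x y + bil q z y := by
  unfold bil
  have := h.three x z y
  linarith

theorem bil_comm (q : G → ℝ) (x y : G) : bil q x y = bil q y x := by
  unfold bil; rw [add_comm x y]; ring

/-- The bilinear form as a homomorphism in the first variable. -/
noncomputable def Para.bilHom {q : G → ℝ} (h : Para q) (y : G) : G →+ ℝ :=
  AddMonoidHom.mk' (fun x => bil q x y) (fun x z => h.bil_add_left x z y)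

theorem Para.bil_zsmul_left {q : G → ℝ} (h : Para q) (n : ℤ) (x y : G) :
    bil q (n • x) y = n * bil q x y := by
  have := (h.bilHom y).map_zsmul n x
  simpa [Para.bilHom, zsmul_eq_mul] using this

theorem Para.bil_zsmul_right {q : G → ℝ} (h : Para q) (n : ℤ) (x y : G) :
    bil q x (n • y) = n * bil q x y := by
  rw [bil_comm, h.bil_zsmul_left, bil_comm]

theorem Para.bil_self {q : G → ℝ} (h : Para q) (x : G) : bil q x x = 2 * q x := by
  unfold bil
  have := h x x
  rw [sub_self, h.zero] at this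
  linarith

theorem Para.zsmul {q : G → ℝ} (h : Para q) (n : ℤ) (x : G) : q (n • x) = n ^ 2 * q x := by
  have h1 := h.bil_self (n • x)
  rw [h.bil_zsmul_left, h.bil_zsmul_right, h.bil_self] at h1
  linarith

theorem Para.combo {q : G → ℝ} (h : Para q) (a b : ℤ) (x y : G) :
    q (a • x + b • y) = a ^ 2 * q x + a * b * bil q x y + b ^ 2 * q y := by
  have h1 : bil q (a • x) (b • y) = a * (b * bil q x y) := by
    rw [h.bil_zsmul_left, h.bil_zsmul_right]
  unfold bil at h1
  rw [h.zsmul, h.zsmul] at h1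
  unfold bil
  linarith

theorem Para.cauchy {q : G → ℝ} (h : Para q) (h0 : ∀ x, 0 ≤ q x) (x y : G) :
    bil q x y ^ 2 ≤ 4 * q x * q y := by
  have key : ∀ t : ℝ, 0 ≤ q x * (t * t) + bil q x y * t + q y := by
    have hcont : Continuous fun t : ℝ => q x * (t * t) + bil q x y * t + q y := by fun_prop
    have hcl : IsClosed {t : ℝ | 0 ≤ q x * (t * t) + bil q x y * t + q y} :=
      isClosed_le continuous_const hcont
    have hsub : Set.range ((↑) : ℚ → ℝ) ⊆ {t : ℝ | 0 ≤ q x * (t * t) + bil q x y * t + q y} := by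
      rintro _ ⟨r, rfl⟩
      have hd : (0 : ℝ) < (r.den : ℝ) := by exact_mod_cast r.den_pos
      have h1 := h0 (r.num • x + (r.den : ℤ) • y)
      rw [h.combo] at h1
      have hr : (r : ℝ) = (r.num : ℝ) / (r.den : ℝ) := Rat.cast_def r
      change 0 ≤ q x * ((r : ℝ) * r) + bil q x y * r + q y
      have h2 : q x * ((r : ℝ) * r) + bil q x y * r + q y =
          ((r.num : ℝ) ^ 2 * q x + r.num * ((r.den : ℤ) : ℝ) * bil q x y +
            ((r.den : ℤ) : ℝ) ^ 2 * q y) / (r.den : ℝ) ^ 2 := by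
        rw [hr]; push_cast; field_simp
      rw [h2]
      positivity
    intro t
    have := closure_minimal hsub hcl
    have hd : Dense (Set.range ((↑) : ℚ → ℝ)) := Rat.isDenseEmbedding_coe_real.dense
    exact this (hd t)
  have := discrim_le_zero key
  unfold discrim at this
  linarith

theorem Para.sqrt_add_le {q : G → ℝ} (h : Para q) (h0 : ∀ x, 0 ≤ q x) (x y : G) :
    √(q (x + y)) ≤ √(q x) + √(q y) := by
  have hc := h.cauchy h0 x y
  have hx := h0 x
  have hy := h0 y
  have h1 : q (x + y) = q x + q y + bil q x y := by unfold bil; ring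
  have h2 : bil q x y ≤ 2 * (√(q x) * √(q y)) := by
    rw [← Real.sqrt_mul hx]
    have h3 : |bil q x y| ≤ 2 * √(q x * q y) := by
      rw [← Real.sqrt_sq_eq_abs]
      have : (2 : ℝ) * √(q x * q y) = √(4 * (q x * q y)) := by
        rw [Real.sqrt_mul (by norm_num : (0:ℝ) ≤ 4), show (4 : ℝ) = 2 ^ 2 by norm_num,
          Real.sqrt_sq (by norm_num)]
      rw [this]
      exact Real.sqrt_le_sqrt (by linarith)
    exact (le_abs_self _).trans h3
  have h4 : q (x + y) ≤ (√(q x) + √(q y)) ^ 2 := by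
    have e1 := Real.sq_sqrt hx
    have e2 := Real.sq_sqrt hy
    nlinarith
  calc √(q (x + y)) ≤ √((√(q x) + √(q y)) ^ 2) := Real.sqrt_le_sqrt h4
    _ = _ := Real.sqrt_sq (by positivity)

theorem Para.sqrt_zsmul {q : G → ℝ} (h : Para q) (n : ℤ) (x : G) :
    √(q (n • x)) = |(n : ℝ)| * √(q x) := by
  rw [h.zsmul, Real.sqrt_mul (sq_nonneg _), Real.sqrt_sq_eq_abs]

theorem Para.sqrt_sum_le {q : G → ℝ} (h : Para q) (h0 : ∀ x, 0 ≤ q x) {ι : Type*}
    (s : Finset ι) (z : ι → ℤ) (P : ι → G) :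
    √(q (∑ i ∈ s, z i • P i)) ≤ ∑ i ∈ s, |(z i : ℝ)| * √(q (P i)) := by
  classical
  induction s using Finset.induction with
  | empty => simp [h.zero]
  | insert a s ha ih =>
    rw [Finset.sum_insert ha, Finset.sum_insert ha]
    calc _ ≤ √(q (z a • P a)) + √(q (∑ i ∈ s, z i • P i)) := h.sqrt_add_le h0 _ _
      _ ≤ _ := by rw [h.sqrt_zsmul]; gcongr

/-- Tate's limit: an approximate parallelogram law gives a function with the exact law at bounded
distance. -/
theorem exists_canonical {h : G → ℝ} {c : ℝ}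
    (hc : ∀ x y, |h (x + y) + h (x - y) - 2 * h x - 2 * h y| ≤ c) (hn : ∀ x, 0 ≤ h x) :
    ∃ q : G → ℝ, Para q ∧ (∀ x, 0 ≤ q x) ∧ ∀ x, |q x - h x| ≤ c := by
  have hc0 : 0 ≤ c := (abs_nonneg _).trans (hc 0 0)
  have h00 : |h 0| ≤ c / 2 := by
    have := hc 0 0
    simp only [add_zero, sub_zero] at this
    rw [show h 0 + h 0 - 2 * h 0 - 2 * h 0 = -(2 * h 0) by ring, abs_neg, abs_mul,
      abs_of_pos (by norm_num : (0:ℝ) < 2)] at this
    linarith
  have hdbl : ∀ x, |h (x + x) - 4 * h x| ≤ 3 / 2 * c := by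
    intro x
    have := hc x x
    rw [sub_self] at this
    have e : h (x + x) - 4 * h x = (h (x + x) + h 0 - 2 * h x - 2 * h x) - h 0 := by ring
    rw [e]
    calc _ ≤ |h (x + x) + h 0 - 2 * h x - 2 * h x| + |h 0| := abs_sub _ _
      _ ≤ c + c / 2 := add_le_add this h00
      _ = _ := by ring
  -- the sequence
  let a : G → ℕ → ℝ := fun x n => h ((2 ^ n : ℕ) • x) / 4 ^ n
  have hstep : ∀ x n, dist (a x n) (a x (n + 1)) ≤ (3 / 8 * c) * (1 / 4) ^ n := by
    intro x n
    have e : (2 ^ (n + 1) : ℕ) • x = (2 ^ n : ℕ) • x + (2 ^ n : ℕ) • x := by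
      rw [pow_succ, mul_comm, mul_smul, two_smul]
    have h1 := hdbl ((2 ^ n : ℕ) • x)
    rw [Real.dist_eq, abs_sub_comm]
    simp only [a]
    rw [e]
    have e2 : h ((2 ^ n : ℕ) • x + (2 ^ n : ℕ) • x) / 4 ^ (n + 1) - h ((2 ^ n : ℕ) • x) / 4 ^ n =
        (h ((2 ^ n : ℕ) • x + (2 ^ n : ℕ) • x) - 4 * h ((2 ^ n : ℕ) • x)) / 4 ^ (n + 1) := by
      rw [pow_succ]; field_simp
    rw [e2, abs_div, abs_of_pos (by positivity : (0:ℝ) < 4 ^ (n + 1))]
    rw [div_le_iff₀ (by positivity)]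
    calc _ ≤ 3 / 2 * c := h1
      _ = 3 / 8 * c * (1 / 4) ^ n * 4 ^ (n + 1) := by
        rw [one_div, inv_pow, pow_succ]; field_simp; ring
  have hcauchy : ∀ x, CauchySeq (a x) := fun x =>
    cauchySeq_of_le_geometric (1 / 4) (3 / 8 * c) (by norm_num) (hstep x)
  have hlim : ∀ x, ∃ l, Tendsto (a x) atTop (𝓝 l) := fun x =>
    cauchySeq_tendsto_of_complete (hcauchy x)
  choose q hq using hlim
  refine ⟨q, ?_, ?_, ?_⟩
  · intro x y
    have hz : Tendsto (fun n : ℕ => c / 4 ^ n) atTop (𝓝 0) := by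
      have := (tendsto_pow_atTop_nhds_zero_of_lt_one (by norm_num : (0:ℝ) ≤ 1 / 4)
        (by norm_num : (1:ℝ) / 4 < 1)).const_mul c
      rw [mul_zero] at this
      refine this.congr fun n => ?_
      rw [one_div, inv_pow]; rfl
    have h1 : Tendsto (fun n => a (x + y) n + a (x - y) n - 2 * a x n - 2 * a y n) atTop
        (𝓝 (q (x + y) + q (x - y) - 2 * q x - 2 * q y)) :=
      (((hq _).add (hq _)).sub ((hq _).const_mul 2)).sub ((hq _).const_mul 2)
    have h2 : Tendsto (fun n => a (x + y) n + a (x - y) n - 2 * a x n - 2 * a y n) atTop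
        (𝓝 0) := by
      refine squeeze_zero_norm (fun n => ?_) hz
      simp only [a]
      have := hc ((2 ^ n : ℕ) • x) ((2 ^ n : ℕ) • y)
      rw [← smul_add, ← smul_sub] at this
      rw [Real.norm_eq_abs]
      have e : h ((2 ^ n : ℕ) • (x + y)) / 4 ^ n + h ((2 ^ n : ℕ) • (x - y)) / 4 ^ n -
          2 * (h ((2 ^ n : ℕ) • x) / 4 ^ n) - 2 * (h ((2 ^ n : ℕ) • y) / 4 ^ n) =
          (h ((2 ^ n : ℕ) • (x + y)) + h ((2 ^ n : ℕ) • (x - y)) - 2 * h ((2 ^ n : ℕ) • x) -
            2 * h ((2 ^ n : ℕ) • y)) / 4 ^ n := by ring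
      rw [e, abs_div, abs_of_pos (by positivity : (0:ℝ) < 4 ^ n)]
      gcongr
    have := tendsto_nhds_unique h1 h2
    linarith
  · intro x
    refine ge_of_tendsto' (hq x) fun n => ?_
    simp only [a]
    have := hn ((2 ^ n : ℕ) • x)
    positivity
  · intro x
    have := dist_le_of_le_geometric_of_tendsto₀ (1 / 4) (3 / 8 * c) (by norm_num)
      (hstep x) (hq x)
    rw [Real.dist_eq, abs_sub_comm] at this
    have e : a x 0 = h x := by simp [a]
    rw [e] at this
    have h3 : 3 / 8 * c / (1 - 1 / 4) ≤ c := by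
      rw [div_le_iff₀ (by norm_num)]
      linarith
    exact this.trans h3

end Quad

/-- Dirichlet's theorem on simultaneous approximation. -/
theorem dirichlet_simultaneous {n : ℕ} (θ : Fin n → ℝ) {T : ℕ} (hT : 1 ≤ T) :
    ∃ t : ℕ, 1 ≤ t ∧ t ≤ T ^ n ∧ ∃ p : Fin n → ℤ, ∀ i, |(t : ℝ) * θ i - p i| ≤ 1 / T := by
  classical
  have hT0 : (0 : ℝ) < T := by exact_mod_cast hT
  -- pigeonhole on the fractional parts
  let f : ℕ → (Fin n → Fin T) := fun t i =>
    ⟨⌊(T : ℝ) * Int.fract ((t : ℝ) * θ i)⌋₊, by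
      have h1 : Int.fract ((t : ℝ) * θ i) < 1 := Int.fract_lt_one _
      have h2 : 0 ≤ Int.fract ((t : ℝ) * θ i) := Int.fract_nonneg _
      rw [Nat.floor_lt (by positivity)]
      nlinarith⟩
  have hcard : Fintype.card (Fin n → Fin T) < (Finset.range (T ^ n + 1)).card := by
    simp
  obtain ⟨a, ha, b, hb, hab, hf⟩ := Finset.exists_ne_map_eq_of_card_lt_of_maps_to
    (s := Finset.range (T ^ n + 1)) (t := (Finset.univ : Finset (Fin n → Fin T)))
    (by simp) (f := f) (fun x _ => Finset.mem_univ _)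
  -- wlog a < b
  obtain ⟨a, b, hlt, hb', hf⟩ : ∃ a b : ℕ, a < b ∧ b ≤ T ^ n ∧ f a = f b := by
    rcases lt_or_gt_of_ne hab with h | h
    · exact ⟨a, b, h, by simpa [Nat.lt_succ_iff] using hb, hf⟩
    · exact ⟨b, a, h, by simpa [Nat.lt_succ_iff] using ha, hf.symm⟩
  refine ⟨b - a, by omega, by omega, fun i => ⌊(b : ℝ) * θ i⌋ - ⌊(a : ℝ) * θ i⌋, fun i => ?_⟩
  have hfi := congrArg (fun g => ((g i : Fin T) : ℕ)) hf
  simp only [f] at hfi
  have ha0 : 0 ≤ (T : ℝ) * Int.fract ((a : ℝ) * θ i) := by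
    have := Int.fract_nonneg ((a : ℝ) * θ i); positivity
  have hb0 : 0 ≤ (T : ℝ) * Int.fract ((b : ℝ) * θ i) := by
    have := Int.fract_nonneg ((b : ℝ) * θ i); positivity
  have h1 := Nat.floor_le ha0
  have h2 := Nat.lt_floor_add_one ((T : ℝ) * Int.fract ((a : ℝ) * θ i))
  have h3 := Nat.floor_le hb0
  have h4 := Nat.lt_floor_add_one ((T : ℝ) * Int.fract ((b : ℝ) * θ i))
  rw [hfi] at h1 h2
  have e : ((b - a : ℕ) : ℝ) * θ i - ((⌊(b : ℝ) * θ i⌋ - ⌊(a : ℝ) * θ i⌋ : ℤ) : ℝ) =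
      Int.fract ((b : ℝ) * θ i) - Int.fract ((a : ℝ) * θ i) := by
    rw [Nat.cast_sub hlt.le]
    push_cast
    unfold Int.fract
    ring
  rw [e, abs_le]
  rw [le_div_iff₀ hT0, neg_le, ← sub_nonneg]
  constructor
  · have : -(Int.fract ((b : ℝ) * θ i) - Int.fract ((a : ℝ) * θ i)) * T ≤ 1 := by nlinarith
    rw [sub_nonneg, le_div_iff₀ hT0]
    exact this
  · nlinarith

/-- Main abstract lemma: a nearly dependent family has a small nontrivial combination with
bounded coefficients. -/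
theorem exists_small_combination {G : Type*} [AddCommGroup G] {q : G → ℝ} (h : Para q)
    (h0 : ∀ x, 0 ≤ q x) {n : ℕ} {T : ℕ} (hT : 2 ≤ T) (P : Fin n → G) (w : Fin n → ℤ)
    (hw : w ≠ 0) {A B : ℝ} (hA : 0 ≤ A) (hB : 0 ≤ B)
    (hsum : q (∑ i, w i • P i) ≤ A * ∑ i, (w i : ℝ) ^ 2 + B) :
    ∃ u : Fin n → ℤ, u ≠ 0 ∧ (∀ i, |u i| ≤ (T ^ n + 1 : ℕ)) ∧
      √(q (∑ i, u i • P i)) ≤ T ^ n * √(n * A + B) + 1 / T * ∑ i, √(q (P i)) := by
  classical
  have hT0 : (0 : ℝ) < T := by exact_mod_cast (by omega : 0 < T)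
  have hT1 : (1 : ℝ) / T ≤ 1 / 2 := by
    apply one_div_le_one_div_of_le (by norm_num); exact_mod_cast hT
  -- choose the index with maximal |w i|
  have hne : (Finset.univ : Finset (Fin n)).Nonempty := by
    obtain ⟨i, _⟩ := Function.ne_iff.mp hw
    exact ⟨i, Finset.mem_univ _⟩
  obtain ⟨j, -, hj⟩ := Finset.exists_max_image Finset.univ (fun i => |w i|) hne
  have hwj : w j ≠ 0 := by
    intro h
    apply hw
    ext i
    have := hj i (Finset.mem_univ _)
    rw [h, abs_zero] at this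
    exact abs_nonpos_iff.mp this
  have hwjR : (w j : ℝ) ≠ 0 := by exact_mod_cast hwj
  have hwj0 : 0 < |(w j : ℝ)| := abs_pos.mpr hwjR
  have hwj1 : 1 ≤ |(w j : ℝ)| := by exact_mod_cast Int.one_le_abs hwj
  let θ : Fin n → ℝ := fun i => (w i : ℝ) / w j
  have hθ : ∀ i, |θ i| ≤ 1 := by
    intro i
    simp only [θ]
    rw [abs_div, div_le_one hwj0]
    exact_mod_cast hj i (Finset.mem_univ _)
  obtain ⟨t, ht1, ht2, p, hp⟩ := dirichlet_simultaneous θ (T := T) (by omega)
  have htR : (1 : ℝ) ≤ t := by exact_mod_cast ht1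
  have hpj : p j = t := by
    have h1 := hp j
    have : θ j = 1 := by simp [θ, hwjR]
    rw [this, mul_one] at h1
    have h2 : |((t : ℤ) : ℝ) - p j| < 1 := by
      push_cast
      linarith
    have h3 : |(t : ℤ) - p j| < 1 := by exact_mod_cast h2
    have := Int.abs_lt_one_iff.mp h3
    linarith
  refine ⟨p, ?_, ?_, ?_⟩
  · intro h
    have := congrFun h j
    rw [hpj] at this
    simp at this
    omega
  · intro i
    have h1 := hp i
    have h2 : |(p i : ℝ)| ≤ t + 1 := by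
      have e : (p i : ℝ) = (t : ℝ) * θ i - ((t : ℝ) * θ i - p i) := by ring
      rw [e]
      calc _ ≤ |(t : ℝ) * θ i| + |(t : ℝ) * θ i - p i| := abs_sub _ _
        _ ≤ t * 1 + 1 := by
          refine add_le_add ?_ (h1.trans (by linarith))
          rw [abs_mul, abs_of_nonneg (by linarith : (0:ℝ) ≤ t)]
          have := hθ i
          nlinarith
        _ = _ := by ring
    have h3 : |p i| ≤ (t : ℤ) + 1 := by exact_mod_cast h2
    have h4 : (t : ℤ) ≤ (T ^ n : ℕ) := by exact_mod_cast ht2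
    push_cast at h4 ⊢
    linarith
  · -- `w j * R = t * ∑ w i P i + ∑ z i P i` with `z i = w j * p i - t * w i`
    let z : Fin n → ℤ := fun i => w j * p i - t * w i
    have hz : ∀ i, |(z i : ℝ)| ≤ |(w j : ℝ)| * (1 / T) := by
      intro i
      have e : (z i : ℝ) = -((w j : ℝ) * ((t : ℝ) * θ i - p i)) := by
        simp only [z, θ]
        push_cast
        field_simp
        ring
      rw [e, abs_neg, abs_mul]
      gcongr
      exact hp i
    have e1 : w j • (∑ i, p i • P i) = (t : ℤ) • (∑ i, w i • P i) + ∑ i, z i • P i := by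
      have : ∑ i, z i • P i = w j • (∑ i, p i • P i) - (t : ℤ) • ∑ i, w i • P i := by
        rw [Finset.smul_sum, Finset.smul_sum, ← Finset.sum_sub_distrib]
        refine Finset.sum_congr rfl fun i _ => ?_
        simp only [z]
        rw [sub_smul, mul_smul, mul_smul]
      rw [this]
      abel
    have h1 : |(w j : ℝ)| * √(q (∑ i, p i • P i)) ≤
        t * √(q (∑ i, w i • P i)) + √(q (∑ i, z i • P i)) := by
      rw [← h.sqrt_zsmul, e1]
      refine (h.sqrt_add_le h0 _ _).trans ?_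
      rw [h.sqrt_zsmul]
      simp
    have h2 : √(q (∑ i, z i • P i)) ≤ |(w j : ℝ)| * (1 / T * ∑ i, √(q (P i))) := by
      refine (h.sqrt_sum_le h0 Finset.univ z P).trans ?_
      rw [Finset.mul_sum, Finset.mul_sum]
      refine Finset.sum_le_sum fun i _ => ?_
      rw [← mul_assoc]
      exact mul_le_mul_of_nonneg_right (hz i) (Real.sqrt_nonneg _)
    have h3 : √(q (∑ i, w i • P i)) ≤ |(w j : ℝ)| * √(n * A + B) := by
      have hle : q (∑ i, w i • P i) ≤ |(w j : ℝ)| ^ 2 * (n * A + B) := by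
        have e2 : ∑ i, (w i : ℝ) ^ 2 ≤ n * |(w j : ℝ)| ^ 2 := by
          calc ∑ i, (w i : ℝ) ^ 2 ≤ ∑ _i : Fin n, |(w j : ℝ)| ^ 2 := by
                refine Finset.sum_le_sum fun i _ => ?_
                rw [← sq_abs (w i : ℝ)]
                refine pow_le_pow_left₀ (abs_nonneg _) ?_ 2
                exact_mod_cast hj i (Finset.mem_univ _)
            _ = n * |(w j : ℝ)| ^ 2 := by simp
        have e3 : (1 : ℝ) ≤ |(w j : ℝ)| ^ 2 := one_le_pow₀ hwj1
        calc q (∑ i, w i • P i) ≤ A * ∑ i, (w i : ℝ) ^ 2 + B := hsum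
          _ ≤ A * (n * |(w j : ℝ)| ^ 2) + B * |(w j : ℝ)| ^ 2 :=
              add_le_add (mul_le_mul_of_nonneg_left e2 hA) (le_mul_of_one_le_right hB e3)
          _ = _ := by ring
      calc √(q (∑ i, w i • P i)) ≤ √(|(w j : ℝ)| ^ 2 * (n * A + B)) := Real.sqrt_le_sqrt hle
        _ = _ := by rw [Real.sqrt_mul (sq_nonneg _), Real.sqrt_sq (abs_nonneg _)]
    have h4 : (t : ℝ) ≤ (T : ℝ) ^ n := by exact_mod_cast ht2
    have h5 : |(w j : ℝ)| * √(q (∑ i, p i • P i)) ≤
        |(w j : ℝ)| * (T ^ n * √(n * A + B) + 1 / T * ∑ i, √(q (P i))) := by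
      calc _ ≤ t * √(q (∑ i, w i • P i)) + √(q (∑ i, z i • P i)) := h1
        _ ≤ T ^ n * (|(w j : ℝ)| * √(n * A + B)) + |(w j : ℝ)| * (1 / T * ∑ i, √(q (P i))) :=
            add_le_add (mul_le_mul h4 h3 (Real.sqrt_nonneg _) (by positivity)) h2
        _ = _ := by ring
    exact le_of_mul_le_mul_left h5 hwj0

end Pool.Agent.H7.Vojta
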