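import Mathlib

/-!
# Counting tuples with many close coordinates
-/

set_option autoImplicit false

open Finset

namespace Pool.Agent.H7.Vojta

lemma max_sub_le_layers (T : ℕ → ℝ) (m : ℝ) (I : ℕ) (hT : ∀ i < I, T i ≤ T (i + 1)) :
    max (m - T 0) 0 ≤
      ∑ i ∈ range I, (T (i + 1) - T i) * (if T i < m then 1 else 0) + max (m - T I) 0 := by
  induction I with
  | zero => simp
  | succ I ih =>
    have h1 := ih (fun i hi => hT i (by omega))
    have h2 := hT I (by omega)
    rw [sum_range_succ]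
    have h3 : max (m - T I) 0 ≤
        (T (I + 1) - T I) * (if T I < m then 1 else 0) + max (m - T (I + 1)) 0 := by
      split_ifs with h
      · rw [max_eq_left (by linarith), mul_one]
        have := le_max_left (m - T (I + 1)) 0
        linarith
      · rw [max_eq_right (by linarith), mul_zero, zero_add]
        exact le_max_right _ _
    linarith

section one_place

variable {X : Type*} {n : ℕ}

/-- If minus the logarithm of the largest nearness exceeds `t`, all nearnesses are small. -/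
lemma lt_exp_of_lt_neg_log (ν : Fin n → ℝ) (hpos : 0 < ⨆ j, ν j) {t : ℝ}
    (ht : t < -Real.log (⨆ j, ν j)) (j : Fin n) : ν j < Real.exp (-t) := by
  have h1 : ν j ≤ ⨆ j, ν j := le_ciSup (Set.finite_range ν).bddAbove j
  have h2 : Real.log (⨆ j, ν j) < -t := by linarith
  have h3 := (Real.log_lt_iff_lt_exp hpos).mp h2
  linarith

lemma iSup_pos (ν : Fin n → ℝ) (h : ∃ j, 0 < ν j) : 0 < ⨆ j, ν j := by
  obtain ⟨j, hj⟩ := h
  exact hj.trans_le (le_ciSup (Set.finite_range ν).bddAbove j)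

/-- The number of tuples all of whose coordinates lie in small sets. -/
lemma card_tuples_le (B : Finset X) (p : Fin n → X → Prop) [∀ j, DecidablePred (p j)]
    (S : Finset (Fin n → X)) (hSB : S ⊆ Fintype.piFinset fun _ => B) (Y : ℕ)
    (hY : ∀ j, #{x ∈ B | p j x} ≤ Y) :
    #{x ∈ S | ∀ j, p j (x j)} ≤ Y ^ n := by
  have h1 : (S.filter fun x => ∀ j, p j (x j)) ⊆
      Fintype.piFinset fun j => B.filter (p j) := by
    intro x hx
    rw [mem_filter] at hx
    rw [Fintype.mem_piFinset]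
    intro j
    rw [mem_filter]
    exact ⟨Fintype.mem_piFinset.mp (hSB hx.1) j, hx.2 j⟩
  refine (card_le_card h1).trans ?_
  rw [Fintype.card_piFinset]
  calc ∏ j, #(B.filter (p j)) ≤ ∏ _j : Fin n, Y := prod_le_prod' fun j _ => hY j
    _ = Y ^ n := by simp

lemma one_place (ν : Fin n → X → ℝ) (hν0 : ∀ j x, 0 ≤ ν j x) (hν1 : ∀ j x, ν j x ≤ 1)
    (B : Finset X) (S : Finset (Fin n → X)) (hSB : S ⊆ Fintype.piFinset fun _ => B)
    (hS : ∀ x ∈ S, ∃ j, 0 < ν j (x j))
    (I : ℕ) (T : ℕ → ℝ) (hT : ∀ i < I, T i ≤ T (i + 1)) (hT0 : 0 ≤ T I) (Y : ℕ → ℕ)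
    (hY : ∀ i < I, ∀ j, #{x ∈ B | ν j x < Real.exp (-T i)} ≤ Y i)
    (hY1 : ∀ j, #{x ∈ B | ν j x < Real.exp (-T I)} ≤ 1) :
    ∑ x ∈ S, max (-Real.log (⨆ j, ν j (x j)) - T 0) 0 ≤
      ∑ i ∈ range I, (T (i + 1) - T i) * (Y i : ℝ) ^ n +
        ∑ j, ∑ x ∈ B, -Real.log (ν j x) := by
  have hlog : ∀ j x, 0 ≤ -Real.log (ν j x) := fun j x => by
    rw [neg_nonneg]
    exact Real.log_nonpos (hν0 j x) (hν1 j x)
  have h1 : ∀ x ∈ S, max (-Real.log (⨆ j, ν j (x j)) - T 0) 0 ≤
      ∑ i ∈ range I, (T (i + 1) - T i) *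
        (if T i < -Real.log (⨆ j, ν j (x j)) then 1 else 0) +
        max (-Real.log (⨆ j, ν j (x j)) - T I) 0 := fun x _ => max_sub_le_layers T _ I hT
  refine (sum_le_sum h1).trans ?_
  rw [sum_add_distrib, sum_comm]
  refine add_le_add ?_ ?_
  · apply sum_le_sum
    intro i hi
    rw [mem_range] at hi
    rw [← mul_sum]
    refine mul_le_mul_of_nonneg_left ?_ (sub_nonneg.mpr (hT i hi))
    rw [sum_ite, sum_const_zero, add_zero, sum_const, nsmul_eq_mul, mul_one]
    have h2 := card_tuples_le B (fun j x => ν j x < Real.exp (-T i)) S hSB (Y i) (hY i hi)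
    have h3 : #{x ∈ S | T i < -Real.log (⨆ j, ν j (x j))} ≤
        #{x ∈ S | ∀ j, ν j (x j) < Real.exp (-T i)} := by
      apply card_le_card
      intro x hx
      rw [mem_filter] at hx ⊢
      exact ⟨hx.1, lt_exp_of_lt_neg_log _ (iSup_pos _ (hS x hx.1)) hx.2⟩
    exact_mod_cast h3.trans h2
  · -- the last layer contains at most one tuple
    set U := S.filter fun x => T I < -Real.log (⨆ j, ν j (x j)) with hU
    have hU1 : #U ≤ 1 := by
      have h2 := card_tuples_le B (fun j x => ν j x < Real.exp (-T I)) S hSB 1 hY1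
      rw [one_pow] at h2
      refine le_trans (card_le_card ?_) h2
      intro x hx
      rw [hU, mem_filter] at hx
      rw [mem_filter]
      exact ⟨hx.1, lt_exp_of_lt_neg_log _ (iSup_pos _ (hS x hx.1)) hx.2⟩
    have hsum : ∑ x ∈ S, max (-Real.log (⨆ j, ν j (x j)) - T I) 0 =
        ∑ x ∈ U, max (-Real.log (⨆ j, ν j (x j)) - T I) 0 := by
      symm
      apply sum_subset (filter_subset _ _)
      intro x hx hxU
      apply max_eq_right
      by_contra hcon
      apply hxU
      rw [mem_filter]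
      exact ⟨hx, by linarith⟩
    rw [hsum]
    have hrhs : 0 ≤ ∑ j, ∑ x ∈ B, -Real.log (ν j x) :=
      sum_nonneg fun j _ => sum_nonneg fun x _ => hlog j x
    rcases U.eq_empty_or_nonempty with h0 | ⟨x, hx⟩
    · rw [h0, sum_empty]
      exact hrhs
    · have hUx : U = {x} := by
        rw [Finset.eq_singleton_iff_unique_mem]
        exact ⟨hx, fun y hy => card_le_one.mp hU1 y hy x hx⟩
      rw [hUx, sum_singleton]
      have hxS : x ∈ S := (mem_filter.mp (hU ▸ hx)).1
      refine max_le ?_ hrhs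
      obtain ⟨j, hj⟩ := hS x hxS
      have h4 : -Real.log (⨆ j, ν j (x j)) ≤ -Real.log (ν j (x j)) := by
        rw [neg_le_neg_iff]
        exact Real.log_le_log hj (le_ciSup (Set.finite_range fun j => ν j (x j)).bddAbove j)
      have h5 : -Real.log (ν j (x j)) ≤ ∑ x ∈ B, -Real.log (ν j x) :=
        single_le_sum (f := fun x => -Real.log (ν j x)) (fun x _ => hlog j x)
          (Fintype.mem_piFinset.mp (hSB hxS) j)
      have h6 : ∑ x ∈ B, -Real.log (ν j x) ≤ ∑ j, ∑ x ∈ B, -Real.log (ν j x) :=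
        single_le_sum (f := fun j => ∑ x ∈ B, -Real.log (ν j x))
          (fun j _ => sum_nonneg fun x _ => hlog j x) (mem_univ j)
      linarith

/-- The counting inequality, summed over finitely many places. -/
theorem count_bad {ι : Type*} (V : Finset ι) (w : ι → ℝ) (hw : ∀ v, 0 ≤ w v)
    (ν : ι → Fin n → X → ℝ) (hν0 : ∀ v j x, 0 ≤ ν v j x) (hν1 : ∀ v j x, ν v j x ≤ 1)
    (B : Finset X) (S : Finset (Fin n → X)) (hSB : S ⊆ Fintype.piFinset fun _ => B)
    (hS : ∀ v, ∀ x ∈ S, ∃ j, 0 < ν v j (x j))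
    (I : ℕ) (T : ι → ℕ → ℝ) (hT : ∀ v, ∀ i < I, T v i ≤ T v (i + 1)) (hT0 : ∀ v, 0 ≤ T v I)
    (Y : ℕ → ℕ) (hY : ∀ v, ∀ i < I, ∀ j, #{x ∈ B | ν v j x < Real.exp (-T v i)} ≤ Y i)
    (hY1 : ∀ v, ∀ j, #{x ∈ B | ν v j x < Real.exp (-T v I)} ≤ 1) (Q : ℝ)
    (hbad : ∀ x ∈ S, Q + ∑ v ∈ V, w v * T v 0 ≤
      ∑ v ∈ V, w v * -Real.log (⨆ j, ν v j (x j))) :
    #S * Q ≤ ∑ i ∈ range I, (∑ v ∈ V, w v * (T v (i + 1) - T v i)) * (Y i : ℝ) ^ n +
      ∑ j, ∑ x ∈ B, ∑ v ∈ V, w v * -Real.log (ν v j x) := by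
  have h1 : ∀ x ∈ S, Q ≤ ∑ v ∈ V, w v * max (-Real.log (⨆ j, ν v j (x j)) - T v 0) 0 := by
    intro x hx
    have h2 := hbad x hx
    have h3 : ∑ v ∈ V, w v * -Real.log (⨆ j, ν v j (x j)) - ∑ v ∈ V, w v * T v 0 ≤
        ∑ v ∈ V, w v * max (-Real.log (⨆ j, ν v j (x j)) - T v 0) 0 := by
      rw [← sum_sub_distrib]
      apply sum_le_sum
      intro v _
      rw [← mul_sub]
      exact mul_le_mul_of_nonneg_left (le_max_left _ _) (hw v)
    linarith
  calc (#S : ℝ) * Q = ∑ _x ∈ S, Q := by rw [sum_const, nsmul_eq_mul]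
    _ ≤ ∑ x ∈ S, ∑ v ∈ V, w v * max (-Real.log (⨆ j, ν v j (x j)) - T v 0) 0 := sum_le_sum h1
    _ = ∑ v ∈ V, w v * ∑ x ∈ S, max (-Real.log (⨆ j, ν v j (x j)) - T v 0) 0 := by
        rw [sum_comm]
        simp only [mul_sum]
    _ ≤ ∑ v ∈ V, w v * (∑ i ∈ range I, (T v (i + 1) - T v i) * (Y i : ℝ) ^ n +
          ∑ j, ∑ x ∈ B, -Real.log (ν v j x)) := by
        apply sum_le_sum
        intro v _
        exact mul_le_mul_of_nonneg_left (one_place (ν v) (hν0 v) (hν1 v) B S hSB (hS v) I (T v)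
          (hT v) (hT0 v) Y (hY v) (hY1 v)) (hw v)
    _ = _ := by
        simp only [mul_add, sum_add_distrib, mul_sum, sum_mul]
        congr 1
        · rw [sum_comm]
          refine sum_congr rfl fun i _ => sum_congr rfl fun v _ => by ring
        · rw [sum_comm]
          refine sum_congr rfl fun j _ => ?_
          rw [sum_comm]

end one_place

section pigeonhole

variable {G : Type*} [AddCommGroup G]

/-- The box of integer vectors with coordinates at most `M` in absolute value. -/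
noncomputable def box (r M : ℕ) : Finset (Fin r → ℤ) := Fintype.piFinset fun _ => Icc (-(M : ℤ)) M

lemma mem_box {r M : ℕ} {a : Fin r → ℤ} : a ∈ box r M ↔ ∀ i, |a i| ≤ M := by
  simp only [box, Fintype.mem_piFinset, mem_Icc, abs_le]

lemma card_box (r M : ℕ) : #(box r M) = (2 * M + 1) ^ r := by
  rw [box, Fintype.card_piFinset]
  simp only [Int.card_Icc, prod_const, card_univ, Fintype.card_fin]
  congr 1
  omega

/-- Pigeonhole: few points of the box are close to a given point. -/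
lemma card_close_le (ν : G → ℝ) (hneg : ∀ x, ν (-x) = ν x) {c : ℝ} (hc : 1 ≤ c)
    (hadd : ∀ x y, ν (x + y) ≤ c * max (ν x) (ν y)) {r : ℕ} (R : Fin r → G) (s : G) (M A : ℕ)
    (hA : 0 < A) (T : ℝ)
    (hT : ∀ d : Fin r → ℤ, d ≠ 0 → (∀ i, |d i| < A) →
      c * Real.exp (-T) ≤ ν (∑ i, d i • R i)) :
    #{a ∈ box r M | ν (∑ i, a i • R i - s) < Real.exp (-T)} ≤ (2 * M / A + 1) ^ r := by
  have hc0 : 0 < c := by linarith
  have hAz : (0 : ℤ) < A := by exact_mod_cast hA
  have hcard : #(Fintype.piFinset fun _ : Fin r => Icc (0 : ℤ) ((2 * M / A : ℕ) : ℤ)) =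
      (2 * M / A + 1) ^ r := by
    rw [Fintype.card_piFinset]
    simp only [Int.card_Icc, prod_const, card_univ, Fintype.card_fin]
    congr 1
  rw [← hcard]
  apply card_le_card_of_injOn (fun (a : Fin r → ℤ) (i : Fin r) => (a i + (M : ℤ)) / (A : ℤ))
  · intro a ha
    rw [coe_filter, Set.mem_ofPred_eq, mem_box] at ha
    rw [mem_coe, Fintype.mem_piFinset]
    intro i
    have hi := abs_le.mp (ha.1 i)
    rw [mem_Icc]
    constructor
    · exact Int.ediv_nonneg (by linarith) hAz.le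
    · push_cast
      exact Int.ediv_le_ediv hAz (by linarith)
  · intro a ha b hb hab
    rw [coe_filter, Set.mem_ofPred_eq, mem_box] at ha hb
    by_contra hne
    have hd : a - b ≠ 0 := sub_ne_zero.mpr hne
    have hlt : ∀ i, |(a - b) i| < A := by
      intro i
      have h1 : (a i + M) / A = (b i + M) / A := congrFun hab i
      have h2 := Int.mul_ediv_add_emod (a i + M) A
      have h3 := Int.mul_ediv_add_emod (b i + M) A
      have h4 := Int.emod_nonneg (a i + M) hAz.ne'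
      have h5 := Int.emod_lt_of_pos (a i + M) hAz
      have h6 := Int.emod_nonneg (b i + M) hAz.ne'
      have h7 := Int.emod_lt_of_pos (b i + M) hAz
      rw [h1] at h2
      rw [Pi.sub_apply, abs_lt]
      constructor <;> linarith
    have h8 := hT (a - b) hd hlt
    have h9 : ∑ i, (a - b) i • R i = (∑ i, a i • R i - s) + -(∑ i, b i • R i - s) := by
      simp only [Pi.sub_apply, sub_smul, sum_sub_distrib]
      abel
    rw [h9] at h8
    have h10 := hadd (∑ i, a i • R i - s) (-(∑ i, b i • R i - s))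
    rw [hneg] at h10
    have h11 : max (ν (∑ i, a i • R i - s)) (ν (∑ i, b i • R i - s)) < Real.exp (-T) :=
      max_lt ha.2 hb.2
    have h12 := mul_lt_mul_of_pos_left h11 hc0
    linarith

end pigeonhole

end Pool.Agent.H7.Vojta
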