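import Mathlib

/-!
# The addition-and-subtraction map on x-coordinates

For points `P`, `Q` on an elliptic curve, the quadratic map `addSubMap` of Mathlib sends
`(x(P) x(Q) : x(P) + x(Q) : 1)` to `(x(P+Q) x(P-Q) : x(P+Q) + x(P-Q) : 1)`.
-/

set_option autoImplicit false

open WeierstrassCurve WeierstrassCurve.Affine MvPolynomial

namespace Pool.Agent.H7.Vojta

section

variable {R : Type*} [CommRing R] (W : WeierstrassCurve R)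

/-- The quadratic map, on vectors. -/
def asMap (v : Fin 3 → R) : Fin 3 → R :=
  ![v 0 ^ 2 - W.b₄ * v 0 * v 2 - W.b₆ * v 1 * v 2 - W.b₈ * v 2 ^ 2,
    2 * v 1 * v 0 + W.b₂ * v 0 * v 2 + W.b₄ * v 1 * v 2 + W.b₆ * v 2 ^ 2,
    v 1 ^ 2 - 4 * v 0 * v 2]

lemma eval_addSubMap (v : Fin 3 → R) :
    (fun i => (addSubMap W i).eval v) = asMap W v := by
  funext i
  fin_cases i <;> simp [addSubMap, asMap]

lemma asMap_ne_zero [W.IsElliptic] [IsReduced R] {v : Fin 3 → R} (hv : v ≠ 0) :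
    asMap W v ≠ 0 := by
  rw [← eval_addSubMap]
  exact addSubMap_ne_zero (W := W) hv

end

section

variable {F : Type*} [Field F] (W : Affine F)

lemma equation_eq {x y : F} (h : W.Nonsingular x y) :
    y ^ 2 + W.a₁ * x * y + W.a₃ * y = x ^ 3 + W.a₂ * x ^ 2 + W.a₄ * x + W.a₆ :=
  (W.equation_iff x y).mp h.1

lemma core_identities {a₁ a₂ a₃ a₄ a₆ x₁ x₂ y₁ y₂ l m : F} (hD : x₁ - x₂ ≠ 0)
    (e₁ : y₁ ^ 2 + a₁ * x₁ * y₁ + a₃ * y₁ = x₁ ^ 3 + a₂ * x₁ ^ 2 + a₄ * x₁ + a₆)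
    (e₂ : y₂ ^ 2 + a₁ * x₂ * y₂ + a₃ * y₂ = x₂ ^ 3 + a₂ * x₂ ^ 2 + a₄ * x₂ + a₆)
    (hl : (x₁ - x₂) * l = y₁ - y₂) (hm : (x₁ - x₂) * m = y₁ + y₂ + a₁ * x₂ + a₃) :
    (x₁ * x₂) ^ 2 - (2 * a₄ + a₁ * a₃) * (x₁ * x₂) - (a₃ ^ 2 + 4 * a₆) * (x₁ + x₂) -
        (a₁ ^ 2 * a₆ + 4 * a₂ * a₆ - a₁ * a₃ * a₄ + a₂ * a₃ ^ 2 - a₄ ^ 2) =
      (x₁ - x₂) ^ 2 * ((l ^ 2 + a₁ * l - a₂ - x₁ - x₂) * (m ^ 2 + a₁ * m - a₂ - x₁ - x₂)) ∧
    2 * (x₁ + x₂) * (x₁ * x₂) + (a₁ ^ 2 + 4 * a₂) * (x₁ * x₂) + (2 * a₄ + a₁ * a₃) * (x₁ + x₂) +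
        (a₃ ^ 2 + 4 * a₆) =
      (x₁ - x₂) ^ 2 * ((l ^ 2 + a₁ * l - a₂ - x₁ - x₂) + (m ^ 2 + a₁ * m - a₂ - x₁ - x₂)) := by
  have hA : (x₁ - x₂) ^ 2 * (l ^ 2 + a₁ * l - a₂ - x₁ - x₂) =
      (y₁ - y₂) ^ 2 + a₁ * (x₁ - x₂) * (y₁ - y₂) - (x₁ - x₂) ^ 2 * (a₂ + x₁ + x₂) := by
    rw [← hl]; ring
  have hB : (x₁ - x₂) ^ 2 * (m ^ 2 + a₁ * m - a₂ - x₁ - x₂) =
      (y₁ + y₂ + a₁ * x₂ + a₃) ^ 2 + a₁ * (x₁ - x₂) * (y₁ + y₂ + a₁ * x₂ + a₃) -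
        (x₁ - x₂) ^ 2 * (a₂ + x₁ + x₂) := by
    rw [← hm]; ring
  constructor
  · have h2 : (x₁ - x₂) ^ 2 ≠ 0 := pow_ne_zero 2 hD
    apply mul_left_cancel₀ h2
    have e : (x₁ - x₂) ^ 2 * ((x₁ - x₂) ^ 2 *
        ((l ^ 2 + a₁ * l - a₂ - x₁ - x₂) * (m ^ 2 + a₁ * m - a₂ - x₁ - x₂))) =
        ((y₁ - y₂) ^ 2 + a₁ * (x₁ - x₂) * (y₁ - y₂) - (x₁ - x₂) ^ 2 * (a₂ + x₁ + x₂)) *
        ((y₁ + y₂ + a₁ * x₂ + a₃) ^ 2 + a₁ * (x₁ - x₂) * (y₁ + y₂ + a₁ * x₂ + a₃) -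
        (x₁ - x₂) ^ 2 * (a₂ + x₁ + x₂)) := by
      rw [← hA, ← hB]; ring
    rw [e]
    linear_combination (-(a₁^2*x₁*x₂-a₁^2*x₂^2+a₁*a₃*x₁-a₁*a₃*x₂+a₁*x₁*y₁-2*a₁*x₂*y₂-a₂*x₁^2
      +4*a₂*x₁*x₂-2*a₂*x₂^2+a₃*y₁-2*a₃*y₂+a₄*x₁+a₆-x₁^3+2*x₁^2*x₂+2*x₁*x₂^2-2*x₂^3
      +y₁^2-2*y₂^2)) * e₁ + (-(-a₁^2*x₁^2+a₁^2*x₁*x₂-a₁*a₃*x₁+a₁*a₃*x₂+a₁*x₂*y₂-4*a₂*x₁^2
      +4*a₂*x₁*x₂-a₂*x₂^2+a₃*y₂-2*a₄*x₁+a₄*x₂-a₆-4*x₁^3+2*x₁^2*x₂+2*x₁*x₂^2-x₂^3+y₂^2)) * e₂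
  · rw [mul_add ((x₁ - x₂) ^ 2), hA, hB]
    linear_combination (-2) * e₁ - 2 * e₂

lemma core_doubling {a₁ a₂ a₃ a₄ a₆ x y l : F}
    (e : y ^ 2 + a₁ * x * y + a₃ * y = x ^ 3 + a₂ * x ^ 2 + a₄ * x + a₆)
    (hl : (2 * y + a₁ * x + a₃) * l = 3 * x ^ 2 + 2 * a₂ * x + a₄ - a₁ * y) :
    (x * x) ^ 2 - (2 * a₄ + a₁ * a₃) * (x * x) - (a₃ ^ 2 + 4 * a₆) * (x + x) -
        (a₁ ^ 2 * a₆ + 4 * a₂ * a₆ - a₁ * a₃ * a₄ + a₂ * a₃ ^ 2 - a₄ ^ 2) =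
      (2 * y + a₁ * x + a₃) ^ 2 * (l ^ 2 + a₁ * l - a₂ - x - x) := by
  have hA : (2 * y + a₁ * x + a₃) ^ 2 * (l ^ 2 + a₁ * l - a₂ - x - x) =
      (3 * x ^ 2 + 2 * a₂ * x + a₄ - a₁ * y) ^ 2 +
        a₁ * (3 * x ^ 2 + 2 * a₂ * x + a₄ - a₁ * y) * (2 * y + a₁ * x + a₃) -
        (a₂ + 2 * x) * (2 * y + a₁ * x + a₃) ^ 2 := by
    rw [← hl]; ring
  rw [hA]
  linear_combination (a₁ ^ 2 + 4 * a₂ + 8 * x) * e

lemma core_psi {a₁ a₂ a₃ a₄ a₆ x y : F}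
    (e : y ^ 2 + a₁ * x * y + a₃ * y = x ^ 3 + a₂ * x ^ 2 + a₄ * x + a₆) :
    2 * (x + x) * (x * x) + (a₁ ^ 2 + 4 * a₂) * (x * x) + (2 * a₄ + a₁ * a₃) * (x + x) +
        (a₃ ^ 2 + 4 * a₆) = (2 * y + a₁ * x + a₃) ^ 2 := by
  linear_combination (-4) * e

end

variable {F : Type*} [Field F] [DecidableEq F] (W : Affine F)

lemma asMap_of_X_ne {x₁ x₂ y₁ y₂ : F} (h₁ : W.Nonsingular x₁ y₁) (h₂ : W.Nonsingular x₂ y₂)
    (hx : x₁ ≠ x₂) :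
    asMap W ((Point.some x₁ y₁ h₁).sym2x (Point.some x₂ y₂ h₂)) =
      (x₁ - x₂) ^ 2 • ((Point.some x₁ y₁ h₁ + Point.some x₂ y₂ h₂).sym2x
        (Point.some x₁ y₁ h₁ - Point.some x₂ y₂ h₂)) := by
  have e₁ := equation_eq W h₁
  have e₂ := equation_eq W h₂
  have hD : x₁ - x₂ ≠ 0 := sub_ne_zero.mpr hx
  obtain ⟨hS, hT⟩ := core_identities (l := (y₁ - y₂) / (x₁ - x₂))
    (m := (y₁ + y₂ + W.a₁ * x₂ + W.a₃) / (x₁ - x₂)) hD e₁ e₂ (by field_simp) (by field_simp)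
  have hsub : Point.some x₁ y₁ h₁ - Point.some x₂ y₂ h₂ =
      Point.some x₁ y₁ h₁ + (- Point.some x₂ y₂ h₂) := sub_eq_add_neg _ _
  have hneg : y₁ - (-y₂ - W.a₁ * x₂ - W.a₃) = y₁ + y₂ + W.a₁ * x₂ + W.a₃ := by ring
  rw [hsub, Point.neg_some, Point.add_of_X_ne hx, Point.add_of_X_ne hx]
  simp only [Point.sym2x_some_some, slope_of_X_ne hx, negY, addX, hneg]
  funext i
  fin_cases i
  · simpa [asMap, b₂, b₄, b₆, b₈] using hS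
  · simpa [asMap, b₂, b₄, b₆, b₈] using hT
  · simp [asMap]
    ring

lemma asMap_of_self {x y : F} (h : W.Nonsingular x y) (hy : y ≠ W.negY x y) :
    asMap W ((Point.some x y h).sym2x (Point.some x y h)) =
      (2 * y + W.a₁ * x + W.a₃) ^ 2 • ((Point.some x y h + Point.some x y h).sym2x 0) := by
  have e := equation_eq W h
  have hd : y - W.negY x y = 2 * y + W.a₁ * x + W.a₃ := by rw [negY]; ring
  have hd0 : 2 * y + W.a₁ * x + W.a₃ ≠ 0 := by rw [← hd]; exact sub_ne_zero.mpr hy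
  have hS := core_doubling (l := (3 * x ^ 2 + 2 * W.a₂ * x + W.a₄ - W.a₁ * y) /
    (2 * y + W.a₁ * x + W.a₃)) e (by field_simp)
  have hT := core_psi e
  rw [Point.add_self_of_Y_ne hy]
  simp only [Point.sym2x_some_some, Point.sym2x_some_zero, slope_of_Y_ne rfl hy, addX, hd]
  funext i
  fin_cases i
  · simpa [asMap, b₂, b₄, b₆, b₈] using hS
  · simpa [asMap, b₂, b₄, b₆, b₈] using hT
  · simp [asMap]
    ring

omit [DecidableEq F] in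
lemma asMap_of_two_torsion [W.IsElliptic] {x y : F} (h : W.Nonsingular x y)
    (hy : y = W.negY x y) :
    ∃ c : F, c ≠ 0 ∧ asMap W ((Point.some x y h).sym2x (Point.some x y h)) =
      c • ((0 : W.Point).sym2x 0) := by
  have e := equation_eq W h
  have hd : 2 * y + W.a₁ * x + W.a₃ = 0 := by
    have := sub_eq_zero.mpr hy
    rw [negY] at this
    linear_combination this
  have hT := core_psi e
  rw [hd] at hT
  have hne : asMap W ((Point.some x y h).sym2x (Point.some x y h)) ≠ 0 :=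
    asMap_ne_zero W (Point.sym2x_ne_zero _ _)
  have h1 : asMap W ((Point.some x y h).sym2x (Point.some x y h)) 1 = 0 := by
    have : (0 : F) ^ 2 = 0 := by norm_num
    rw [this] at hT
    simpa [asMap, b₂, b₄, b₆, b₈] using hT
  have h2 : asMap W ((Point.some x y h).sym2x (Point.some x y h)) 2 = 0 := by
    simp [asMap]
    ring
  refine ⟨asMap W ((Point.some x y h).sym2x (Point.some x y h)) 0, ?_, ?_⟩
  · intro h0
    apply hne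
    funext i
    fin_cases i
    · exact h0
    · exact h1
    · exact h2
  · funext i
    fin_cases i
    · simp
    · simpa using h1
    · simpa using h2

/-- **The addition-and-subtraction map.** -/
theorem exists_asMap_sym2x [W.IsElliptic] (P Q : W.Point) :
    ∃ c : F, c ≠ 0 ∧ asMap W (P.sym2x Q) = c • ((P + Q).sym2x (P - Q)) := by
  match P, Q with
  | 0, Q =>
    refine ⟨1, one_ne_zero, ?_⟩
    rw [one_smul, zero_add, zero_sub, Point.sym2x_neg_right]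
    match Q with
    | 0 =>
      funext i
      fin_cases i <;> simp [asMap]
    | .some x y h =>
      funext i
      fin_cases i <;> simp [asMap, sq, two_mul]
  | .some x y h, 0 =>
    refine ⟨1, one_ne_zero, ?_⟩
    rw [one_smul, add_zero, sub_zero]
    funext i
    fin_cases i <;> simp [asMap, sq, two_mul]
  | .some x₁ y₁ h₁, .some x₂ y₂ h₂ =>
    by_cases hx : x₁ = x₂
    · rcases Point.X_eq_iff (h₁ := h₁) (h₂ := h₂) |>.mp hx with hPQ | hPQ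
      · rw [← hPQ, sub_self]
        by_cases hy : y₁ = W.negY x₁ y₁
        · rw [Point.add_self_of_Y_eq hy]
          exact asMap_of_two_torsion W h₁ hy
        · refine ⟨_, pow_ne_zero 2 ?_, asMap_of_self W h₁ hy⟩
          have hd : y₁ - W.negY x₁ y₁ = 2 * y₁ + W.a₁ * x₁ + W.a₃ := by rw [negY]; ring
          rw [← hd]
          exact sub_ne_zero.mpr hy
      · have hQ : Point.some x₂ y₂ h₂ = - Point.some x₁ y₁ h₁ := by rw [hPQ, neg_neg]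
        rw [hQ, Point.sym2x_neg_right, add_neg_cancel, sub_neg_eq_add,
          Point.sym2x_comm 0]
        by_cases hy : y₁ = W.negY x₁ y₁
        · rw [Point.add_self_of_Y_eq hy]
          exact asMap_of_two_torsion W h₁ hy
        · refine ⟨_, pow_ne_zero 2 ?_, asMap_of_self W h₁ hy⟩
          have hd : y₁ - W.negY x₁ y₁ = 2 * y₁ + W.a₁ * x₁ + W.a₃ := by rw [negY]; ring
          rw [← hd]
          exact sub_ne_zero.mpr hy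
    · exact ⟨_, pow_ne_zero 2 (sub_ne_zero.mpr hx), asMap_of_X_ne W h₁ h₂ hx⟩

end Pool.Agent.H7.Vojta
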