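import Mathlib
import Pool.Agent.H7.VojtaSym

/-!
# Local estimates: closeness to the origin is almost preserved by the group law
-/

set_option autoImplicit false

open WeierstrassCurve WeierstrassCurve.Affine

namespace Pool.Agent.H7.Vojta

/-- How close a point of an elliptic curve is to the origin `0` with respect to an absolute value:
`0` at the origin itself and `1 / max (|x|, 1)` at `(x, y)`. -/
noncomputable def nearness {K : Type*} [Field K] {W : Affine K} (v : K → ℝ) : W.Point → ℝ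
  | 0 => 0
  | .some x _ _ => (max (v x) 1)⁻¹

section

variable {K : Type*} [Field K] {W : Affine K} (v : AbsoluteValue K ℝ)

lemma nearness_nonneg (v : K → ℝ) (P : W.Point) : 0 ≤ nearness v P := by
  match P with
  | 0 => exact le_rfl
  | .some x y h => exact inv_nonneg.mpr (zero_le_one.trans (le_max_right _ _))

lemma nearness_le_one (v : K → ℝ) (P : W.Point) : nearness v P ≤ 1 := by
  match P with
  | 0 => exact zero_le_one
  | .some x y h => exact inv_le_one_of_one_le₀ (le_max_right _ _)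

lemma nearness_neg (v : K → ℝ) (P : W.Point) : nearness v (-P) = nearness v P := by
  match P with
  | 0 => rfl
  | .some x y h => rfl

lemma nearness_pos (v : K → ℝ) {P : W.Point} (hP : P ≠ 0) : 0 < nearness v P := by
  match P with
  | 0 => exact absurd rfl hP
  | .some x y h => exact inv_pos.mpr (zero_lt_one.trans_le (le_max_right _ _))

lemma near_elim {P : W.Point} {δ : ℝ} (h : nearness v P ≤ δ) (hδ : δ < 1) :
    ∃ l a : K, l ≠ 0 ∧ P.xRep 0 = l ∧ P.xRep 1 = l * a ∧ v a ≤ δ := by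
  match P with
  | 0 =>
    refine ⟨1, 0, one_ne_zero, rfl, by simp, ?_⟩
    rw [map_zero]
    exact h
  | .some x y hxy =>
    have h' : (max (v x) 1)⁻¹ ≤ δ := h
    have h1 : 1 < v x := by
      by_contra hx
      rw [max_eq_right (not_lt.mp hx)] at h'
      norm_num at h'
      linarith
    have hx : x ≠ 0 := fun h0 => by rw [h0, map_zero] at h1; linarith
    rw [max_eq_left h1.le] at h'
    exact ⟨x, x⁻¹, hx, rfl, by simp [hx], by rw [map_inv₀]; exact h'⟩

lemma near_intro {R : W.Point} {δ : ℝ} (hδ : 0 ≤ δ) (h0 : R.xRep 0 ≠ 0)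
    (h : v (R.xRep 1) ≤ δ * v (R.xRep 0)) : nearness v R ≤ δ := by
  match R with
  | 0 => exact hδ
  | .some x y hxy =>
    have hx : 0 < v x := v.pos h0
    have h' : (1 : ℝ) ≤ δ * v x := by simpa using h
    have : (v x)⁻¹ ≤ δ := by
      rw [← one_div, div_le_iff₀ hx]; exact h'
    exact (inv_anti₀ hx (le_max_left _ _)).trans this

lemma quad_nonarch (hv : IsNonarchimedean v) {R0 R1 T0 T1 κ N0 N1 N2 : K} {δ : ℝ} (hδ : 0 ≤ δ)
    (hκ : κ ≠ 0) (e0 : R0 * T0 = κ * N0) (e1 : R0 * T1 + R1 * T0 = κ * N1)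
    (e2 : R1 * T1 = κ * N2) (h0 : v N0 = 1) (h1 : v N1 ≤ δ) (h2 : v N2 ≤ δ ^ 2) :
    R0 ≠ 0 ∧ v R1 ≤ δ * v R0 := by
  have hN0 : N0 ≠ 0 := fun h => by rw [h, map_zero] at h0; linarith
  have hRT : R0 * T0 ≠ 0 := by rw [e0]; exact mul_ne_zero hκ hN0
  have hR0 : R0 ≠ 0 := left_ne_zero_of_mul hRT
  have hT0 : T0 ≠ 0 := right_ne_zero_of_mul hRT
  refine ⟨hR0, ?_⟩
  have hs : R1 / R0 + T1 / T0 = N1 / N0 := by
    field_simp
    linear_combination N0 * e1 - N1 * e0
  have hp : (R1 / R0) * (T1 / T0) = N2 / N0 := by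
    field_simp
    linear_combination N0 * e2 - N2 * e0
  have hs' : v (R1 / R0 + T1 / T0) ≤ δ := by rw [hs, map_div₀, h0, div_one]; exact h1
  have hp' : v (R1 / R0) * v (T1 / T0) ≤ δ ^ 2 := by
    rw [← map_mul, hp, map_div₀, h0, div_one]; exact h2
  have key : v (R1 / R0) ≤ δ := by
    by_contra hcon
    push Not at hcon
    by_cases heq : v (T1 / T0) = v (R1 / R0)
    · rw [heq] at hp'
      nlinarith
    · have := hv.add_eq_max_of_ne (f := v) (x := R1 / R0) (y := T1 / T0) (fun h => heq h.symm)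
      rw [this] at hs'
      exact absurd ((le_max_left _ _).trans hs') (not_le.mpr hcon)
  rw [map_div₀, div_le_iff₀ (v.pos hR0)] at key
  exact key

lemma quad_arch {R0 R1 T0 T1 κ N0 N1 N2 : K} {δ : ℝ} (hδ : 0 ≤ δ)
    (hκ : κ ≠ 0) (e0 : R0 * T0 = κ * N0) (e1 : R0 * T1 + R1 * T0 = κ * N1)
    (e2 : R1 * T1 = κ * N2) (h0 : 1 / 2 ≤ v N0) (h1 : v N1 ≤ 5 * δ) (h2 : v N2 ≤ 8 * δ ^ 2) :
    R0 ≠ 0 ∧ v R1 ≤ 12 * δ * v R0 := by
  have hN0 : N0 ≠ 0 := fun h => by rw [h, map_zero] at h0; linarith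
  have hRT : R0 * T0 ≠ 0 := by rw [e0]; exact mul_ne_zero hκ hN0
  have hR0 : R0 ≠ 0 := left_ne_zero_of_mul hRT
  have hT0 : T0 ≠ 0 := right_ne_zero_of_mul hRT
  refine ⟨hR0, ?_⟩
  have hs : R1 / R0 + T1 / T0 = N1 / N0 := by
    field_simp
    linear_combination N0 * e1 - N1 * e0
  have hp : (R1 / R0) * (T1 / T0) = N2 / N0 := by
    field_simp
    linear_combination N0 * e2 - N2 * e0
  have hN0' : 0 < v N0 := by linarith
  have hs' : v (R1 / R0 + T1 / T0) ≤ 10 * δ := by
    rw [hs, map_div₀, div_le_iff₀ hN0']; nlinarith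
  have hp' : v (R1 / R0) * v (T1 / T0) ≤ 16 * δ ^ 2 := by
    rw [← map_mul, hp, map_div₀, div_le_iff₀ hN0']; nlinarith [sq_nonneg δ]
  have key : v (R1 / R0) ≤ 12 * δ := by
    by_contra hcon
    push Not at hcon
    have h3 : v (R1 / R0) ≤ v (R1 / R0 + T1 / T0) + v (T1 / T0) := by
      calc v (R1 / R0) = v ((R1 / R0 + T1 / T0) - T1 / T0) := by ring_nf
        _ ≤ _ := v.sub_le_add _ _
    have h4 : 2 * δ < v (T1 / T0) := by linarith
    have h5 : 12 * δ * (2 * δ) < v (R1 / R0) * v (T1 / T0) :=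
      mul_lt_mul'' hcon h4 (by linarith) (by linarith)
    nlinarith [sq_nonneg δ]
  rw [map_div₀, div_le_iff₀ (v.pos hR0)] at key
  exact key

end

section

variable {K : Type*} [Field K] [DecidableEq K] (W : Affine K) [W.IsElliptic]
  (v : AbsoluteValue K ℝ)

lemma exists_scaled {P Q : W.Point} {δ : ℝ} (hP : nearness v P ≤ δ) (hQ : nearness v Q ≤ δ)
    (hδ : δ < 1) :
    ∃ a b κ : K, v a ≤ δ ∧ v b ≤ δ ∧ κ ≠ 0 ∧
      (P + Q).xRep 0 * (P - Q).xRep 0 =
        κ * (1 - (W.b₄ * (a * b) + W.b₆ * ((a + b) * (a * b)) + W.b₈ * (a * b) ^ 2)) ∧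
      (P + Q).xRep 0 * (P - Q).xRep 1 + (P + Q).xRep 1 * (P - Q).xRep 0 =
        κ * (2 * (a + b) + (W.b₂ * (a * b) + W.b₄ * ((a + b) * (a * b)) + W.b₆ * (a * b) ^ 2)) ∧
      (P + Q).xRep 1 * (P - Q).xRep 1 = κ * (a - b) ^ 2 := by
  obtain ⟨l, a, hl, hl0, hl1, ha⟩ := near_elim v hP hδ
  obtain ⟨m, b, hm, hm0, hm1, hb⟩ := near_elim v hQ hδ
  obtain ⟨c, hc, h⟩ := exists_asMap_sym2x W P Q
  have h0 := congrFun h 0
  have h1 := congrFun h 1
  have h2 := congrFun h 2
  simp only [asMap, Point.sym2x, Matrix.cons_val_zero, Matrix.cons_val_one, Matrix.cons_val,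
    Pi.smul_apply, smul_eq_mul, hl0, hl1, hm0, hm1] at h0 h1 h2
  refine ⟨a, b, (l * m) ^ 2 / c, ha, hb, div_ne_zero (pow_ne_zero 2 (mul_ne_zero hl hm)) hc,
    ?_, ?_, ?_⟩
  · rw [div_mul_eq_mul_div, eq_div_iff hc]
    linear_combination -h0
  · rw [div_mul_eq_mul_div, eq_div_iff hc]
    linear_combination -h1
  · rw [div_mul_eq_mul_div, eq_div_iff hc]
    linear_combination -h2

/-- Nonarchimedean case. -/
lemma nearness_add_le_nonarch (hv : IsNonarchimedean v) {c : ℝ} (hc : 1 ≤ c) (h₂ : v W.b₂ ≤ c)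
    (h₄ : v W.b₄ ≤ c) (h₆ : v W.b₆ ≤ c) (h₈ : v W.b₈ ≤ c) (P Q : W.Point) :
    nearness v (P + Q) ≤ c * max (nearness v P) (nearness v Q) := by
  set δ := max (nearness v P) (nearness v Q) with hδ
  have hδ0 : 0 ≤ δ := (nearness_nonneg v P).trans (le_max_left _ _)
  by_cases hcδ : c * δ < 1
  · have hδ1 : δ < 1 := by nlinarith
    obtain ⟨a, b, κ, ha, hb, hκ, e0, e1, e2⟩ := exists_scaled W v
      (le_max_left (nearness v P) (nearness v Q)) (le_max_right _ _) hδ1
    rw [← hδ] at ha hb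
    have hadd : ∀ x y : K, v (x + y) ≤ max (v x) (v y) := fun x y => hv x y
    have hab : v (a + b) ≤ δ := (hadd a b).trans (max_le ha hb)
    have hab' : v (a - b) ≤ δ := by
      rw [sub_eq_add_neg]
      exact (hadd a (-b)).trans (max_le ha (by rw [v.map_neg]; exact hb))
    have habm : v (a * b) ≤ δ * δ := by
      rw [map_mul]; exact mul_le_mul ha hb (v.nonneg _) hδ0
    have hcδ' : c * (δ * δ) ≤ δ := by nlinarith
    have bound : ∀ (β γ : K), v β ≤ c → v γ ≤ δ * δ → v (β * γ) ≤ c * (δ * δ) := fun β γ h1 h2 => by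
      rw [map_mul]; exact mul_le_mul h1 h2 (v.nonneg _) (by linarith)
    have g1 : v ((a + b) * (a * b)) ≤ δ * δ := by
      rw [map_mul]
      calc v (a + b) * v (a * b) ≤ 1 * (δ * δ) :=
            mul_le_mul (hab.trans hδ1.le) habm (v.nonneg _) zero_le_one
        _ = δ * δ := one_mul _
    have g2 : v ((a * b) ^ 2) ≤ δ * δ := by
      rw [map_pow]
      have : v (a * b) ≤ 1 := habm.trans (by nlinarith)
      calc v (a * b) ^ 2 = v (a * b) * v (a * b) := sq _
        _ ≤ (δ * δ) * 1 := mul_le_mul habm this (v.nonneg _) (by nlinarith)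
        _ = δ * δ := mul_one _
    have two : v (2 : K) ≤ 1 := by
      have := hv.apply_natCast_le_one (f := v) (n := 2)
      simpa using this
    have hE : v (W.b₄ * (a * b) + W.b₆ * ((a + b) * (a * b)) + W.b₈ * (a * b) ^ 2) ≤
        c * (δ * δ) := by
      refine (hadd _ _).trans (max_le ((hadd _ _).trans (max_le ?_ ?_)) ?_)
      · exact bound _ _ h₄ habm
      · exact bound _ _ h₆ g1
      · exact bound _ _ h₈ g2
    have hE1 : v (W.b₄ * (a * b) + W.b₆ * ((a + b) * (a * b)) + W.b₈ * (a * b) ^ 2) < 1 :=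
      hE.trans_lt (hcδ'.trans_lt hδ1)
    have hN0 : v (1 - (W.b₄ * (a * b) + W.b₆ * ((a + b) * (a * b)) + W.b₈ * (a * b) ^ 2)) = 1 := by
      rw [sub_eq_add_neg]
      rw [hv.add_eq_max_of_ne (f := v) (by rw [v.map_neg, map_one]; exact hE1.ne')]
      rw [v.map_neg, map_one]
      exact max_eq_left hE1.le
    have hN1 : v (2 * (a + b) + (W.b₂ * (a * b) + W.b₄ * ((a + b) * (a * b)) +
        W.b₆ * (a * b) ^ 2)) ≤ δ := by
      refine (hadd _ _).trans (max_le ?_ ((hadd _ _).trans (max_le ((hadd _ _).trans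
        (max_le ?_ ?_)) ?_)))
      · rw [map_mul]
        calc v 2 * v (a + b) ≤ 1 * δ := mul_le_mul two hab (v.nonneg _) zero_le_one
          _ = δ := one_mul _
      · exact (bound _ _ h₂ habm).trans hcδ'
      · exact (bound _ _ h₄ g1).trans hcδ'
      · exact (bound _ _ h₆ g2).trans hcδ'
    have hN2 : v ((a - b) ^ 2) ≤ δ ^ 2 := by
      rw [map_pow]; exact pow_le_pow_left₀ (v.nonneg _) hab' 2
    obtain ⟨hR0, hR1⟩ := quad_nonarch v hv hδ0 hκ e0 e1 e2 hN0 hN1 hN2
    refine (near_intro v hδ0 hR0 hR1).trans ?_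
    nlinarith
  · exact (nearness_le_one _ _).trans (not_lt.mp hcδ)

/-- Archimedean case. -/
lemma nearness_add_le_arch {B : ℝ} (hB : 1 ≤ B) (h₂ : v W.b₂ ≤ B)
    (h₄ : v W.b₄ ≤ B) (h₆ : v W.b₆ ≤ B) (h₈ : v W.b₈ ≤ B) (P Q : W.Point) :
    nearness v (P + Q) ≤ 12 * B * max (nearness v P) (nearness v Q) := by
  set δ := max (nearness v P) (nearness v Q) with hδ
  have hδ0 : 0 ≤ δ := (nearness_nonneg v P).trans (le_max_left _ _)
  by_cases hcδ : 8 * B * δ ≤ 1
  · have hδ8 : δ ≤ 1 / 8 := by nlinarith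
    have hδ1 : δ < 1 := by linarith
    obtain ⟨a, b, κ, ha, hb, hκ, e0, e1, e2⟩ := exists_scaled W v
      (le_max_left (nearness v P) (nearness v Q)) (le_max_right _ _) hδ1
    rw [← hδ] at ha hb
    have hadd : ∀ x y : K, v (x + y) ≤ v x + v y := fun x y => v.add_le x y
    have hab : v (a + b) ≤ 2 * δ := (hadd a b).trans (by linarith)
    have hab' : v (a - b) ≤ 2 * δ := (v.sub_le_add a b).trans (by linarith)
    have habm : v (a * b) ≤ δ * δ := by
      rw [map_mul]; exact mul_le_mul ha hb (v.nonneg _) hδ0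
    have bound : ∀ (β γ : K) (t : ℝ), v β ≤ B → v γ ≤ t → v (β * γ) ≤ B * t := fun β γ t h1 h2 => by
      rw [map_mul]; exact mul_le_mul h1 h2 (v.nonneg _) (by linarith)
    have g1 : v ((a + b) * (a * b)) ≤ δ * δ := by
      rw [map_mul]
      calc v (a + b) * v (a * b) ≤ 1 * (δ * δ) :=
            mul_le_mul (hab.trans (by linarith)) habm (v.nonneg _) zero_le_one
        _ = δ * δ := one_mul _
    have g2 : v ((a * b) ^ 2) ≤ δ * δ := by
      rw [map_pow]
      have : v (a * b) ≤ 1 := habm.trans (by nlinarith)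
      calc v (a * b) ^ 2 = v (a * b) * v (a * b) := sq _
        _ ≤ (δ * δ) * 1 := mul_le_mul habm this (v.nonneg _) (by nlinarith)
        _ = δ * δ := mul_one _
    have two : v (2 : K) ≤ 2 := by
      have := v.add_le 1 1
      rw [map_one] at this
      norm_num at this
      exact this
    have hBδ : B * (δ * δ) ≤ δ / 8 := by nlinarith
    have hE : v (W.b₄ * (a * b) + W.b₆ * ((a + b) * (a * b)) + W.b₈ * (a * b) ^ 2) ≤
        3 * (δ / 8) := by
      have t1 := (bound _ _ _ h₄ habm).trans hBδ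
      have t2 := (bound _ _ _ h₆ g1).trans hBδ
      have t3 := (bound _ _ _ h₈ g2).trans hBδ
      have s1 := hadd (W.b₄ * (a * b) + W.b₆ * ((a + b) * (a * b))) (W.b₈ * (a * b) ^ 2)
      have s2 := hadd (W.b₄ * (a * b)) (W.b₆ * ((a + b) * (a * b)))
      linarith
    have hN0 : 1 / 2 ≤ v (1 - (W.b₄ * (a * b) + W.b₆ * ((a + b) * (a * b)) +
        W.b₈ * (a * b) ^ 2)) := by
      have s1 := v.le_sub 1 (W.b₄ * (a * b) + W.b₆ * ((a + b) * (a * b)) + W.b₈ * (a * b) ^ 2)
      rw [map_one] at s1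
      linarith
    have hN1 : v (2 * (a + b) + (W.b₂ * (a * b) + W.b₄ * ((a + b) * (a * b)) +
        W.b₆ * (a * b) ^ 2)) ≤ 5 * δ := by
      have t0 : v (2 * (a + b)) ≤ 2 * (2 * δ) := by
        rw [map_mul]; exact mul_le_mul two hab (v.nonneg _) (by norm_num)
      have t1 := (bound _ _ _ h₂ habm).trans hBδ
      have t2 := (bound _ _ _ h₄ g1).trans hBδ
      have t3 := (bound _ _ _ h₆ g2).trans hBδ
      have s0 := hadd (2 * (a + b)) (W.b₂ * (a * b) + W.b₄ * ((a + b) * (a * b)) +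
        W.b₆ * (a * b) ^ 2)
      have s1 := hadd (W.b₂ * (a * b) + W.b₄ * ((a + b) * (a * b))) (W.b₆ * (a * b) ^ 2)
      have s2 := hadd (W.b₂ * (a * b)) (W.b₄ * ((a + b) * (a * b)))
      linarith
    have hN2 : v ((a - b) ^ 2) ≤ 8 * δ ^ 2 := by
      rw [map_pow]
      have := pow_le_pow_left₀ (v.nonneg _) hab' 2
      nlinarith [sq_nonneg δ]
    obtain ⟨hR0, hR1⟩ := quad_arch v hδ0 hκ e0 e1 e2 hN0 hN1 hN2
    refine (near_intro v (by linarith) hR0 hR1).trans ?_
    nlinarith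
  · refine (nearness_le_one _ _).trans ?_
    push Not at hcδ
    nlinarith

end

section

variable {K : Type*} [Field K] [DecidableEq K] {W : Affine K} {v : K → ℝ} {c : ℝ}

lemma nearness_nsmul_le (hc : 1 ≤ c)
    (h : ∀ P Q : W.Point, nearness v (P + Q) ≤ c * max (nearness v P) (nearness v Q))
    (P : W.Point) (j : ℕ) : nearness v (j • P) ≤ c ^ j * nearness v P := by
  have hP := nearness_nonneg v P
  induction j with
  | zero =>
    rw [zero_smul, pow_zero, one_mul]
    exact hP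
  | succ j ih =>
    rw [succ_nsmul]
    refine (h _ _).trans ?_
    rw [pow_succ, mul_comm (c ^ j), mul_assoc]
    refine mul_le_mul_of_nonneg_left (max_le ih ?_) (by linarith)
    exact le_mul_of_one_le_left hP (one_le_pow₀ hc)

lemma nearness_zsmul_le (hc : 1 ≤ c)
    (h : ∀ P Q : W.Point, nearness v (P + Q) ≤ c * max (nearness v P) (nearness v Q))
    (P : W.Point) (j : ℤ) {M : ℕ} (hM : |j| ≤ M) : nearness v (j • P) ≤ c ^ M * nearness v P := by
  have hP := nearness_nonneg v P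
  have hle : j.natAbs ≤ M := by
    have : (j.natAbs : ℤ) ≤ M := by rw [Int.natCast_natAbs]; exact hM
    exact_mod_cast this
  have h1 : nearness v (j • P) = nearness v (j.natAbs • P) := by
    rcases Int.natAbs_eq j with h2 | h2
    · conv_lhs => rw [h2, natCast_zsmul]
    · conv_lhs => rw [h2, neg_smul, nearness_neg, natCast_zsmul]
  rw [h1]
  refine (nearness_nsmul_le hc h P _).trans ?_
  exact mul_le_mul_of_nonneg_right (pow_le_pow_right₀ hc hle) hP

lemma nearness_sum_le (hc : 1 ≤ c)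
    (h : ∀ P Q : W.Point, nearness v (P + Q) ≤ c * max (nearness v P) (nearness v Q))
    {ι : Type*} (s : Finset ι) (P : ι → W.Point) {δ : ℝ} (hδ : 0 ≤ δ)
    (hP : ∀ i ∈ s, nearness v (P i) ≤ δ) : nearness v (∑ i ∈ s, P i) ≤ c ^ s.card * δ := by
  classical
  induction s using Finset.induction_on with
  | empty =>
    rw [Finset.sum_empty, Finset.card_empty, pow_zero, one_mul]
    exact hδ
  | insert i s hi ih =>
    rw [Finset.sum_insert hi, Finset.card_insert_of_notMem hi]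
    refine (h _ _).trans ?_
    rw [pow_succ, mul_comm (c ^ _), mul_assoc]
    refine mul_le_mul_of_nonneg_left (max_le ?_ (ih fun j hj => hP j (Finset.mem_insert_of_mem hj)))
      (by linarith)
    exact (hP i (Finset.mem_insert_self _ _)).trans (le_mul_of_one_le_left hδ (one_le_pow₀ hc))

/-- The nearness of a combination is controlled by the nearness of all the points. -/
lemma nearness_combo_le (hc : 1 ≤ c)
    (h : ∀ P Q : W.Point, nearness v (P + Q) ≤ c * max (nearness v P) (nearness v Q))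
    {n : ℕ} (P : Fin n → W.Point) (u : Fin n → ℤ) {M : ℕ} (hu : ∀ i, |u i| ≤ M) :
    nearness v (∑ i, u i • P i) ≤ c ^ (n + M) * ⨆ i, nearness v (P i) := by
  have hδ : 0 ≤ ⨆ i, nearness v (P i) := Real.iSup_nonneg fun i => nearness_nonneg v (P i)
  have h1 : ∀ i ∈ (Finset.univ : Finset (Fin n)),
      nearness v (u i • P i) ≤ c ^ M * ⨆ i, nearness v (P i) := fun i _ =>
    (nearness_zsmul_le hc h (P i) (u i) (hu i)).trans
      (mul_le_mul_of_nonneg_left (Finite.le_ciSup (fun i => nearness v (P i)) i)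
        (pow_nonneg (by linarith) _))
  have h2 := nearness_sum_le hc h Finset.univ (fun i => u i • P i)
    (mul_nonneg (pow_nonneg (by linarith) _) hδ) h1
  rw [Finset.card_univ, Fintype.card_fin, ← mul_assoc, ← pow_add] at h2
  exact h2

end

end Pool.Agent.H7.Vojta
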