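import Mathlib

/-!
# Bounds for the images of finitely many elements, uniform in the extension field
-/

set_option autoImplicit false

open Height NumberField

namespace Pool.Agent.H7.Vojta

section

variable {K : Type*} [Field K] [NumberField K]

lemma finitePlace_le_one_of_isIntegral (v : FinitePlace K) {x : K} (hx : IsIntegral ℤ x) :
    v x ≤ 1 := by
  have h := FinitePlace.norm_le_one (K := K) v.maximalIdeal (⟨x, hx⟩ : 𝓞 K)
  rw [FinitePlace.norm_embedding_eq] at h
  exact h

lemma finitePlace_natCast_le_one (v : FinitePlace K) (m : ℕ) : v (m : K) ≤ 1 :=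
  finitePlace_le_one_of_isIntegral v (by
    simpa using isIntegral_algebraMap (R := ℤ) (A := K) (x := (m : ℤ)))

omit [NumberField K] in
lemma infinitePlace_natCast (v : InfinitePlace K) (m : ℕ) : v (m : K) = m := by
  rw [← InfinitePlace.norm_embedding_eq]
  simp

lemma prod_infinitePlace_pow_const (B : ℝ) :
    ∏ v : InfinitePlace K, B ^ v.mult = B ^ totalWeight K := by
  rw [Finset.prod_pow_eq_pow_sum, totalWeight_eq_sum_mult]

lemma finprod_finitePlace_inv_natCast {m : ℕ} (hm : m ≠ 0) :
    ∏ᶠ v : FinitePlace K, (v (m : K))⁻¹ = (m : ℝ) ^ totalWeight K := by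
  have hm' : (m : K) ≠ 0 := by exact_mod_cast hm
  have h := prod_abs_eq_one hm'
  rw [finprod_inv_distrib]
  have h2 : ∏ w : InfinitePlace K, w (m : K) ^ w.mult = (m : ℝ) ^ totalWeight K := by
    simp_rw [infinitePlace_natCast]
    exact prod_infinitePlace_pow_const _
  rw [h2] at h
  exact (eq_inv_of_mul_eq_one_left h).symm

end

/-- Finitely many elements of `k` have bounded archimedean absolute values and a common
denominator, uniformly for all number fields containing `k`. -/
lemma exists_local_bounds {k : Type*} [Field k] [NumberField k] (S : Finset k) :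
    ∃ (m : ℕ) (B : ℝ), m ≠ 0 ∧ 1 ≤ B ∧
      ∀ (K : Type*) [Field K] [NumberField K] [Algebra k K],
        (∀ v : InfinitePlace K, ∀ c ∈ S, v (algebraMap k K c) ≤ B) ∧
        (∀ v : FinitePlace K, ∀ c ∈ S, v (m : K) * v (algebraMap k K c) ≤ 1) := by
  classical
  have hden : ∀ c : k, ∃ n : ℕ, n ≠ 0 ∧ IsIntegral ℤ ((n : k) * c) := fun c => by
    obtain ⟨n, hn, -, h⟩ := exists_nat_le_mulHeight₁ c
    exact ⟨n, hn, h⟩
  choose d hd hint using hden
  refine ⟨∏ c ∈ S, d c, max 1 (∑ φ : k →+* ℂ, ∑ c ∈ S, ‖φ c‖),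
    Finset.prod_ne_zero_iff.mpr fun c _ => hd c, le_max_left _ _, ?_⟩
  intro K _ _ _
  constructor
  · intro v c hc
    rw [← InfinitePlace.norm_embedding_eq]
    refine le_trans ?_ (le_max_right _ _)
    calc ‖v.embedding (algebraMap k K c)‖ = ‖(v.embedding.comp (algebraMap k K)) c‖ := rfl
      _ ≤ ∑ c' ∈ S, ‖(v.embedding.comp (algebraMap k K)) c'‖ :=
          Finset.single_le_sum (f := fun c' => ‖(v.embedding.comp (algebraMap k K)) c'‖)
            (fun _ _ => norm_nonneg _) hc
      _ ≤ ∑ φ : k →+* ℂ, ∑ c' ∈ S, ‖φ c'‖ :=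
          Finset.single_le_sum (f := fun φ : k →+* ℂ => ∑ c' ∈ S, ‖φ c'‖)
            (fun _ _ => Finset.sum_nonneg fun _ _ => norm_nonneg _) (Finset.mem_univ _)
  · intro v c hc
    rw [← map_mul]
    obtain ⟨e, he⟩ := Finset.dvd_prod_of_mem d hc
    have : ((∏ c ∈ S, d c : ℕ) : K) * algebraMap k K c =
        (e : K) * algebraMap k K ((d c : k) * c) := by
      rw [he, Nat.cast_mul, map_mul (algebraMap k K), map_natCast]
      ring
    rw [this, map_mul]
    have h1 := finitePlace_natCast_le_one v e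
    have h2 := finitePlace_le_one_of_isIntegral v ((hint c).algebraMap (B := K))
    exact mul_le_one₀ h1 (apply_nonneg v _) h2

end Pool.Agent.H7.Vojta
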