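import Mathlib
import Pool.Agent.H7.VojtaSym
import Pool.Agent.H7.VojtaLocalBounds

/-!
# Height inequalities with constants uniform in the extension field
-/

set_option autoImplicit false

open Height NumberField MvPolynomial

namespace Pool.Agent.H7.Vojta

lemma mulHeightBound_map_le {k : Type*} [Field k] [NumberField k] {ι ι' : Type*} [Finite ι']
    [Nonempty ι'] (p : ι' → MvPolynomial ι k) :
    ∃ C : ℝ, 1 ≤ C ∧ ∀ (K : Type*) [Field K] [NumberField K] [Algebra k K],
      max (mulHeightBound (fun j => MvPolynomial.map (algebraMap k K) (p j))) 1 ≤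
        C ^ totalWeight K := by
  classical
  have := Fintype.ofFinite ι'
  set S : Finset k := Finset.univ.biUnion fun j => (p j).support.image (fun s => coeff s (p j))
    with hS
  obtain ⟨m, B, hm, hB, hmB⟩ := exists_local_bounds S
  set N : ℕ := 1 + ∑ j, (p j).support.card with hN
  have hN1 : (1 : ℝ) ≤ N := by exact_mod_cast Nat.le_add_right 1 _
  have hm1 : (1 : ℝ) ≤ m := by exact_mod_cast Nat.one_le_iff_ne_zero.mpr hm
  have hC1 : (1 : ℝ) ≤ N * B * m :=
    one_le_mul_of_one_le_of_one_le (one_le_mul_of_one_le_of_one_le hN1 hB) hm1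
  refine ⟨N * B * m, hC1, ?_⟩
  intro K _ _ _
  obtain ⟨hinf, hfin⟩ := hmB K
  have hmem : ∀ j, ∀ s ∈ (p j).support, coeff s (p j) ∈ S := fun j s hs => by
    rw [hS, Finset.mem_biUnion]
    exact ⟨j, Finset.mem_univ _, Finset.mem_image_of_mem _ hs⟩
  have hsub : ∀ j, (MvPolynomial.map (algebraMap k K) (p j)).support ⊆ (p j).support :=
    fun j => support_map_subset _ _
  refine max_le ?_ (one_le_pow₀ hC1)
  rw [mulHeightBound_eq]
  rw [prod_archAbsVal_eq (fun v => ⨆ j, (AddMonoidAlgebra.coeff <|
    MvPolynomial.map (algebraMap k K) (p j)).sum (fun _ c ↦ v c))]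
  rw [prod_nonarchAbsVal_eq (fun v => ⨆ j, max (⨆ s : (MvPolynomial.map (algebraMap k K)
    (p j)).support, v (coeff s (MvPolynomial.map (algebraMap k K) (p j)))) 1)]
  have h1 : ∏ v : InfinitePlace K, (⨆ j, (AddMonoidAlgebra.coeff <|
      MvPolynomial.map (algebraMap k K) (p j)).sum (fun _ c ↦ v.val c)) ^ v.mult ≤
      (N * B) ^ totalWeight K := by
    rw [← prod_infinitePlace_pow_const]
    apply Finset.prod_le_prod
    · intro v _
      apply pow_nonneg
      exact Real.iSup_nonneg fun j => Finset.sum_nonneg fun _ _ => v.val.nonneg _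
    · intro v _
      apply pow_le_pow_left₀
      · exact Real.iSup_nonneg fun j => Finset.sum_nonneg fun _ _ => v.val.nonneg _
      · apply ciSup_le
        intro j
        calc (AddMonoidAlgebra.coeff <|
              MvPolynomial.map (algebraMap k K) (p j)).sum (fun _ c ↦ v.val c)
            = ∑ s ∈ (MvPolynomial.map (algebraMap k K) (p j)).support,
                v.val (coeff s (MvPolynomial.map (algebraMap k K) (p j))) := rfl
          _ ≤ ∑ s ∈ (MvPolynomial.map (algebraMap k K) (p j)).support, B := by
              apply Finset.sum_le_sum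
              intro s hs
              rw [coeff_map]
              exact hinf v _ (hmem j s (hsub j hs))
          _ = (MvPolynomial.map (algebraMap k K) (p j)).support.card * B := by
              rw [Finset.sum_const, nsmul_eq_mul]
          _ ≤ N * B := by
              gcongr
              calc _ ≤ (p j).support.card := Finset.card_le_card (hsub j)
                _ ≤ ∑ j, (p j).support.card :=
                    Finset.single_le_sum (f := fun j => (p j).support.card)
                      (fun _ _ => Nat.zero_le _) (Finset.mem_univ j)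
                _ ≤ N := by rw [hN]; exact Nat.le_add_left _ _
  have hm' : (m : K) ≠ 0 := by exact_mod_cast hm
  have hbd : ∀ v : FinitePlace K, (⨆ j, max (⨆ s : (MvPolynomial.map (algebraMap k K)
      (p j)).support, v.val (coeff s (MvPolynomial.map (algebraMap k K) (p j)))) 1) ≤
      (v (m : K))⁻¹ := by
    intro v
    have hv0 : 0 < v (m : K) := FinitePlace.pos_iff.mpr hm'
    have hv1 : 1 ≤ (v (m : K))⁻¹ := (one_le_inv₀ hv0).mpr (finitePlace_natCast_le_one v m)
    apply ciSup_le
    intro j
    apply max_le _ hv1
    apply Real.iSup_le _ (zero_le_one.trans hv1)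
    rintro ⟨s, hs⟩
    rw [coeff_map]
    have := hfin v _ (hmem j s (hsub j hs))
    rw [← one_div, le_div_iff₀ hv0, mul_comm]
    exact this
  have hge : ∀ v : FinitePlace K, 1 ≤ (⨆ j, max (⨆ s : (MvPolynomial.map (algebraMap k K)
      (p j)).support, v.val (coeff s (MvPolynomial.map (algebraMap k K) (p j)))) 1) := by
    intro v
    exact (le_max_right _ _).trans (Finite.le_ciSup (fun j => max (⨆ s : (MvPolynomial.map
      (algebraMap k K) (p j)).support,
        v.val (coeff s (MvPolynomial.map (algebraMap k K) (p j)))) 1) (Classical.arbitrary ι'))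
  have hfs : (fun v : FinitePlace K => (v (m : K))⁻¹).HasFiniteMulSupport :=
    (FinitePlace.hasFiniteMulSupport hm').inv
  have h2 : ∏ᶠ v : FinitePlace K, (⨆ j, max (⨆ s : (MvPolynomial.map (algebraMap k K)
      (p j)).support, v.val (coeff s (MvPolynomial.map (algebraMap k K) (p j)))) 1) ≤
      (m : ℝ) ^ totalWeight K := by
    rw [← finprod_finitePlace_inv_natCast hm]
    apply finprod_le_finprod _ (fun v => zero_le_one.trans (hge v)) hfs hbd
    refine Set.Finite.subset hfs ?_
    intro v hv hv'
    apply hv
    have : (v (m : K))⁻¹ = 1 := hv'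
    have h3 := hbd v
    rw [this] at h3
    exact le_antisymm h3 (hge v)
  calc _ ≤ (N * B) ^ totalWeight K * (m : ℝ) ^ totalWeight K := by
        apply mul_le_mul h1 h2 _ (pow_nonneg (mul_nonneg (Nat.cast_nonneg _)
          (zero_le_one.trans hB)) _)
        exact zero_le_one.trans (one_le_finprod hge)
    _ = _ := by rw [← mul_pow]

end Pool.Agent.H7.Vojta
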