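import Mathlib
import Pool.Agent.H7.VojtaHeight

/-!
# The parallelogram law for the naive height, uniform in the extension field
-/

set_option autoImplicit false

open Height NumberField MvPolynomial WeierstrassCurve WeierstrassCurve.Affine

namespace Pool.Agent.H7.Vojta

universe u v

section

variable {k : Type u} [Field k] [NumberField k]

lemma logHeight_eval_map_le {ι ι' : Type*} [Finite ι] [Finite ι'] [Nonempty ι'] {N : ℕ}
    (p : ι' → MvPolynomial ι k) (hp : ∀ i, (p i).IsHomogeneous N) :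
    ∃ C : ℝ, 0 ≤ C ∧ ∀ (K : Type v) [Field K] [NumberField K] [Algebra k K] (x : ι → K),
      logHeight (fun j => eval x (MvPolynomial.map (algebraMap k K) (p j))) ≤
        C * totalWeight K + N * logHeight x := by
  obtain ⟨C, hC1, hC⟩ := mulHeightBound_map_le p
  refine ⟨Real.log C, Real.log_nonneg hC1, ?_⟩
  intro K _ _ _ x
  refine (logHeight_eval_le (fun i => (hp i).map (algebraMap k K)) x).trans ?_
  gcongr
  rw [mul_comm, ← Real.log_pow]
  exact Real.log_le_log (lt_of_lt_of_le one_pos (le_max_right _ _)) (hC K)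

lemma logHeight_eval_map_ge {ι ι' : Type*} [Finite ι] [Nonempty ι] [Fintype ι'] [Nonempty ι']
    {M : ℕ} (N : ℕ) (q : ι × ι' → MvPolynomial ι k) (hq : ∀ i, (q i).IsHomogeneous M) :
    ∃ C : ℝ, 0 ≤ C ∧ ∀ (K : Type v) [Field K] [NumberField K] [Algebra k K]
      (p : ι' → MvPolynomial ι K) (x : ι → K),
      (∀ i, ∑ j, eval x (MvPolynomial.map (algebraMap k K) (q (i, j))) * eval x (p j) =
        x i ^ (M + N)) →
      -(C * totalWeight K) + N * logHeight x ≤ logHeight (fun j => eval x (p j)) := by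
  obtain ⟨C, hC1, hC⟩ := mulHeightBound_map_le q
  have hcard : (1 : ℝ) ≤ Nat.card ι' := by
    exact_mod_cast Nat.one_le_iff_ne_zero.mpr (Nat.card_pos (α := ι')).ne'
  have h1 : (1 : ℝ) ≤ Nat.card ι' * C := one_le_mul_of_one_le_of_one_le hcard hC1
  refine ⟨Real.log (Nat.card ι' * C), Real.log_nonneg h1, ?_⟩
  intro K _ _ _ p x hx
  refine le_trans ?_ (logHeight_eval_ge (fun i => (hq i).map (algebraMap k K)) p hx)
  gcongr
  rw [mul_comm (Real.log _), ← Real.log_pow, mul_pow]
  apply Real.log_le_log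
  · exact mul_pos (pow_pos (by linarith) _) (lt_of_lt_of_le one_pos (le_max_right _ _))
  · exact mul_le_mul_of_nonneg_left (hC K) (pow_nonneg (by linarith) _)

end

section sym

variable (k : Type u) [Field k] [NumberField k]

lemma abs_logHeight_sym2_le :
    ∃ C : ℝ, 0 ≤ C ∧ ∀ (K : Type v) [Field K] [NumberField K] [Algebra k K] (a b c d : K),
      ![a, b] ≠ 0 → ![c, d] ≠ 0 →
      |logHeight ![a * c, a * d + b * c, b * d] - (logHeight ![a, b] + logHeight ![c, d])| ≤
        C * totalWeight K := by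
  let p : Fin 3 → MvPolynomial (Fin 4) k := ![X 0, X 1 + X 2, X 3]
  have homp : ∀ i, (p i).IsHomogeneous 1 := by
    intro i
    fin_cases i <;> simp [p, isHomogeneous_X, IsHomogeneous.add]
  let q : Fin 4 × Fin 3 → MvPolynomial (Fin 4) k :=
    ![![X 0, 0, 0], ![0, X 1, -X 0], ![0, X 2, -X 0], ![0, 0, X 3]].uncurry
  have homq : ∀ a, (q a).IsHomogeneous 1 := by
    intro a
    fin_cases a <;> simp [q] <;> grind [!isHomogeneous_X, isHomogeneous_zero, IsHomogeneous.neg]
  obtain ⟨C₁, hC₁0, hC₁⟩ := logHeight_eval_map_le.{u, v} p homp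
  obtain ⟨C₂, hC₂0, hC₂⟩ := logHeight_eval_map_ge.{u, v} 1 q homq
  refine ⟨max C₁ C₂, le_max_of_le_left hC₁0, ?_⟩
  intro K _ _ _ a b c d hab hcd
  have h0 : logHeight ![a, b] + logHeight ![c, d] = logHeight ![a * c, a * d, b * c, b * d] := by
    simp only [logHeight_eq_log_mulHeight]
    rw [← Real.log_mul (mulHeight_ne_zero _) (mulHeight_ne_zero _),
      mulHeight_mul_mulHeight hab hcd]
  have hp : (fun j => eval ![a * c, a * d, b * c, b * d]
      (MvPolynomial.map (algebraMap k K) (p j))) = ![a * c, a * d + b * c, b * d] := by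
    funext j
    fin_cases j <;> simp [p]
  have h1 := hC₁ K ![a * c, a * d, b * c, b * d]
  have h2 := hC₂ K (fun j => MvPolynomial.map (algebraMap k K) (p j))
    ![a * c, a * d, b * c, b * d] (by
      intro i
      fin_cases i <;> simp [p, q, Fin.sum_univ_three] <;> ring)
  simp only [Nat.cast_one, one_mul] at h1 h2
  rw [hp] at h1 h2
  rw [h0]
  have hw : (0 : ℝ) ≤ totalWeight K := Nat.cast_nonneg _
  have e1 : C₁ * totalWeight K ≤ max C₁ C₂ * totalWeight K :=
    mul_le_mul_of_nonneg_right (le_max_left _ _) hw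
  have e2 : C₂ * totalWeight K ≤ max C₁ C₂ * totalWeight K :=
    mul_le_mul_of_nonneg_right (le_max_right _ _) hw
  rw [abs_le]
  constructor <;> linarith

end sym

section para

variable {k : Type u} [Field k] [NumberField k] (W : Affine k) [W.IsElliptic]

omit [W.IsElliptic] in
lemma eval_map_addSubMap {K : Type v} [Field K] [Algebra k K] (x : Fin 3 → K) :
    (fun j => eval x (MvPolynomial.map (algebraMap k K) (addSubMap W j))) = asMap (W⁄K) x := by
  have e₂ : (W⁄K).b₂ = algebraMap k K W.b₂ := W.map_b₂ (algebraMap k K)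
  have e₄ : (W⁄K).b₄ = algebraMap k K W.b₄ := W.map_b₄ (algebraMap k K)
  have e₆ : (W⁄K).b₆ = algebraMap k K W.b₆ := W.map_b₆ (algebraMap k K)
  have e₈ : (W⁄K).b₈ = algebraMap k K W.b₈ := W.map_b₈ (algebraMap k K)
  have h2 : algebraMap k K 2 = 2 := map_ofNat _ 2
  have h4 : algebraMap k K 4 = 4 := map_ofNat _ 4
  funext i
  fin_cases i <;> simp [addSubMap, asMap, e₂, e₄, e₆, e₈, h2, h4]

lemma addSubMapCoeff_poly (i : Fin 3) :
    ∑ j : Fin 3, (C (↑W.Δ'⁻¹ : k) * addSubMapCoeff W (i, j)) * addSubMap W j = X i ^ 4 := by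
  apply MvPolynomial.funext
  intro x
  simpa using addSubMapCoeff_condition W x i

lemma abs_logHeight_asMap_le :
    ∃ C : ℝ, 0 ≤ C ∧ ∀ (K : Type v) [Field K] [NumberField K] [Algebra k K] (x : Fin 3 → K),
      |logHeight (asMap (W⁄K) x) - 2 * logHeight x| ≤ C * totalWeight K := by
  obtain ⟨C₁, hC₁0, hC₁⟩ := logHeight_eval_map_le.{u, v} (addSubMap W) (isHomogeneous_addSubMap W)
  obtain ⟨C₂, hC₂0, hC₂⟩ := logHeight_eval_map_ge.{u, v} 2
    (fun ij => MvPolynomial.C (↑W.Δ'⁻¹ : k) * addSubMapCoeff W ij)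
    (fun ij => (isHomogeneous_addSubMapCoeff W ij).C_mul (↑W.Δ'⁻¹ : k))
  refine ⟨max C₁ C₂, le_max_of_le_left hC₁0, ?_⟩
  intro K _ _ _ x
  have h1 := hC₁ K x
  have h2 := hC₂ K (fun j => MvPolynomial.map (algebraMap k K) (addSubMap W j)) x (by
    intro i
    have := congrArg (fun P => eval x (MvPolynomial.map (algebraMap k K) P))
      (addSubMapCoeff_poly W i)
    simpa using this)
  rw [eval_map_addSubMap] at h1 h2
  have hw : (0 : ℝ) ≤ totalWeight K := Nat.cast_nonneg _
  have e1 : C₁ * totalWeight K ≤ max C₁ C₂ * totalWeight K :=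
    mul_le_mul_of_nonneg_right (le_max_left _ _) hw
  have e2 : C₂ * totalWeight K ≤ max C₁ C₂ * totalWeight K :=
    mul_le_mul_of_nonneg_right (le_max_right _ _) hw
  rw [abs_le]
  push_cast at h1 h2
  constructor <;> linarith

instance isElliptic_baseChange (K : Type v) [Field K] [Algebra k K] : (W⁄K).IsElliptic :=
  inferInstanceAs (WeierstrassCurve.IsElliptic (WeierstrassCurve.map W (algebraMap k K)))

/-- The naive height of a point. -/
noncomputable def naive {K : Type v} [Field K] [NumberField K] {W' : Affine K} (P : W'.Point) : ℝ :=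
  logHeight P.xRep

lemma naive_nonneg {K : Type v} [Field K] [NumberField K] {W' : Affine K} (P : W'.Point) :
    0 ≤ naive P := logHeight_nonneg _

omit [W.IsElliptic] in
lemma logHeight_sym2x_sub_le :
    ∃ C : ℝ, 0 ≤ C ∧ ∀ (K : Type v) [Field K] [NumberField K] [Algebra k K]
      (P Q : (W⁄K).Point),
      |logHeight (P.sym2x Q) - (naive P + naive Q)| ≤ C * totalWeight K := by
  obtain ⟨C, hC0, hC⟩ := abs_logHeight_sym2_le.{u, v} k
  refine ⟨C, hC0, ?_⟩
  intro K _ _ _ P Q
  have hP : ![P.xRep 0, P.xRep 1] = P.xRep := by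
    funext i; fin_cases i <;> rfl
  have hQ : ![Q.xRep 0, Q.xRep 1] = Q.xRep := by
    funext i; fin_cases i <;> rfl
  have := hC K (P.xRep 0) (P.xRep 1) (Q.xRep 0) (Q.xRep 1)
    (by rw [hP]; exact P.xRep_ne_zero) (by rw [hQ]; exact Q.xRep_ne_zero)
  rw [hP, hQ] at this
  exact this

/-- The parallelogram law up to an error that is bounded by a constant times the degree. -/
theorem exists_parallelogram :
    ∃ C : ℝ, 0 ≤ C ∧ ∀ (K : Type v) [Field K] [NumberField K] [DecidableEq K] [Algebra k K]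
      (P Q : (W⁄K).Point),
      |naive (P + Q) + naive (P - Q) - 2 * naive P - 2 * naive Q| ≤ C * totalWeight K := by
  obtain ⟨C₁, hC₁0, hC₁⟩ := logHeight_sym2x_sub_le.{u, v} W
  obtain ⟨C₂, hC₂0, hC₂⟩ := abs_logHeight_asMap_le.{u, v} W
  refine ⟨3 * C₁ + C₂, by positivity, ?_⟩
  intro K _ _ _ _ P Q
  obtain ⟨c, hc, h⟩ := exists_asMap_sym2x (W⁄K) P Q
  have h1 := hC₁ K P Q
  have h2 := hC₁ K (P + Q) (P - Q)
  have h3 := hC₂ K (P.sym2x Q)
  rw [h, logHeight_smul_eq_logHeight _ hc] at h3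
  rw [abs_le] at h1 h2 h3 ⊢
  constructor <;> linarith

end para

end Pool.Agent.H7.Vojta
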