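import Mathlib
import Pool.Agent.H7.VojtaAbstract
import Pool.Agent.H7.VojtaPara
import Pool.Agent.H7.VojtaLocal

/-!
# Summing the local estimates
-/

set_option autoImplicit false

open Height NumberField WeierstrassCurve WeierstrassCurve.Affine

namespace Pool.Agent.H7.Vojta

universe u v

section

variable {K : Type v} [Field K] [NumberField K] {W' : Affine K}

/-- The sum over all places of minus the logarithm of the nearness to the origin. -/
noncomputable def nearSum {n : ℕ} (P : Fin n → W'.Point) : ℝ :=
  ∑ w : InfinitePlace K, w.mult * (-Real.log (⨆ i, nearness w (P i))) +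
    ∑ᶠ w : FinitePlace K, -Real.log (⨆ i, nearness w (P i))

omit [NumberField K] in
lemma neg_log_nearness_some {x y : K} (h : W'.Nonsingular x y) (v : K → ℝ) :
    -Real.log (nearness v (Point.some x y h)) = Real.log (max (v x) 1) := by
  rw [nearness, Real.log_inv, neg_neg]

lemma finite_support_nearness {R : W'.Point} (hR : R ≠ 0) :
    (fun w : FinitePlace K => -Real.log (nearness w R)).HasFiniteSupport := by
  match R with
  | 0 => exact absurd rfl hR
  | .some x y h =>
    simp only [neg_log_nearness_some]
    by_cases hx : x = 0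
    · subst hx
      simp only [map_zero, zero_le_one, sup_of_le_right, Real.log_one]
      exact Function.hasFiniteSupport_fun_zero
    · have h1 : (fun w : FinitePlace K => max (w x) 1).HasFiniteMulSupport :=
        (FinitePlace.hasFiniteMulSupport hx).max Function.hasFiniteMulSupport_fun_one
      refine Set.Finite.subset h1 ?_
      intro w hw hw'
      apply hw
      have : max (w x) 1 = 1 := hw'
      simp only [this, Real.log_one]

lemma sum_nearness {R : W'.Point} (hR : R ≠ 0) :
    ∑ w : InfinitePlace K, w.mult * (-Real.log (nearness w R)) +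
      ∑ᶠ w : FinitePlace K, -Real.log (nearness w R) = naive R := by
  match R with
  | 0 => exact absurd rfl hR
  | .some x y h =>
    simp only [neg_log_nearness_some]
    rw [naive, Point.xRep_some, ← logHeight₁_eq_logHeight, NumberField.logHeight₁_eq]
    simp only [Real.posLog_eq_log_max_one (apply_nonneg _ _), max_comm (1 : ℝ)]

lemma finsum_neg_log_natCast {m : ℕ} (hm : m ≠ 0) :
    ∑ᶠ w : FinitePlace K, -Real.log (w (m : K)) = Real.log m * totalWeight K := by
  have h := finprod_finitePlace_inv_natCast (K := K) hm
  have hm' : (m : K) ≠ 0 := by exact_mod_cast hm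
  have h2 := congrArg Real.log h
  rw [Real.log_finprod (fun w => inv_pos.mpr (FinitePlace.pos_iff.mpr hm')), Real.log_pow] at h2
  simp only [Real.log_inv] at h2
  rw [h2, mul_comm]

lemma finite_support_neg_log_natCast {m : ℕ} (hm : m ≠ 0) :
    (fun w : FinitePlace K => -Real.log (w (m : K))).HasFiniteSupport := by
  have hm' : (m : K) ≠ 0 := by exact_mod_cast hm
  refine Set.Finite.subset (FinitePlace.hasFiniteMulSupport hm') ?_
  intro w hw hw'
  apply hw
  have : w (m : K) = 1 := hw'
  simp only [this, Real.log_one, neg_zero]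

end

section

variable {k : Type u} [Field k] [NumberField k] (W : Affine k) [W.IsElliptic]

/-- The main estimate: the exceptional height is bounded by the height of any nonzero
combination with bounded coefficients. -/
theorem exists_nearSum_le :
    ∃ D : ℝ, 0 ≤ D ∧ ∀ (K : Type v) [Field K] [NumberField K] [DecidableEq K] [Algebra k K]
      (n M : ℕ) (P : Fin n → (W⁄K).Point) (u : Fin n → ℤ), (∀ i, |u i| ≤ M) →
      ∑ i, u i • P i ≠ 0 →
      nearSum P ≤ naive (∑ i, u i • P i) + (n + M : ℕ) * D * totalWeight K := by
  classical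
  obtain ⟨m, B, hm, hB, hmB⟩ := exists_local_bounds.{u, v} ({W.b₂, W.b₄, W.b₆, W.b₈} : Finset k)
  have hm1 : (1 : ℝ) ≤ m := by exact_mod_cast Nat.one_le_iff_ne_zero.mpr hm
  have h12B : (1 : ℝ) ≤ 12 * B := by linarith
  refine ⟨Real.log (12 * B) + Real.log m, add_nonneg (Real.log_nonneg h12B) (Real.log_nonneg hm1),
    ?_⟩
  intro K _ _ _ _ n M P u hu hR
  obtain ⟨hinf, hfin⟩ := hmB K
  have e₂ : (W⁄K).b₂ = algebraMap k K W.b₂ := W.map_b₂ (algebraMap k K)
  have e₄ : (W⁄K).b₄ = algebraMap k K W.b₄ := W.map_b₄ (algebraMap k K)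
  have e₆ : (W⁄K).b₆ = algebraMap k K W.b₆ := W.map_b₆ (algebraMap k K)
  have e₈ : (W⁄K).b₈ = algebraMap k K W.b₈ := W.map_b₈ (algebraMap k K)
  have hm' : (m : K) ≠ 0 := by exact_mod_cast hm
  set R := ∑ i, u i • P i with hRdef
  set L := n + M with hL
  -- general deduction
  have general : ∀ (w : K → ℝ) (c : ℝ), 1 ≤ c →
      (∀ P Q : (W⁄K).Point, nearness w (P + Q) ≤ c * max (nearness w P) (nearness w Q)) →
      0 ≤ -Real.log (⨆ i, nearness w (P i)) ∧
      -Real.log (⨆ i, nearness w (P i)) ≤ -Real.log (nearness w R) + L * Real.log c := by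
    intro w c hc h
    have h1 := nearness_combo_le hc h P u hu
    have hpos : 0 < nearness w R := nearness_pos w hR
    have hc0 : 0 < c := by linarith
    have hsup : 0 < ⨆ i, nearness w (P i) := by
      by_contra hcon
      have : c ^ (n + M) * ⨆ i, nearness w (P i) ≤ 0 :=
        mul_nonpos_of_nonneg_of_nonpos (pow_nonneg hc0.le _) (not_lt.mp hcon)
      linarith
    constructor
    · rw [neg_nonneg]
      apply Real.log_nonpos hsup.le
      exact Real.iSup_le (fun i => nearness_le_one w (P i)) zero_le_one
    · have h2 := Real.log_le_log hpos h1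
      rw [Real.log_mul (pow_pos hc0 _).ne' hsup.ne', Real.log_pow] at h2
      rw [hL]
      linarith
  have hI : ∀ w : InfinitePlace K, -Real.log (⨆ i, nearness w (P i)) ≤
      -Real.log (nearness w R) + L * Real.log (12 * B) := fun w =>
    (general w (12 * B) h12B (nearness_add_le_arch (W⁄K) w.val hB
      (by rw [e₂]; exact hinf w _ (by simp)) (by rw [e₄]; exact hinf w _ (by simp))
      (by rw [e₆]; exact hinf w _ (by simp)) (by rw [e₈]; exact hinf w _ (by simp)))).2
  have hF : ∀ w : FinitePlace K, 0 ≤ -Real.log (⨆ i, nearness w (P i)) ∧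
      -Real.log (⨆ i, nearness w (P i)) ≤
      -Real.log (nearness w R) + L * -Real.log (w (m : K)) := by
    intro w
    have hw0 : 0 < w (m : K) := FinitePlace.pos_iff.mpr hm'
    have hw1 : 1 ≤ (w (m : K))⁻¹ := (one_le_inv₀ hw0).mpr (finitePlace_natCast_le_one w m)
    have hle : ∀ c ∈ ({W.b₂, W.b₄, W.b₆, W.b₈} : Finset k),
        w.val (algebraMap k K c) ≤ (w (m : K))⁻¹ := fun c hc => by
      have := hfin w c hc
      rw [← one_div, le_div_iff₀ hw0, mul_comm]
      exact this
    have h := general w ((w (m : K))⁻¹) hw1 (nearness_add_le_nonarch (W⁄K) w.val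
      (fun x y => FinitePlace.add_le w x y) hw1
      (by rw [e₂]; exact hle _ (by simp)) (by rw [e₄]; exact hle _ (by simp))
      (by rw [e₆]; exact hle _ (by simp)) (by rw [e₈]; exact hle _ (by simp)))
    rw [Real.log_inv] at h
    exact h
  -- sum over the infinite places
  have hsumI : ∑ w : InfinitePlace K, w.mult * (-Real.log (⨆ i, nearness w (P i))) ≤
      ∑ w : InfinitePlace K, w.mult * (-Real.log (nearness w R)) +
        L * Real.log (12 * B) * totalWeight K := by
    have h1 : ∑ w : InfinitePlace K, w.mult * (-Real.log (⨆ i, nearness w (P i))) ≤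
        ∑ w : InfinitePlace K, (w.mult * (-Real.log (nearness w R)) +
          L * Real.log (12 * B) * w.mult) := by
      apply Finset.sum_le_sum
      intro w _
      have := mul_le_mul_of_nonneg_left (hI w) (Nat.cast_nonneg w.mult : (0 : ℝ) ≤ w.mult)
      linarith
    rw [Finset.sum_add_distrib, ← Finset.mul_sum] at h1
    rw [totalWeight_eq_sum_mult]
    push_cast
    exact h1
  -- sum over the finite places
  have hsumF : ∑ᶠ w : FinitePlace K, -Real.log (⨆ i, nearness w (P i)) ≤
      ∑ᶠ w : FinitePlace K, -Real.log (nearness w R) + L * (Real.log m * totalWeight K) := by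
    have hs1 := finite_support_nearness hR
    have hs2 : (fun w : FinitePlace K => (L : ℝ) * -Real.log (w (m : K))).HasFiniteSupport := by
      refine Set.Finite.subset (finite_support_neg_log_natCast (K := K) hm) ?_
      intro w hw hw'
      apply hw
      have : -Real.log (w (m : K)) = 0 := hw'
      simp only [this, mul_zero]
    have hs3 : (fun w : FinitePlace K => -Real.log (nearness w R) +
        L * -Real.log (w (m : K))).HasFiniteSupport := hs1.add hs2
    rw [← finsum_neg_log_natCast hm, mul_finsum,
      ← finsum_add_distrib hs1 hs2]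
    refine finsum_le_finsum' ?_ hs3 (fun w => (hF w).2)
    refine Set.Finite.subset hs3 ?_
    intro w hw hw'
    apply hw
    have h1 : -Real.log (nearness w R) + L * -Real.log (w (m : K)) = 0 := hw'
    exact le_antisymm (h1 ▸ (hF w).2) (hF w).1
  have htot := sum_nearness hR
  unfold nearSum
  calc _ ≤ (∑ w : InfinitePlace K, w.mult * (-Real.log (nearness w R)) +
        L * Real.log (12 * B) * totalWeight K) + (∑ᶠ w : FinitePlace K,
        -Real.log (nearness w R) + L * (Real.log m * totalWeight K)) := add_le_add hsumI hsumF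
    _ = naive R + L * (Real.log (12 * B) + Real.log m) * totalWeight K := by
        rw [← htot]; ring

omit [W.IsElliptic] in
/-- The naive height of a fixed point, in all extensions. -/
lemma exists_naive_baseChange_le [DecidableEq k] (s : (W⁄k).Point) :
    ∃ D : ℝ, 0 ≤ D ∧ ∀ (K : Type v) [Field K] [NumberField K] [DecidableEq K] [Algebra k K],
      naive (Point.baseChange k K s) ≤ D * totalWeight K := by
  match s with
  | 0 =>
    refine ⟨0, le_rfl, ?_⟩
    intro K _ _ _ _
    rw [map_zero, naive, Point.xRep_zero, zero_mul]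
    have : logHeight ![(1 : K), 0] = 0 := by
      rw [logHeight_swap, ← logHeight₁_eq_logHeight, logHeight₁_zero]
    exact this.le
  | .some x y h =>
    obtain ⟨D, hD0, hD⟩ := logHeight_eval_map_le.{u, v} (ι := Fin 1) (N := 0)
      (![MvPolynomial.C x, MvPolynomial.C 1] : Fin 2 → MvPolynomial (Fin 1) k) (by
        intro i
        fin_cases i
        · exact MvPolynomial.isHomogeneous_C _ _
        · exact MvPolynomial.isHomogeneous_C _ _)
    refine ⟨D, hD0, ?_⟩
    intro K _ _ _ _
    have h1 := hD K (fun _ => 0)
    rw [Nat.cast_zero, zero_mul, add_zero] at h1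
    have h2 : (fun j => MvPolynomial.eval (fun _ : Fin 1 => (0 : K)) (MvPolynomial.map
        (algebraMap k K) ((![MvPolynomial.C x, MvPolynomial.C 1] :
          Fin 2 → MvPolynomial (Fin 1) k) j))) = ![algebraMap k K x, 1] := by
      funext j
      fin_cases j <;> simp
    rw [h2] at h1
    exact h1

end

end Pool.Agent.H7.Vojta
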