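import Mathlib
import Pool.Agent.H7.VojtaMain

/-!
# The final assembly
-/

set_option autoImplicit false

open Height NumberField WeierstrassCurve WeierstrassCurve.Affine

namespace Pool.Agent.H7.Vojta

universe u v

section abstract

variable {G : Type*} [AddCommGroup G]

lemma sq_sum_sqrt_le {n : ℕ} (f : Fin n → ℝ) (hf : ∀ i, 0 ≤ f i) :
    (∑ i, √(f i)) ^ 2 ≤ n * ∑ i, f i := by
  have := sq_sum_le_card_mul_sum_sq (s := (Finset.univ : Finset (Fin n))) (f := fun i => √(f i))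
  simp only [Finset.card_univ, Fintype.card_fin] at this
  refine this.trans (le_of_eq ?_)
  congr 1
  exact Finset.sum_congr rfl fun i _ => Real.sq_sqrt (hf _)

/-- A combination with coefficients at most `F`. -/
lemma Para.sum_le {q : G → ℝ} (h : Para q) (h0 : ∀ x, 0 ≤ q x) {n : ℕ} (z : Fin n → ℤ)
    (P : Fin n → G) {F : ℝ} (hF : ∀ i, |(z i : ℝ)| ≤ F) :
    q (∑ i, z i • P i) ≤ F ^ 2 * n * ∑ i, q (P i) := by
  have e1 : √(q (∑ i, z i • P i)) ≤ F * ∑ i, √(q (P i)) := by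
    refine (h.sqrt_sum_le h0 Finset.univ z P).trans ?_
    rw [Finset.mul_sum]
    exact Finset.sum_le_sum fun i _ => mul_le_mul_of_nonneg_right (hF i) (Real.sqrt_nonneg _)
  calc q (∑ i, z i • P i) = √(q (∑ i, z i • P i)) ^ 2 := (Real.sq_sqrt (h0 _)).symm
    _ ≤ (F * ∑ i, √(q (P i))) ^ 2 := pow_le_pow_left₀ (Real.sqrt_nonneg _) e1 2
    _ = F ^ 2 * (∑ i, √(q (P i))) ^ 2 := by ring
    _ ≤ F ^ 2 * (n * ∑ i, q (P i)) := by
        gcongr
        exact sq_sum_sqrt_le _ fun i => h0 _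
    _ = _ := by ring

lemma Para.sub_le {q : G → ℝ} (h : Para q) (h0 : ∀ x, 0 ≤ q x) (x y : G) :
    q (x - y) ≤ 2 * q x + 2 * q y := by
  have := h x y
  have := h0 (x + y)
  linarith

end abstract

variable {k : Type u} [Field k] [NumberField k] [DecidableEq k] (W : Affine k) [W.IsElliptic]

/-- One centre: for every `η > 0`, the sum of the local nearness terms is at most `η` times the
sum of the naive heights, up to a constant times the degree. -/
theorem one_centre {r n : ℕ} (φ : Fin r → Fin n → ℤ) (s : Fin r → (W⁄k).Point) {η : ℝ}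
    (hη : 0 < η) :
    ∃ (M : ℕ) (δ D : ℝ), 0 < δ ∧ 0 ≤ D ∧ ∀ (K : Type v) [Field K] [NumberField K]
      [DecidableEq K] [Algebra k K] (P : Fin n → (W⁄K).Point),
      (∃ w : Fin r → ℤ, w ≠ 0 ∧
        naive (∑ i, w i • (∑ j, φ i j • P j - Point.baseChange k K (s i))) ≤
          δ * (∑ i, (w i : ℝ) ^ 2) * ∑ j, naive (P j)) →
      (∀ u : Fin r → ℤ, u ≠ 0 → (∀ i, |u i| ≤ M) →
        ∑ i, u i • (∑ j, φ i j • P j - Point.baseChange k K (s i)) ≠ 0) →
      nearSum (fun i => ∑ j, φ i j • P j - Point.baseChange k K (s i)) ≤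
        η * ∑ j, naive (P j) + D * totalWeight K := by
  classical
  obtain ⟨C₀, hC₀0, hC₀⟩ := exists_parallelogram.{u, v} W
  obtain ⟨D₁, hD₁0, hD₁⟩ := exists_nearSum_le.{u, v} W
  have hs := fun i => exists_naive_baseChange_le.{u, v} W (s i)
  choose A hA0 hA using hs
  -- a bound for the coefficients
  set F : ℝ := ∑ i, ∑ j, |(φ i j : ℝ)| with hF
  have hF0 : 0 ≤ F := Finset.sum_nonneg fun i _ => Finset.sum_nonneg fun j _ => abs_nonneg _
  have hFle : ∀ i j, |(φ i j : ℝ)| ≤ F := fun i j =>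
    (Finset.single_le_sum (f := fun j => |(φ i j : ℝ)|) (fun _ _ => abs_nonneg _)
      (Finset.mem_univ j)).trans (Finset.single_le_sum (f := fun i => ∑ j, |(φ i j : ℝ)|)
      (fun _ _ => Finset.sum_nonneg fun _ _ => abs_nonneg _) (Finset.mem_univ i))
  set E : ℝ := 4 * (r * (r * (2 * (F ^ 2 * n)))) with hE
  have hE0 : 0 ≤ E := by positivity
  obtain ⟨T₀, hT₀⟩ := exists_nat_ge (E / η)
  set T := max 2 T₀ with hT
  have hT2 : 2 ≤ T := le_max_left _ _
  have hTr : E / η ≤ (T : ℝ) := hT₀.trans (by exact_mod_cast le_max_right _ _)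
  have hT1 : (1 : ℝ) ≤ T := by exact_mod_cast (by omega : 1 ≤ T)
  have hT0 : (0 : ℝ) < T := by linarith
  have hET : E / T ^ 2 ≤ η := by
    rw [div_le_iff₀ (by positivity)]
    rw [div_le_iff₀ hη] at hTr
    calc E ≤ T * η := hTr
      _ ≤ η * T ^ 2 := by nlinarith [mul_pos hη hT0]
  set B : ℝ := ∑ i, (2 * (F ^ 2 * n * (n * C₀)) + 2 * (A i + C₀)) with hB
  have hB0 : 0 ≤ B := Finset.sum_nonneg fun i _ => by
    have := hA0 i
    positivity
  -- the coefficient of near dependence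
  set G : ℝ := (T : ℝ) ^ r with hG
  have hG0 : 0 < G := by positivity
  set δ : ℝ := η / (4 * G ^ 2 * (r + 1)) with hδ
  have hδ0 : 0 < δ := by positivity
  have hδη : 2 * G ^ 2 * (r * δ) ≤ η / 2 := by
    have e : 2 * G ^ 2 * (r * δ) = η / 2 * (r / (r + 1)) := by
      rw [hδ]; field_simp; ring
    have e2 : (r : ℝ) / (r + 1) ≤ 1 := by
      rw [div_le_one (by positivity)]; linarith
    rw [e]
    exact mul_le_of_le_one_right (by linarith) e2
  refine ⟨T ^ r + 1, δ, 2 * G ^ 2 * C₀ + 2 * (r / T ^ 2 * B) + C₀ + (r + (T ^ r + 1) : ℕ) * D₁,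
    hδ0, by positivity, ?_⟩
  intro K _ _ _ _ P hdep hZ
  set tw : ℝ := (totalWeight K : ℝ) with htw
  have htw0 : 0 ≤ tw := Nat.cast_nonneg _
  set Q : Fin r → (W⁄K).Point := fun i => ∑ j, φ i j • P j - Point.baseChange k K (s i) with hQ
  obtain ⟨q, hq, hq0, hqn⟩ := exists_canonical (G := (W⁄K).Point) (h := naive) (c := C₀ * tw)
    (fun x y => hC₀ K x y) (fun x => naive_nonneg x)
  have hqle : ∀ x, q x ≤ naive x + C₀ * tw := fun x => by
    have := hqn x
    rw [abs_le] at this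
    linarith
  have hN : 0 ≤ ∑ j, naive (P j) := Finset.sum_nonneg fun j _ => naive_nonneg _
  obtain ⟨w, hw2, hw1⟩ := hdep
  have hw3 : q (∑ i, w i • Q i) ≤ (δ * ∑ j, naive (P j)) * ∑ i, (w i : ℝ) ^ 2 + C₀ * tw := by
    have e1 := hqle (∑ i, w i • Q i)
    have e2 : naive (∑ i, w i • Q i) ≤ δ * (∑ i, (w i : ℝ) ^ 2) * ∑ j, naive (P j) := hw1
    linarith
  obtain ⟨a, ha0, haM, hqa⟩ := exists_small_combination hq hq0 hT2 Q w hw2
    (mul_nonneg hδ0.le hN) (mul_nonneg hC₀0 htw0) hw3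
  have hR := hZ a ha0 haM
  have h1 := hD₁ K r (T ^ r + 1) Q a haM hR
  set R := ∑ i, a i • Q i with hRdef
  -- bound for the canonical height of the combination
  have h2 : q R ≤ 2 * G ^ 2 * (r * (δ * ∑ j, naive (P j)) + C₀ * tw) +
      2 * (r / T ^ 2 * ∑ i, q (Q i)) := by
    have e0 : 0 ≤ r * (δ * ∑ j, naive (P j)) + C₀ * tw := by positivity
    have e1 : q R = √(q R) ^ 2 := (Real.sq_sqrt (hq0 R)).symm
    have e2 : √(q R) ^ 2 ≤ (G * √(r * (δ * ∑ j, naive (P j)) + C₀ * tw) +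
        1 / T * ∑ i, √(q (Q i))) ^ 2 :=
      pow_le_pow_left₀ (Real.sqrt_nonneg _) hqa 2
    have e3 : ∀ x y : ℝ, (x + y) ^ 2 ≤ 2 * x ^ 2 + 2 * y ^ 2 := fun x y => by
      nlinarith [sq_nonneg (x - y)]
    rw [e1]
    refine (e2.trans (e3 _ _)).trans ?_
    rw [mul_pow, Real.sq_sqrt e0, mul_pow, div_pow, one_pow]
    have e4 : 1 / (T : ℝ) ^ 2 * (∑ i, √(q (Q i))) ^ 2 ≤ r / T ^ 2 * ∑ i, q (Q i) := by
      calc 1 / (T : ℝ) ^ 2 * (∑ i, √(q (Q i))) ^ 2 ≤ 1 / (T : ℝ) ^ 2 * (r * ∑ i, q (Q i)) := by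
            gcongr
            exact sq_sum_sqrt_le _ fun i => hq0 _
        _ = r / T ^ 2 * ∑ i, q (Q i) := by ring
    linarith
  have hsumq : ∑ j, q (P j) ≤ ∑ j, naive (P j) + n * C₀ * tw := by
    calc ∑ j, q (P j) ≤ ∑ j : Fin n, (naive (P j) + C₀ * tw) := Finset.sum_le_sum fun j _ => hqle _
      _ = ∑ j, naive (P j) + n * C₀ * tw := by
          rw [Finset.sum_add_distrib, Finset.sum_const, Finset.card_univ, Fintype.card_fin,
            nsmul_eq_mul]
          ring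
  have h3 : ∀ i, q (Q i) ≤ 2 * (F ^ 2 * n) * ∑ j, naive (P j) +
      (2 * (F ^ 2 * n * (n * C₀)) + 2 * (A i + C₀)) * tw := by
    intro i
    have e1 : q (Q i) ≤ 2 * q (∑ j, φ i j • P j) + 2 * q (Point.baseChange k K (s i)) :=
      hq.sub_le hq0 _ _
    have e2 : q (∑ j, φ i j • P j) ≤ F ^ 2 * n * ∑ j, q (P j) := hq.sum_le hq0 _ _ (hFle i)
    have e3 := hqle (Point.baseChange k K (s i))
    have e4 := hA i K
    have e5 : F ^ 2 * n * ∑ j, q (P j) ≤ F ^ 2 * n * (∑ j, naive (P j) + n * C₀ * tw) :=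
      mul_le_mul_of_nonneg_left hsumq (by positivity)
    rw [← htw] at e4
    calc q (Q i) ≤ 2 * (F ^ 2 * n * (∑ j, naive (P j) + n * C₀ * tw)) +
          2 * (A i * tw + C₀ * tw) := by linarith
      _ = _ := by ring
  have h4 : ∑ i, q (Q i) ≤ r * (2 * (F ^ 2 * n)) * ∑ j, naive (P j) + B * tw := by
    calc ∑ i, q (Q i) ≤ ∑ i : Fin r, (2 * (F ^ 2 * n) * ∑ j, naive (P j) +
          (2 * (F ^ 2 * n * (n * C₀)) + 2 * (A i + C₀)) * tw) := Finset.sum_le_sum fun i _ => h3 i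
      _ = _ := by
          rw [Finset.sum_add_distrib, Finset.sum_const, Finset.card_univ, Fintype.card_fin,
            nsmul_eq_mul, ← Finset.sum_mul]
          ring
  have h5 : naive R ≤ q R + C₀ * tw := by
    have := hqn R
    rw [abs_le] at this
    linarith
  have hθ0 : (0 : ℝ) ≤ r / T ^ 2 := by positivity
  have h6 := mul_le_mul_of_nonneg_left h4 hθ0
  have h7 : 2 * (r / T ^ 2 * (r * (2 * (F ^ 2 * n)) * ∑ j, naive (P j))) ≤
      η / 2 * ∑ j, naive (P j) := by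
    have e : 2 * (r / (T : ℝ) ^ 2 * (r * (2 * (F ^ 2 * n)) * ∑ j, naive (P j))) =
        (E / T ^ 2) / 2 * ∑ j, naive (P j) := by rw [hE]; ring
    rw [e]
    exact mul_le_mul_of_nonneg_right (by linarith) hN
  have h8 : 2 * G ^ 2 * (r * (δ * ∑ j, naive (P j))) ≤ η / 2 * ∑ j, naive (P j) := by
    have e : 2 * G ^ 2 * (r * (δ * ∑ j, naive (P j))) =
        2 * G ^ 2 * (r * δ) * ∑ j, naive (P j) := by ring
    rw [e]
    exact mul_le_mul_of_nonneg_right hδη hN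
  rw [← htw] at h1
  calc nearSum Q ≤ naive R + (r + (T ^ r + 1) : ℕ) * D₁ * tw := h1
    _ ≤ η * ∑ j, naive (P j) + 2 * G ^ 2 * (C₀ * tw) + 2 * (r / T ^ 2 * (B * tw)) + C₀ * tw +
        (r + (T ^ r + 1) : ℕ) * D₁ * tw := by
        rw [mul_add] at h6
        rw [mul_add (2 * G ^ 2)] at h2
        linarith
    _ = _ := by ring

end Pool.Agent.H7.Vojta
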