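import Mathlib
import Pool.Agent.H7.VojtaAbstract
import Pool.Agent.H7.VojtaPara

/-!
# Positive definiteness of the canonical height on a free subgroup
-/

set_option autoImplicit false

open Height NumberField WeierstrassCurve WeierstrassCurve.Affine

namespace Pool.Agent.H7.Vojta

lemma finite_naive_le {K : Type*} [Field K] [NumberField K] (W : Affine K) (B : ℝ) :
    {P : W.Point | naive P ≤ B}.Finite := by
  apply Set.Finite.of_finite_fibers (f := fun P : W.Point => P.xRep)
  · have hfin := finite_setOfPred_logHeight₁_le K B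
    refine Set.Finite.subset ((hfin.image fun x => ![x, 1]).insert ![1, 0]) ?_
    rintro _ ⟨P, hP, rfl⟩
    match P with
    | 0 => exact Set.mem_insert _ _
    | .some x y h =>
      refine Set.mem_insert_of_mem _ ⟨x, ?_, rfl⟩
      have h1 : logHeight ![x, 1] ≤ B := hP
      rw [← logHeight₁_eq_logHeight] at h1
      exact h1
  · rintro _ ⟨P, hP, rfl⟩
    refine Set.Finite.subset (Set.toFinite {P, -P}) ?_
    rintro Q ⟨-, hQ⟩
    have hQ' : Q.xRep = P.xRep := hQ
    rcases Point.xRep_eq_xRep_iff.mp hQ' with h | h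
    · exact Or.inl h
    · exact Or.inr h

section

variable {G : Type*} [AddCommGroup G]

theorem exists_lower_bound {q : G → ℝ} (h : Para q) (h0 : ∀ x, 0 ≤ q x)
    (hfin : ∀ B, {x | q x ≤ B}.Finite) {r : ℕ} (R : Fin r → G) (hR : LinearIndependent ℤ R) :
    ∃ c : ℝ, 0 < c ∧ ∀ a : Fin r → ℤ, c * ∑ i, (a i : ℝ) ^ 2 ≤ q (∑ i, a i • R i) := by
  classical
  by_contra hcon
  push Not at hcon
  -- a gap in the values of `q`
  obtain ⟨μ, hμ0, hμ⟩ : ∃ μ : ℝ, 0 < μ ∧ ∀ x, q x < μ → q x = 0 := by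
    obtain ⟨V, hV⟩ : ∃ V : Finset ℝ, V = ((hfin 1).toFinset.filter fun x => 0 < q x).image q :=
      ⟨_, rfl⟩
    by_cases hne : V.Nonempty
    · refine ⟨min 1 (V.min' hne), lt_min one_pos ?_, ?_⟩
      · have hm : ∀ y ∈ V, 0 < y := by
          intro y hy
          rw [hV] at hy
          obtain ⟨x, hx, hx'⟩ := Finset.mem_image.mp hy
          rw [← hx']
          exact (Finset.mem_filter.mp hx).2
        exact hm _ (V.min'_mem hne)
      · intro x hx
        by_contra hx0
        have hpos : 0 < q x := lt_of_le_of_ne (h0 x) (Ne.symm hx0)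
        have h1 : q x ≤ 1 := (hx.trans_le (min_le_left _ _)).le
        have hmem : q x ∈ V := by
          rw [hV]
          refine Finset.mem_image_of_mem q (Finset.mem_filter.mpr ⟨?_, hpos⟩)
          rw [Set.Finite.mem_toFinset]
          exact h1
        have := V.min'_le _ hmem
        have := hx.trans_le (min_le_right _ _)
        linarith
    · refine ⟨1, one_pos, ?_⟩
      intro x hx
      by_contra hx0
      have hpos : 0 < q x := lt_of_le_of_ne (h0 x) (Ne.symm hx0)
      apply hne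
      refine ⟨q x, ?_⟩
      rw [hV]
      refine Finset.mem_image_of_mem q (Finset.mem_filter.mpr ⟨?_, hpos⟩)
      rw [Set.Finite.mem_toFinset]
      exact hx.le
  set Sg : ℝ := ∑ i, √(q (R i)) with hSg
  have hSg0 : 0 ≤ Sg := Finset.sum_nonneg fun i _ => Real.sqrt_nonneg _
  have hsμ : 0 < √μ := Real.sqrt_pos.mpr hμ0
  obtain ⟨T₀, hT₀⟩ := exists_nat_gt ((1 + Sg) / √μ)
  set T := max 2 T₀ with hT
  have hT2 : 2 ≤ T := le_max_left _ _
  have hTgt : (1 + Sg) / √μ < T := hT₀.trans_le (by exact_mod_cast le_max_right _ _)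
  have hTpos : (0 : ℝ) < T := by exact_mod_cast (by omega : 0 < T)
  set c : ℝ := 1 / ((T : ℝ) ^ (2 * r + 2) * (r + 1)) with hc
  have hc0 : 0 < c := by positivity
  obtain ⟨a, ha⟩ := hcon c hc0
  have ha0 : a ≠ 0 := by
    rintro rfl
    simp [h.zero] at ha
  obtain ⟨u, hu0, -, hu⟩ := exists_small_combination h h0 hT2 R a ha0 hc0.le (le_refl (0 : ℝ))
    (by rw [add_zero]; exact ha.le)
  have h1 : (T : ℝ) ^ r * √(r * c + 0) ≤ 1 / T := by
    have e1 : r * c + 0 ≤ (1 / (T : ℝ) ^ (r + 1)) ^ 2 := by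
      rw [add_zero, hc, mul_one_div, div_pow, one_pow, ← pow_mul, div_le_div_iff₀ (by positivity)
        (by positivity), one_mul]
      have : (T : ℝ) ^ ((r + 1) * 2) = (T : ℝ) ^ (2 * r + 2) := by congr 1; ring
      rw [this]
      have : (0 : ℝ) ≤ (T : ℝ) ^ (2 * r + 2) := by positivity
      nlinarith
    calc (T : ℝ) ^ r * √(r * c + 0) ≤ (T : ℝ) ^ r * √((1 / (T : ℝ) ^ (r + 1)) ^ 2) := by
          gcongr
      _ = (T : ℝ) ^ r * (1 / (T : ℝ) ^ (r + 1)) := by rw [Real.sqrt_sq (by positivity)]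
      _ = 1 / T := by rw [pow_succ]; field_simp
  have h2 : √(q (∑ i, u i • R i)) < √μ := by
    have e : (1 + Sg) / T < √μ := by
      rw [div_lt_iff₀ hTpos]
      rw [div_lt_iff₀ hsμ] at hTgt
      linarith
    calc _ ≤ (T : ℝ) ^ r * √(r * c + 0) + 1 / T * Sg := hu
      _ ≤ 1 / T + 1 / T * Sg := by linarith
      _ = (1 + Sg) / T := by ring
      _ < _ := e
  have h3 : q (∑ i, u i • R i) = 0 := hμ _ ((Real.sqrt_lt_sqrt_iff (h0 _)).mp h2)
  -- all multiples have height zero, so the point is torsion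
  set x := ∑ i, u i • R i with hx
  have hmul : ∀ m : ℤ, m • x ∈ {y | q y ≤ 0} := fun m => by
    rw [Set.mem_ofPred_eq, h.zsmul, h3, mul_zero]
  have hninj : ¬ Function.Injective (fun m : ℤ => m • x) := by
    intro hinj
    have hsub : (Set.range fun m : ℤ => m • x) ⊆ {y | q y ≤ 0} := by
      rintro _ ⟨m, rfl⟩
      exact hmul m
    exact Set.infinite_range_of_injective hinj (Set.Finite.subset (hfin 0) hsub)
  rw [Function.Injective] at hninj
  push Not at hninj
  obtain ⟨m, m', hmm, hne⟩ := hninj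
  have hmx : (m - m') • x = 0 := by rw [sub_smul, sub_eq_zero]; exact hmm
  rw [hx, Finset.smul_sum] at hmx
  simp only [smul_smul] at hmx
  have hli := Fintype.linearIndependent_iff.mp hR _ hmx
  apply hu0
  funext i
  have := hli i
  rcases mul_eq_zero.mp this with h | h
  · exact absurd (sub_eq_zero.mp h) hne
  · exact h

end

end Pool.Agent.H7.Vojta
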