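import Mathlib
import Pool.Agent.H7.VojtaAbstract
import Pool.Agent.H7.VojtaFinal
import Pool.Agent.H7.VojtaPosDef
import Pool.Agent.H7.VojtaCount

/-!
# The large deviation estimate in boxes
-/

set_option autoImplicit false

open Finset

namespace Pool.Agent.H7.Vojta

/-- A height on an abelian group together with a decomposition into local terms. -/
structure HtSys (G : Type*) [AddCommGroup G] (ι : Type*) where
  w : ι → ℝ
  w_nonneg : ∀ v, 0 ≤ w v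
  c : ι → ℝ
  one_le_c : ∀ v, 1 ≤ c v
  c_fin : {v | c v ≠ 1}.Finite
  ν : ι → G → ℝ
  ν_nonneg : ∀ v x, 0 ≤ ν v x
  ν_le_one : ∀ v x, ν v x ≤ 1
  ν_neg : ∀ v x, ν v (-x) = ν v x
  ν_zero : ∀ v, ν v 0 = 0
  ν_pos : ∀ v x, x ≠ 0 → 0 < ν v x
  ν_add : ∀ v x y, ν v (x + y) ≤ c v * max (ν v x) (ν v y)
  ν_fin : ∀ x, x ≠ 0 → {v | ν v x ≠ 1}.Finite
  h : G → ℝ
  h_nonneg : ∀ x, 0 ≤ h x
  h_eq : ∀ x, x ≠ 0 → ∀ V : Finset ι, (∀ v, ν v x ≠ 1 → v ∈ V) →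
    ∑ v ∈ V, w v * -Real.log (ν v x) = h x
  C : ℝ
  C_nonneg : 0 ≤ C
  par : ∀ x y, |h (x + y) + h (x - y) - 2 * h x - 2 * h y| ≤ C
  northcott : ∀ B, {x | h x ≤ B}.Finite
  gcd : ∀ {n : ℕ}, (Fin n → G) → ℝ
  gcd_eq : ∀ {n : ℕ} (x : Fin n → G) (j : Fin n), x j ≠ 0 → ∀ V : Finset ι,
    (∀ v, ν v (x j) ≠ 1 → v ∈ V) →
      gcd x = ∑ v ∈ V, w v * -Real.log (⨆ j, ν v (x j))

section numeric

lemma layer_bound {r n M : ℕ} (hM : 1 ≤ M) {c Q : ℝ} (hc0 : 0 < c) (hc1 : c ≤ 1) (hQ : 1 ≤ Q)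
    {x : ℝ} (hx1 : 1 ≤ x) (hx2 : x ≤ 2 * M + 1)
    (hx : x = 2 * M + 1 ∨ c * Q ^ (((r + 2 : ℕ) : ℝ)⁻¹) ≤ x) :
    ((M : ℝ) / x) ^ (r * n) * x ^ (r + 2) ≤
      ((c⁻¹) ^ (r * n) + 3 ^ (r + 2)) *
        ((M : ℝ) ^ (r * n) * (Q * Q ^ (-(r * n / (r + 2) : ℝ))) + (M : ℝ) ^ (r + 2)) := by
  have hMr : (1 : ℝ) ≤ M := by exact_mod_cast hM
  have hx0 : 0 < x := by linarith
  have hx3 : x ≤ 3 * M := by linarith
  have hQ0 : 0 < Q := by linarith
  have hc1' : 1 ≤ c⁻¹ := (one_le_inv₀ hc0).mpr hc1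
  set P1 : ℝ := (M : ℝ) ^ (r * n) * (Q * Q ^ (-(r * n / (r + 2) : ℝ))) with hP1
  set P2 : ℝ := (M : ℝ) ^ (r + 2) with hP2
  have hP10 : 0 ≤ P1 := by positivity
  have hP20 : 0 ≤ P2 := by positivity
  have hcp : 0 ≤ (c⁻¹) ^ (r * n) := by positivity
  have h3p : (0 : ℝ) ≤ 3 ^ (r + 2) := by positivity
  -- the second bound
  have second : ((M : ℝ) / x) ^ (r * n) * x ^ (r + 2) ≤ 3 ^ (r + 2) * P2 →
      ((M : ℝ) / x) ^ (r * n) * x ^ (r + 2) ≤ ((c⁻¹) ^ (r * n) + 3 ^ (r + 2)) * (P1 + P2) := by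
    intro h
    nlinarith [mul_nonneg hcp hP10, mul_nonneg hcp hP20, mul_nonneg h3p hP10]
  rcases hx with hx | hx
  · apply second
    have h1 : (M : ℝ) / x ≤ 1 := by
      rw [div_le_one hx0, hx]; linarith
    calc ((M : ℝ) / x) ^ (r * n) * x ^ (r + 2) ≤ 1 * x ^ (r + 2) := by
          gcongr
          exact pow_le_one₀ (by positivity) h1
      _ ≤ 1 * (3 * M) ^ (r + 2) := by gcongr
      _ = 3 ^ (r + 2) * P2 := by rw [hP2, mul_pow, one_mul]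
  · rcases le_or_gt (r + 2) (r * n) with hrn | hrn
    · -- the first bound
      obtain ⟨e, he⟩ := Nat.exists_eq_add_of_le hrn
      have h1 : ((M : ℝ) / x) ^ (r * n) * x ^ (r + 2) = (M : ℝ) ^ (r * n) * (x ^ e)⁻¹ := by
        rw [div_pow, he, pow_add x, mul_comm (x ^ (r + 2))]
        field_simp
      set z : ℝ := Q ^ (((r + 2 : ℕ) : ℝ)⁻¹) with hz
      have hz0 : 0 < z := Real.rpow_pos_of_pos hQ0 _
      have h2 : (x ^ e)⁻¹ ≤ (c⁻¹) ^ e * (z ^ e)⁻¹ := by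
        rw [inv_pow, ← mul_inv, ← mul_pow]
        exact inv_anti₀ (by positivity) (pow_le_pow_left₀ (by positivity) hx e)
      have h3 : (z ^ e)⁻¹ = Q * Q ^ (-(r * n / (r + 2) : ℝ)) := by
        have hr2 : ((r : ℝ) + 2) ≠ 0 := by positivity
        have hexp : (r * n : ℝ) = (r : ℝ) + 2 + e := by exact_mod_cast he
        rw [hz, ← Real.rpow_natCast (Q ^ _) e, ← Real.rpow_mul hQ0.le, ← Real.rpow_neg hQ0.le]
        nth_rewrite 2 [← Real.rpow_one Q]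
        rw [← Real.rpow_add hQ0]
        congr 1
        push_cast
        rw [hexp]
        field_simp
        ring
      have h4 : (c⁻¹) ^ e ≤ (c⁻¹) ^ (r * n) := pow_le_pow_right₀ hc1' (by omega)
      have h5 : ((M : ℝ) / x) ^ (r * n) * x ^ (r + 2) ≤ (c⁻¹) ^ (r * n) * P1 := by
        rw [h1]
        calc (M : ℝ) ^ (r * n) * (x ^ e)⁻¹ ≤ (M : ℝ) ^ (r * n) * ((c⁻¹) ^ e * (z ^ e)⁻¹) := by
              gcongr
          _ ≤ (M : ℝ) ^ (r * n) * ((c⁻¹) ^ (r * n) * (z ^ e)⁻¹) := by gcongr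
          _ = (c⁻¹) ^ (r * n) * P1 := by rw [h3, hP1]; ring
      nlinarith [mul_nonneg hcp hP20, mul_nonneg h3p hP10, mul_nonneg h3p hP20]
    · apply second
      obtain ⟨e, he⟩ := Nat.exists_eq_add_of_lt hrn
      have h1 : ((M : ℝ) / x) ^ (r * n) * x ^ (r + 2) = (M : ℝ) ^ (r * n) * x ^ (e + 1) := by
        rw [div_pow, he, show r * n + e + 1 = r * n + (e + 1) by ring, pow_add x]
        field_simp
      rw [h1]
      calc (M : ℝ) ^ (r * n) * x ^ (e + 1) ≤ (M : ℝ) ^ (r * n) * (3 * M) ^ (e + 1) := by gcongr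
        _ = 3 ^ (e + 1) * P2 := by
            rw [hP2, he, mul_pow, show r * n + e + 1 = r * n + (e + 1) by ring, pow_add]
            ring
        _ ≤ 3 ^ (r + 2) * P2 := by
            have : (3 : ℝ) ^ (e + 1) ≤ 3 ^ (r + 2) :=
              pow_le_pow_right₀ (by norm_num) (by omega)
            gcongr

lemma natDiv_le {M A : ℕ} (hM : 1 ≤ M) (hA1 : 1 ≤ A) (hA2 : A ≤ 2 * M + 1) :
    (((2 * M / A + 1 : ℕ)) : ℝ) ≤ 4 * (M / A : ℝ) := by
  have hMr : (1 : ℝ) ≤ M := by exact_mod_cast hM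
  have hAr : (1 : ℝ) ≤ A := by exact_mod_cast hA1
  rcases Nat.lt_or_ge (2 * M) A with h | h
  · rw [Nat.div_eq_of_lt h]
    have hA : (A : ℝ) ≤ 2 * M + 1 := by exact_mod_cast hA2
    rw [mul_div_assoc', le_div_iff₀ (by linarith)]
    push_cast
    linarith
  · have h1 : ((2 * M / A : ℕ) : ℝ) ≤ ((2 * M : ℕ) : ℝ) / A := Nat.cast_div_le
    have h2 : (1 : ℝ) ≤ 2 * (M / A : ℝ) := by
      rw [mul_div_assoc', le_div_iff₀ (by linarith), one_mul]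
      exact_mod_cast h
    push_cast at h1 ⊢
    rw [mul_div_assoc] at h1
    linarith

lemma base_bound {r : ℕ} {c Q : ℝ} (hc0 : 0 < c) (hc1 : c ≤ 1) (hQ : 1 ≤ Q) :
    (((⌊c * Q ^ (((r + 2 : ℕ) : ℝ)⁻¹)⌋₊ + 1 : ℕ) : ℝ)) ^ (r + 2) ≤
      2 ^ (r + 2) * (c * Q + 1) := by
  have hQ0 : 0 < Q := by linarith
  have hz0 : 0 < Q ^ (((r + 2 : ℕ) : ℝ)⁻¹) := Real.rpow_pos_of_pos hQ0 _
  have h1 : ((⌊c * Q ^ (((r + 2 : ℕ) : ℝ)⁻¹)⌋₊ + 1 : ℕ) : ℝ) ≤
      c * Q ^ (((r + 2 : ℕ) : ℝ)⁻¹) + 1 := by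
    push_cast
    have := Nat.floor_le (mul_pos hc0 hz0).le
    push_cast at this
    linarith
  have h2 : (c * Q ^ (((r + 2 : ℕ) : ℝ)⁻¹) + 1) ^ (r + 2) ≤
      2 ^ (r + 2 - 1) * ((c * Q ^ (((r + 2 : ℕ) : ℝ)⁻¹)) ^ (r + 2) + 1 ^ (r + 2)) :=
    add_pow_le (mul_pos hc0 hz0).le zero_le_one _
  have h3 : (c * Q ^ (((r + 2 : ℕ) : ℝ)⁻¹)) ^ (r + 2) = c ^ (r + 2) * Q := by
    rw [mul_pow, Real.rpow_inv_natCast_pow hQ0.le (by omega)]
  have h4 : c ^ (r + 2) ≤ c := by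
    calc c ^ (r + 2) ≤ c ^ 1 := pow_le_pow_of_le_one hc0.le hc1 (by omega)
      _ = c := pow_one c
  rw [h3, one_pow] at h2
  have h5 : (2 : ℝ) ^ (r + 2 - 1) ≤ 2 ^ (r + 2) := pow_le_pow_right₀ (by norm_num) (by omega)
  calc _ ≤ (c * Q ^ (((r + 2 : ℕ) : ℝ)⁻¹) + 1) ^ (r + 2) :=
        pow_le_pow_left₀ (by positivity) h1 _
    _ ≤ 2 ^ (r + 2 - 1) * (c ^ (r + 2) * Q + 1) := h2
    _ ≤ 2 ^ (r + 2) * (c * Q + 1) := by gcongr

lemma natLog_le {M : ℕ} (hM : 1 ≤ M) : ((Nat.log 2 (2 * M) + 1 : ℕ) : ℝ) ≤ 2 * (1 + Real.log M) := by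
  have hM0 : M ≠ 0 := by omega
  have hMr : (1 : ℝ) ≤ M := by exact_mod_cast hM
  have h1 : Nat.log 2 (2 * M) = Nat.log 2 M + 1 := by
    rw [mul_comm, Nat.log_mul_base (by norm_num) hM0]
  have h2 : (Nat.log 2 M : ℝ) ≤ Real.logb 2 M := Real.natLog_le_logb _ _
  have h3 : Real.logb 2 M ≤ 2 * Real.log M := by
    rw [Real.logb, div_le_iff₀ (Real.log_pos (by norm_num))]
    have := Real.log_two_gt_d9
    nlinarith [Real.log_nonneg hMr]
  rw [h1]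
  push_cast
  linarith

end numeric

section sys

variable {G ι : Type*} [AddCommGroup G] (𝓗 : HtSys G ι)

lemma HtSys.neg_log_nonneg (v : ι) (x : G) : 0 ≤ -Real.log (𝓗.ν v x) := by
  rw [neg_nonneg]
  exact Real.log_nonpos (𝓗.ν_nonneg v x) (𝓗.ν_le_one v x)

/-- The levels used for the place `v`. -/
noncomputable def level {r : ℕ} (R : Fin r → G) (v : ι) (A : ℕ) : ℝ :=
  Real.log (𝓗.c v) + ∑ d ∈ (box r (A - 1)).filter (· ≠ 0), -Real.log (𝓗.ν v (∑ i, d i • R i))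

lemma level_mono {r : ℕ} (R : Fin r → G) (v : ι) {A A' : ℕ} (h : A ≤ A') :
    level 𝓗 R v A ≤ level 𝓗 R v A' := by
  unfold level
  have : ((box r (A - 1)).filter (· ≠ 0)) ⊆ ((box r (A' - 1)).filter (· ≠ 0)) := by
    apply filter_subset_filter
    intro d hd
    rw [mem_box] at hd ⊢
    intro i
    have := hd i
    have h2 : ((A - 1 : ℕ) : ℤ) ≤ ((A' - 1 : ℕ) : ℤ) := by exact_mod_cast Nat.sub_le_sub_right h 1
    exact this.trans h2
  have := sum_le_sum_of_subset_of_nonneg this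
    (fun d _ _ => 𝓗.neg_log_nonneg v (∑ i, d i • R i))
  linarith

lemma level_nonneg {r : ℕ} (R : Fin r → G) (v : ι) (A : ℕ) : 0 ≤ level 𝓗 R v A := by
  unfold level
  exact add_nonneg (Real.log_nonneg (𝓗.one_le_c v))
    (sum_nonneg fun d _ => 𝓗.neg_log_nonneg v _)

lemma close_count {r : ℕ} (R : Fin r → G) (hR : LinearIndependent ℤ R) (s : G) (M A : ℕ)
    (hA : 0 < A) (v : ι) :
    #{a ∈ box r M | 𝓗.ν v (∑ i, a i • R i - s) < Real.exp (-level 𝓗 R v A)} ≤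
      (2 * M / A + 1) ^ r := by
  apply card_close_le (𝓗.ν v) (𝓗.ν_neg v) (𝓗.one_le_c v) (𝓗.ν_add v) R s M A hA
  intro d hd hdA
  have hc0 : 0 < 𝓗.c v := zero_lt_one.trans_le (𝓗.one_le_c v)
  have hne : ∑ i, d i • R i ≠ 0 := by
    intro h0
    apply hd
    funext i
    exact Fintype.linearIndependent_iff.mp hR d h0 i
  have hpos := 𝓗.ν_pos v _ hne
  have hmem : d ∈ (box r (A - 1)).filter (· ≠ 0) := by
    rw [mem_filter, mem_box]
    refine ⟨fun i => ?_, hd⟩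
    have h1 := hdA i
    have h2 : ((A - 1 : ℕ) : ℤ) = (A : ℤ) - 1 := by
      rw [Nat.cast_sub hA, Nat.cast_one]
    omega
  have h1 : -Real.log (𝓗.ν v (∑ i, d i • R i)) ≤
      ∑ d ∈ (box r (A - 1)).filter (· ≠ 0), -Real.log (𝓗.ν v (∑ i, d i • R i)) :=
    single_le_sum (f := fun d => -Real.log (𝓗.ν v (∑ i, d i • R i)))
      (fun d _ => 𝓗.neg_log_nonneg v _) hmem
  have h2 : Real.exp (-level 𝓗 R v A) ≤ (𝓗.c v)⁻¹ * 𝓗.ν v (∑ i, d i • R i) := by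
    unfold level
    calc Real.exp (-(Real.log (𝓗.c v) + _)) ≤
          Real.exp (-Real.log (𝓗.c v) + Real.log (𝓗.ν v (∑ i, d i • R i))) := by
          apply Real.exp_le_exp.mpr
          linarith
      _ = (𝓗.c v)⁻¹ * 𝓗.ν v (∑ i, d i • R i) := by
          rw [Real.exp_add, Real.exp_neg, Real.exp_log hc0, Real.exp_log hpos]
  calc 𝓗.c v * Real.exp (-level 𝓗 R v A) ≤ 𝓗.c v * ((𝓗.c v)⁻¹ * 𝓗.ν v (∑ i, d i • R i)) :=
        mul_le_mul_of_nonneg_left h2 hc0.le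
    _ = 𝓗.ν v (∑ i, d i • R i) := by field_simp

/-- Heights of small combinations, and of small combinations minus a fixed point. -/
lemma HtSys.exists_height_le {r : ℕ} (R : Fin r → G) (s : G) :
    ∃ C : ℝ, 1 ≤ C ∧ ∀ (M : ℕ), 1 ≤ M → ∀ a ∈ box r M,
      𝓗.h (∑ i, a i • R i) ≤ C * M ^ 2 ∧ 𝓗.h (∑ i, a i • R i - s) ≤ C * M ^ 2 := by
  obtain ⟨q, hq, hq0, hqn⟩ := exists_canonical (G := G) (h := 𝓗.h) (c := 𝓗.C) 𝓗.par 𝓗.h_nonneg
  have hsum : 0 ≤ ∑ i, q (R i) := sum_nonneg fun i _ => hq0 _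
  refine ⟨2 * (r * ∑ i, q (R i)) + 2 * q s + 𝓗.C + 1, ?_, ?_⟩
  · have := hq0 s
    have := 𝓗.C_nonneg
    have : 0 ≤ (r : ℝ) * ∑ i, q (R i) := by positivity
    linarith
  intro M hM a ha
  have hMr : (1 : ℝ) ≤ M := by exact_mod_cast hM
  have hM2 : (1 : ℝ) ≤ (M : ℝ) ^ 2 := one_le_pow₀ hMr
  have h1 : q (∑ i, a i • R i) ≤ (M : ℝ) ^ 2 * r * ∑ i, q (R i) := by
    apply hq.sum_le hq0
    intro i
    have := mem_box.mp ha i
    exact_mod_cast this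
  have h2 : q (∑ i, a i • R i - s) ≤ 2 * q (∑ i, a i • R i) + 2 * q s := hq.sub_le hq0 _ _
  have h3 := hqn (∑ i, a i • R i)
  have h4 := hqn (∑ i, a i • R i - s)
  rw [abs_le] at h3 h4
  have h5 := hq0 s
  have h6 := 𝓗.C_nonneg
  have h7 : q s ≤ q s * (M : ℝ) ^ 2 := le_mul_of_one_le_right h5 hM2
  have h8 : 𝓗.C ≤ 𝓗.C * (M : ℝ) ^ 2 := le_mul_of_one_le_right h6 hM2
  have h9 : 0 ≤ (M : ℝ) ^ 2 * r * ∑ i, q (R i) := by positivity
  constructor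
  · nlinarith
  · nlinarith

/-- The large deviation estimate in boxes. -/
theorem box_count {r n : ℕ} (R : Fin r → G) (hR : LinearIndependent ℤ R) (s : Fin n → G) :
    ∃ C : ℝ, 0 ≤ C ∧ ∀ M : ℕ, 1 ≤ M → ∀ Q : ℝ, 1 ≤ Q → ∀ S : Finset (Fin n → Fin r → ℤ),
      S ⊆ Fintype.piFinset (fun _ => box r M) →
      (∀ a ∈ S, (∃ j, ∑ i, a j i • R i - s j ≠ 0) ∧
        Q + C ≤ 𝓗.gcd (fun j => ∑ i, a j i • R i - s j)) →
      (#S : ℝ) ≤ C * (1 + Real.log M) *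
        ((M : ℝ) ^ (r * n) * Q ^ (-(r * n / (r + 2) : ℝ)) + (M : ℝ) ^ (r + 2) / Q) := by
  classical
  obtain ⟨C₁, hC₁1, hC₁⟩ := 𝓗.exists_height_le R 0
  have hs := fun j => 𝓗.exists_height_le R (s j)
  choose D hD1 hD using hs
  set κ : ℝ := ∑ v ∈ 𝓗.c_fin.toFinset, 𝓗.w v * Real.log (𝓗.c v) with hκ
  have hκ0 : 0 ≤ κ := sum_nonneg fun v _ =>
    mul_nonneg (𝓗.w_nonneg v) (Real.log_nonneg (𝓗.one_le_c v))
  have hC₁0 : 0 < C₁ := by linarith
  set c : ℝ := (2 ^ (2 * r + 3) * C₁)⁻¹ with hc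
  have hc0 : 0 < c := by positivity
  have hc1 : c ≤ 1 := by
    rw [hc]
    apply inv_le_one_of_one_le₀
    have : (1 : ℝ) ≤ 2 ^ (2 * r + 3) := one_le_pow₀ (by norm_num)
    nlinarith
  have hDs : 0 ≤ ∑ j, D j := sum_nonneg fun j _ => by linarith [hD1 j]
  set K : ℝ := (c⁻¹) ^ (r * n) + 3 ^ (r + 2) with hK
  have hK0 : 0 < K := by positivity
  set K₃ : ℝ := 2 ^ (2 * r + 2) * C₁ * 4 ^ (r * n) * K with hK₃
  have hK₃0 : 0 < K₃ := by positivity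
  refine ⟨κ + 2 ^ (2 * r + 2) * C₁ + 4 * K₃ + 2 * (3 ^ r * ∑ j, D j), by positivity, ?_⟩
  intro M hM Q hQ S hSB hS
  have hQ0 : 0 < Q := by linarith
  have hMr : (1 : ℝ) ≤ M := by exact_mod_cast hM
  have hlogM : 0 ≤ Real.log M := Real.log_nonneg hMr
  -- the base of the levels
  set a₀ : ℕ := ⌊c * Q ^ (((r + 2 : ℕ) : ℝ)⁻¹)⌋₊ + 1 with ha₀
  have ha₀1 : 1 ≤ a₀ := by omega
  set A : ℕ → ℕ := fun i => min (2 ^ i * a₀) (2 * M + 1) with hA
  set I : ℕ := Nat.log 2 (2 * M) + 1 with hI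
  have hA1 : ∀ i, 1 ≤ A i := fun i => by
    apply le_min
    · exact Nat.one_le_iff_ne_zero.mpr (Nat.mul_ne_zero (by positivity) (by omega))
    · omega
  have hA2 : ∀ i, A i ≤ 2 * M + 1 := fun i => min_le_right _ _
  have hAI : A I = 2 * M + 1 := by
    apply min_eq_right
    have : 2 * M < 2 ^ (Nat.log 2 (2 * M)).succ := Nat.lt_pow_succ_log_self (by norm_num) _
    calc 2 * M + 1 ≤ 2 ^ I := this
      _ ≤ 2 ^ I * a₀ := Nat.le_mul_of_pos_right _ ha₀1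
  have hAmono : ∀ i, A i ≤ A (i + 1) := fun i => by
    apply min_le_min_right
    exact Nat.mul_le_mul_right _ (Nat.pow_le_pow_right (by norm_num) (by omega))
  have hAdbl : ∀ i, A (i + 1) ≤ 2 * A i := fun i => by
    change min (2 ^ (i + 1) * a₀) (2 * M + 1) ≤ 2 * min (2 ^ i * a₀) (2 * M + 1)
    rw [pow_succ]
    rcases min_choice (2 ^ i * a₀) (2 * M + 1) with h | h <;> rw [h]
    · exact (min_le_left _ _).trans (by nlinarith)
    · exact (min_le_right _ _).trans (by omega)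
  -- the finite set of places
  have hVfin : ({v | 𝓗.c v ≠ 1} ∪ ((⋃ d ∈ (((box r (2 * M)).filter
      fun d => ∑ i, d i • R i ≠ 0 : Finset (Fin r → ℤ)) : Set (Fin r → ℤ)),
        {v | 𝓗.ν v (∑ i, d i • R i) ≠ 1}) ∪
      ⋃ j : Fin n, ⋃ a ∈ (((box r M).filter fun a => ∑ i, a i • R i - s j ≠ 0 :
        Finset (Fin r → ℤ)) : Set (Fin r → ℤ)), {v | 𝓗.ν v (∑ i, a i • R i - s j) ≠ 1})).Finite := by
    refine 𝓗.c_fin.union (Set.Finite.union ?_ ?_)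
    · exact Set.Finite.biUnion (Finset.finite_toSet _) fun d hd =>
        𝓗.ν_fin _ (mem_filter.mp (mem_coe.mp hd)).2
    · exact Set.finite_iUnion fun j => Set.Finite.biUnion (Finset.finite_toSet _) fun a ha =>
        𝓗.ν_fin _ (mem_filter.mp (mem_coe.mp ha)).2
  obtain ⟨V, hV⟩ : ∃ V : Finset ι, V = hVfin.toFinset := ⟨_, rfl⟩
  have hVc : ∀ v, 𝓗.c v ≠ 1 → v ∈ V := fun v hv => by
    rw [hV, Set.Finite.mem_toFinset]
    exact Or.inl hv
  have hVd : ∀ d ∈ box r (2 * M), ∑ i, d i • R i ≠ 0 → ∀ v,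
      𝓗.ν v (∑ i, d i • R i) ≠ 1 → v ∈ V := fun d hd hd0 v hv => by
    rw [hV, Set.Finite.mem_toFinset]
    refine Or.inr (Or.inl ?_)
    rw [Set.mem_iUnion₂]
    exact ⟨d, mem_coe.mpr (mem_filter.mpr ⟨hd, hd0⟩), hv⟩
  have hVs : ∀ j, ∀ a ∈ box r M, ∑ i, a i • R i - s j ≠ 0 → ∀ v,
      𝓗.ν v (∑ i, a i • R i - s j) ≠ 1 → v ∈ V := fun j a ha ha0 v hv => by
    rw [hV, Set.Finite.mem_toFinset]
    refine Or.inr (Or.inr ?_)
    rw [Set.mem_iUnion]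
    refine ⟨j, ?_⟩
    rw [Set.mem_iUnion₂]
    exact ⟨a, mem_coe.mpr (mem_filter.mpr ⟨ha, ha0⟩), hv⟩
  have hκV : ∑ v ∈ V, 𝓗.w v * Real.log (𝓗.c v) = κ := by
    rw [hκ]
    symm
    apply sum_subset
    · intro v hv
      exact hVc v ((Set.Finite.mem_toFinset _).mp hv)
    · intro v _ hv
      have : 𝓗.c v = 1 := by
        by_contra hcon
        exact hv ((Set.Finite.mem_toFinset _).mpr hcon)
      rw [this, Real.log_one, mul_zero]
  have hlevel : ∀ A' : ℕ, A' ≤ 2 * M + 1 → ∑ v ∈ V, 𝓗.w v * level 𝓗 R v A' =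
      κ + ∑ d ∈ (box r (A' - 1)).filter (· ≠ 0), 𝓗.h (∑ i, d i • R i) := by
    intro A' hA'
    unfold level
    simp only [mul_add, sum_add_distrib, mul_sum]
    rw [hκV, sum_comm]
    congr 1
    apply sum_congr rfl
    intro d hd
    rw [mem_filter] at hd
    have hd0 : ∑ i, d i • R i ≠ 0 := by
      intro h0
      apply hd.2
      funext i
      exact Fintype.linearIndependent_iff.mp hR d h0 i
    have hd2 : d ∈ box r (2 * M) := by
      rw [mem_box]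
      intro i
      have := mem_box.mp hd.1 i
      have h2 : ((A' - 1 : ℕ) : ℤ) ≤ ((2 * M : ℕ) : ℤ) := by
        exact_mod_cast (by omega : A' - 1 ≤ 2 * M)
      exact this.trans h2
    exact 𝓗.h_eq _ hd0 V (hVd d hd2 hd0)
  have hhsum : ∀ A' : ℕ, 1 ≤ A' →
      ∑ d ∈ (box r (A' - 1)).filter (· ≠ 0), 𝓗.h (∑ i, d i • R i) ≤
        2 ^ r * C₁ * (A' : ℝ) ^ (r + 2) := by
    intro A' hA'
    have h1 : ∀ d ∈ (box r (A' - 1)).filter (· ≠ 0), 𝓗.h (∑ i, d i • R i) ≤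
        C₁ * (A' : ℝ) ^ 2 := by
      intro d hd
      refine (hC₁ A' hA' d ?_).1
      rw [mem_box]
      intro i
      have := mem_box.mp (mem_filter.mp hd).1 i
      have h2 : ((A' - 1 : ℕ) : ℤ) ≤ (A' : ℤ) := by exact_mod_cast (by omega : A' - 1 ≤ A')
      exact this.trans h2
    have h2 : (#((box r (A' - 1)).filter (· ≠ 0)) : ℝ) ≤ (2 * A' : ℝ) ^ r := by
      have h3 : #((box r (A' - 1)).filter (· ≠ 0)) ≤ (2 * A') ^ r := by
        refine (card_filter_le _ _).trans ?_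
        rw [card_box]
        exact Nat.pow_le_pow_left (by omega) _
      exact_mod_cast h3
    calc _ ≤ ∑ _d ∈ (box r (A' - 1)).filter (· ≠ 0), C₁ * (A' : ℝ) ^ 2 := sum_le_sum h1
      _ = #((box r (A' - 1)).filter (· ≠ 0)) * (C₁ * (A' : ℝ) ^ 2) := by
          rw [sum_const, nsmul_eq_mul]
      _ ≤ (2 * A' : ℝ) ^ r * (C₁ * (A' : ℝ) ^ 2) := by gcongr
      _ = _ := by rw [mul_pow]; ring
  -- the counting inequality
  have hcount := count_bad (X := Fin r → ℤ) (n := n) V 𝓗.w 𝓗.w_nonneg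
    (fun v j a => 𝓗.ν v (∑ i, a i • R i - s j)) (fun v j a => 𝓗.ν_nonneg v _)
    (fun v j a => 𝓗.ν_le_one v _) (box r M) S hSB
    (fun v a ha => by
      obtain ⟨j, hj⟩ := (hS a ha).1
      exact ⟨j, 𝓗.ν_pos v _ hj⟩)
    I (fun v i => level 𝓗 R v (A i)) (fun v i _ => level_mono 𝓗 R v (hAmono i))
    (fun v => level_nonneg 𝓗 R v _) (fun i => (2 * M / A i + 1) ^ r)
    (fun v i _ j => close_count 𝓗 R hR (s j) M (A i) (hA1 i) v)
    (fun v j => by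
      have := close_count 𝓗 R hR (s j) M (A I) (hA1 I) v
      rw [hAI] at this ⊢
      rw [Nat.div_eq_of_lt (by omega), zero_add, one_pow] at this
      exact this)
    (Q / 2) (fun a ha => by
      obtain ⟨⟨j, hj⟩, hgcd⟩ := hS a ha
      have haj : a j ∈ box r M := Fintype.mem_piFinset.mp (hSB ha) j
      rw [𝓗.gcd_eq (fun j => ∑ i, a j i • R i - s j) j hj V (hVs j (a j) haj hj)] at hgcd
      refine le_trans ?_ hgcd
      rw [hlevel (A 0) (hA2 0)]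
      have h1 := hhsum (A 0) (hA1 0)
      have h2 : (A 0 : ℝ) ^ (r + 2) ≤ 2 ^ (r + 2) * (c * Q + 1) := by
        refine le_trans ?_ (base_bound (r := r) hc0 hc1 hQ)
        apply pow_le_pow_left₀ (Nat.cast_nonneg _)
        have : A 0 ≤ a₀ := (min_le_left _ _).trans (by simp)
        exact_mod_cast this
      have h3 : 2 ^ r * C₁ * (A 0 : ℝ) ^ (r + 2) ≤ 2 ^ r * C₁ * (2 ^ (r + 2) * (c * Q + 1)) := by
        gcongr
      have h4 : 2 ^ r * C₁ * (2 ^ (r + 2) * (c * Q + 1)) = Q / 2 + 2 ^ (2 * r + 2) * C₁ := by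
        have e1 : (2 : ℝ) ^ r * 2 ^ (r + 2) = 2 ^ (2 * r + 2) := by rw [← pow_add]; congr 1; ring
        have e2 : (2 : ℝ) ^ (2 * r + 3) = 2 ^ (2 * r + 2) * 2 := pow_succ _ _
        calc 2 ^ r * C₁ * (2 ^ (r + 2) * (c * Q + 1)) =
              (2 ^ r * 2 ^ (r + 2)) * C₁ * (c * Q + 1) := by ring
          _ = 2 ^ (2 * r + 2) * C₁ * (c * Q + 1) := by rw [e1]
          _ = _ := by rw [hc, e2]; field_simp
      have h5 : 0 ≤ 2 * (3 ^ r * ∑ j, D j) := by positivity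
      linarith)
  -- the final estimates
  set E : ℝ := (M : ℝ) ^ (r * n) * (Q * Q ^ (-(r * n / (r + 2) : ℝ))) + (M : ℝ) ^ (r + 2) with hE
  have hE0 : 0 ≤ E := by positivity
  have hterm : ∀ i ∈ range I,
      (∑ v ∈ V, 𝓗.w v * (level 𝓗 R v (A (i + 1)) - level 𝓗 R v (A i))) *
        (((2 * M / A i + 1) ^ r : ℕ) : ℝ) ^ n ≤ K₃ * E := by
    intro i _
    have h0 : 0 ≤ ∑ v ∈ V, 𝓗.w v * (level 𝓗 R v (A (i + 1)) - level 𝓗 R v (A i)) :=
      sum_nonneg fun v _ => mul_nonneg (𝓗.w_nonneg v)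
        (sub_nonneg.mpr (level_mono 𝓗 R v (hAmono i)))
    have h1 : ∑ v ∈ V, 𝓗.w v * (level 𝓗 R v (A (i + 1)) - level 𝓗 R v (A i)) ≤
        2 ^ (2 * r + 2) * C₁ * (A i : ℝ) ^ (r + 2) := by
      have e1 : ∑ v ∈ V, 𝓗.w v * (level 𝓗 R v (A (i + 1)) - level 𝓗 R v (A i)) =
          ∑ d ∈ (box r (A (i + 1) - 1)).filter (· ≠ 0), 𝓗.h (∑ i, d i • R i) -
          ∑ d ∈ (box r (A i - 1)).filter (· ≠ 0), 𝓗.h (∑ i, d i • R i) := by
        simp only [mul_sub, sum_sub_distrib]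
        rw [hlevel _ (hA2 _), hlevel _ (hA2 _)]
        ring
      have e2 : 0 ≤ ∑ d ∈ (box r (A i - 1)).filter (· ≠ 0), 𝓗.h (∑ i, d i • R i) :=
        sum_nonneg fun d _ => 𝓗.h_nonneg _
      have e3 := hhsum (A (i + 1)) (hA1 _)
      have e4 : (A (i + 1) : ℝ) ^ (r + 2) ≤ (2 * A i) ^ (r + 2) := by
        apply pow_le_pow_left₀ (Nat.cast_nonneg _)
        exact_mod_cast hAdbl i
      have e5 : 2 ^ r * C₁ * (A (i + 1) : ℝ) ^ (r + 2) ≤ 2 ^ r * C₁ * (2 * A i) ^ (r + 2) := by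
        gcongr
      have e6 : 2 ^ r * C₁ * (2 * A i : ℝ) ^ (r + 2) =
          2 ^ (2 * r + 2) * C₁ * (A i : ℝ) ^ (r + 2) := by
        rw [mul_pow, show 2 * r + 2 = r + (r + 2) by ring, pow_add (2 : ℝ) r]
        ring
      linarith
    have h2 : (((2 * M / A i + 1) ^ r : ℕ) : ℝ) ^ n ≤
        4 ^ (r * n) * ((M : ℝ) / A i) ^ (r * n) := by
      have e1 := natDiv_le hM (hA1 i) (hA2 i)
      have e2 : (((2 * M / A i + 1) ^ r : ℕ) : ℝ) ^ n =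
          (((2 * M / A i + 1 : ℕ)) : ℝ) ^ (r * n) := by
        rw [Nat.cast_pow, ← pow_mul]
      rw [e2, ← mul_pow]
      exact pow_le_pow_left₀ (Nat.cast_nonneg _) e1 _
    have h3 : ((M : ℝ) / A i) ^ (r * n) * (A i : ℝ) ^ (r + 2) ≤ K * E := by
      apply layer_bound hM hc0 hc1 hQ
      · exact_mod_cast hA1 i
      · exact_mod_cast hA2 i
      · rcases min_choice (2 ^ i * a₀) (2 * M + 1) with h | h
        · right
          have h' : A i = 2 ^ i * a₀ := h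
          have e1 : c * Q ^ (((r + 2 : ℕ) : ℝ)⁻¹) ≤ a₀ := by
            rw [ha₀]
            push_cast
            exact (Nat.lt_floor_add_one _).le
          have e2 : a₀ ≤ A i := by
            rw [h']
            exact Nat.le_mul_of_pos_left _ (by positivity)
          exact e1.trans (by exact_mod_cast e2)
        · left
          have h' : A i = 2 * M + 1 := h
          rw [h']
          push_cast
          ring
    calc _ ≤ (2 ^ (2 * r + 2) * C₁ * (A i : ℝ) ^ (r + 2)) *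
          (4 ^ (r * n) * ((M : ℝ) / A i) ^ (r * n)) := by
          apply mul_le_mul h1 h2 (by positivity) (by positivity)
      _ = 2 ^ (2 * r + 2) * C₁ * 4 ^ (r * n) *
          (((M : ℝ) / A i) ^ (r * n) * (A i : ℝ) ^ (r + 2)) := by ring
      _ ≤ 2 ^ (2 * r + 2) * C₁ * 4 ^ (r * n) * (K * E) := by gcongr
      _ = K₃ * E := by rw [hK₃]; ring
  have hfirst := sum_le_sum hterm
  rw [sum_const, card_range, nsmul_eq_mul] at hfirst
  have hIle := natLog_le hM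
  have hsecond : ∑ j, ∑ a ∈ box r M, ∑ v ∈ V,
      𝓗.w v * -Real.log (𝓗.ν v (∑ i, a i • R i - s j)) ≤ 3 ^ r * (∑ j, D j) * E := by
    have h1 : ∀ j, ∀ a ∈ box r M, ∑ v ∈ V,
        𝓗.w v * -Real.log (𝓗.ν v (∑ i, a i • R i - s j)) ≤ D j * (M : ℝ) ^ 2 := by
      intro j a ha
      by_cases h0 : ∑ i, a i • R i - s j = 0
      · rw [h0]
        simp only [𝓗.ν_zero, Real.log_zero, neg_zero, mul_zero, sum_const_zero]
        have := hD1 j
        positivity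
      · rw [𝓗.h_eq _ h0 V (hVs j a ha h0)]
        exact (hD j M hM a ha).2
    have h2 : (#(box r M) : ℝ) ≤ 3 ^ r * (M : ℝ) ^ r := by
      rw [card_box, ← mul_pow]
      push_cast
      apply pow_le_pow_left₀ (by positivity)
      linarith
    calc _ ≤ ∑ j, ∑ _a ∈ box r M, D j * (M : ℝ) ^ 2 :=
          sum_le_sum fun j _ => sum_le_sum fun a ha => h1 j a ha
      _ = #(box r M) * (M : ℝ) ^ 2 * ∑ j, D j := by
          simp only [sum_const, nsmul_eq_mul]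
          rw [mul_sum]
          exact sum_congr rfl fun j _ => by ring
      _ ≤ 3 ^ r * (M : ℝ) ^ r * (M : ℝ) ^ 2 * ∑ j, D j := by gcongr
      _ = 3 ^ r * (∑ j, D j) * (M : ℝ) ^ (r + 2) := by rw [pow_add]; ring
      _ ≤ 3 ^ r * (∑ j, D j) * E := by
          have : (M : ℝ) ^ (r + 2) ≤ E := by
            rw [hE]
            have : 0 ≤ (M : ℝ) ^ (r * n) * (Q * Q ^ (-(r * n / (r + 2) : ℝ))) := by positivity
            linarith
          gcongr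
  have hEQ : E / Q = (M : ℝ) ^ (r * n) * Q ^ (-(r * n / (r + 2) : ℝ)) + (M : ℝ) ^ (r + 2) / Q := by
    rw [hE]
    field_simp
  rw [← hEQ]
  have htot : #S * (Q / 2) ≤ 2 * (1 + Real.log M) * (K₃ * E) + 3 ^ r * (∑ j, D j) * E := by
    have : (I : ℝ) * (K₃ * E) ≤ 2 * (1 + Real.log M) * (K₃ * E) := by gcongr
    linarith
  have h3D : 0 ≤ 3 ^ r * (∑ j, D j) * E := by positivity
  have h3D' : 3 ^ r * (∑ j, D j) * E ≤ (1 + Real.log M) * (3 ^ r * (∑ j, D j) * E) := by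
    nlinarith
  have hfin : (#S : ℝ) * Q ≤ (4 * K₃ + 2 * (3 ^ r * ∑ j, D j)) * (1 + Real.log M) * E := by
    nlinarith
  have hκE : 0 ≤ (κ + 2 ^ (2 * r + 2) * C₁) * (1 + Real.log M) * E := by positivity
  rw [mul_div_assoc', le_div_iff₀ hQ0]
  linarith

end sys

end Pool.Agent.H7.Vojta
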