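import Mathlib
import Pool.Agent.H7.VojtaCount

/-!
# Finitely generated groups and fibres of integer matrices
-/

set_option autoImplicit false

open Finset

namespace Pool.Agent.H7.Vojta

/-- A finitely generated subgroup of rank `r` is, modulo a finite set, generated by `r`
independent elements. -/
lemma exists_basis_mod_finite {G : Type*} [AddCommGroup G] (Γ : AddSubgroup G)
    (hΓ : AddSubgroup.FG Γ) :
    ∃ (R : Fin (Module.finrank ℤ Γ) → G) (T : Finset G), LinearIndependent ℤ R ∧
      ∀ x ∈ Γ, ∃ (a : Fin (Module.finrank ℤ Γ) → ℤ) (t : G), t ∈ T ∧ x = ∑ i, a i • R i + t := by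
  classical
  have hfg : AddGroup.FG Γ := (AddGroup.fg_iff_addSubgroup_fg Γ).mpr hΓ
  have : Module.Finite ℤ Γ := Module.Finite.iff_addGroup_fg.mpr hfg
  obtain ⟨f, hf⟩ := exists_linearIndependent_of_le_finrank (R := ℤ) (M := Γ) le_rfl
  set N : Submodule ℤ Γ := Submodule.span ℤ (Set.range f) with hN
  have htors : Module.IsTorsion ℤ (Γ ⧸ N) := by
    intro y
    obtain ⟨x, rfl⟩ := Submodule.Quotient.mk_surjective N y
    have hdep : ¬ LinearIndependent ℤ (Fin.cons x f : Fin (Module.finrank ℤ Γ + 1) → Γ) := by
      intro h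
      have := h.fintype_card_le_finrank
      rw [Fintype.card_fin] at this
      omega
    obtain ⟨g, hg0, i, hi⟩ := Fintype.not_linearIndependent_iff.mp hdep
    rw [Fin.sum_univ_succ] at hg0
    simp only [Fin.cons_zero, Fin.cons_succ] at hg0
    have hg : g 0 ≠ 0 := by
      intro h0
      rw [h0, zero_smul, zero_add] at hg0
      have := Fintype.linearIndependent_iff.mp hf (fun i => g i.succ) hg0
      apply hi
      refine Fin.cases ?_ ?_ i
      · exact h0
      · exact this
    refine ⟨⟨g 0, mem_nonZeroDivisors_of_ne_zero hg⟩, ?_⟩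
    change g 0 • (Submodule.Quotient.mk x : Γ ⧸ N) = 0
    rw [← Submodule.Quotient.mk_smul, Submodule.Quotient.mk_eq_zero]
    have : g 0 • x = -∑ i, g (Fin.succ i) • f i := eq_neg_of_add_eq_zero_left hg0
    rw [this]
    apply Submodule.neg_mem
    exact Submodule.sum_mem _ fun i _ => Submodule.smul_mem _ _ (Submodule.subset_span ⟨i, rfl⟩)
  have : Finite (Γ ⧸ N) := Module.finite_of_fg_torsion _ htors
  have := Fintype.ofFinite (Γ ⧸ N)
  refine ⟨fun i => (f i : G), univ.image fun y : Γ ⧸ N => ((Quotient.out y : Γ) : G), ?_, ?_⟩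
  · have := hf.map' (Γ.subtype.toIntLinearMap) (by
      rw [LinearMap.ker_eq_bot]
      exact Subtype.val_injective)
    exact this
  · intro x hx
    set x' : Γ := ⟨x, hx⟩ with hx'
    have h1 : x' - Quotient.out (Submodule.Quotient.mk x' : Γ ⧸ N) ∈ N := by
      rw [← Submodule.Quotient.eq]
      exact (Quotient.out_eq (Submodule.Quotient.mk x' : Γ ⧸ N)).symm
    rw [hN, Submodule.mem_span_range_iff_exists_fun] at h1
    obtain ⟨a, ha⟩ := h1
    refine ⟨a, _, mem_image_of_mem _ (mem_univ (Submodule.Quotient.mk x' : Γ ⧸ N)), ?_⟩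
    have h2 : x' = ∑ i, a i • f i + Quotient.out (Submodule.Quotient.mk x' : Γ ⧸ N) := by
      rw [ha]; abel
    have h3 := congrArg (fun z : Γ => (z : G)) h2
    simp only [AddSubgroup.coe_add, AddSubgroup.val_finsetSum, AddSubgroup.coe_zsmul] at h3
    exact h3

/-- Coordinates which separate the points of the fibres of an integer matrix of full rank. -/
lemma exists_separating {m n : ℕ} (φ : Fin m → Fin n → ℤ)
    (hφ : LinearIndependent ℚ fun i j => (φ i j : ℚ)) :
    ∃ (e : ℕ) (α : Fin e → Fin n), e + m ≤ n ∧
      ∀ z : Fin n → ℤ, (∀ i, ∑ j, φ i j * z j = 0) → (∀ l, z (α l) = 0) → z = 0 := by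
  classical
  set A : Matrix (Fin m) (Fin n) ℚ := fun i j => (φ i j : ℚ) with hA
  set N := LinearMap.ker A.mulVecLin with hN
  have hrank : Module.finrank ℚ N + m = n := by
    have h1 := LinearMap.finrank_range_add_finrank_ker A.mulVecLin
    have h2 : Module.finrank ℚ (LinearMap.range A.mulVecLin) = m := by
      have := LinearIndependent.rank_matrix (M := A) hφ
      rw [Fintype.card_fin] at this
      exact this
    rw [h2, Module.finrank_fin_fun] at h1
    exact (Nat.add_comm _ _).trans h1
  set f : Fin n → Module.Dual ℚ N := fun j => (LinearMap.proj j).comp N.subtype with hf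
  obtain ⟨κ, a, ha, hsp, hli⟩ := exists_linearIndependent' ℚ f
  have : Fintype κ := Fintype.ofInjective a ha
  have hcard : Fintype.card κ ≤ Module.finrank ℚ N := by
    have := hli.fintype_card_le_finrank
    rwa [Subspace.dual_finrank_eq] at this
  refine ⟨Fintype.card κ, fun l => a ((Fintype.equivFin κ).symm l), by omega, ?_⟩
  intro z hz hz0
  have hzN : (fun j => (z j : ℚ)) ∈ N := by
    rw [hN, LinearMap.mem_ker]
    funext i
    rw [Matrix.mulVecLin_apply, Matrix.mulVec, dotProduct]
    have := hz i
    simp only [hA, Pi.zero_apply]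
    exact_mod_cast this
  have hall : ∀ g ∈ Submodule.span ℚ (Set.range (f ∘ a)), g ⟨_, hzN⟩ = 0 := by
    intro g hg
    induction hg using Submodule.span_induction with
    | mem x hx =>
      obtain ⟨k, rfl⟩ := hx
      have := hz0 (Fintype.equivFin κ k)
      simp only [Equiv.symm_apply_apply] at this
      change ((z (a k) : ℤ) : ℚ) = 0
      exact_mod_cast this
    | zero => rfl
    | add x y _ _ hx hy => rw [LinearMap.add_apply, hx, hy, add_zero]
    | smul t x _ hx => rw [LinearMap.smul_apply, hx, smul_zero]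
  funext j
  have h1 : f j ∈ Submodule.span ℚ (Set.range (f ∘ a)) := by
    rw [hsp]
    exact Submodule.subset_span ⟨j, rfl⟩
  have h2 := hall (f j) h1
  change ((z j : ℤ) : ℚ) = 0 at h2
  exact_mod_cast h2

/-- Counting in the fibres of an integer matrix of full rank. -/
lemma fibre_count {m n r : ℕ} (φ : Fin m → Fin n → ℤ)
    (hφ : LinearIndependent ℚ fun i j => (φ i j : ℚ)) (M : ℕ) (S : Finset (Fin m → Fin r → ℤ))
    (U : Finset (Fin n → Fin r → ℤ)) (hU : U ⊆ Fintype.piFinset fun _ => box r M)
    (hUS : ∀ a ∈ U, (fun i => ∑ j, φ i j • a j) ∈ S) :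
    #U ≤ #S * (2 * M + 1) ^ (r * (n - m)) := by
  classical
  obtain ⟨e, α, he, hsep⟩ := exists_separating φ hφ
  have h1 : #U ≤ #(S ×ˢ (Fintype.piFinset fun _ : Fin e => box r M)) := by
    apply card_le_card_of_injOn (fun a : Fin n → Fin r → ℤ =>
      ((fun i => ∑ j, φ i j • a j), fun l => a (α l)))
    · intro a ha
      rw [mem_coe, mem_product, Fintype.mem_piFinset]
      exact ⟨hUS a ha, fun l => Fintype.mem_piFinset.mp (hU ha) (α l)⟩
    · intro a _ b _ hab
      have hab1 := congrArg Prod.fst hab
      have hab2 := congrArg Prod.snd hab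
      have hz : ∀ i : Fin r, (fun j => a j i - b j i) = 0 := by
        intro i
        apply hsep
        · intro i'
          have h3 := congrFun (congrFun hab1 i') i
          simp only [Finset.sum_apply, Pi.smul_apply, smul_eq_mul] at h3
          simp only [mul_sub, sum_sub_distrib]
          rw [h3, sub_self]
        · intro l
          have h3 := congrFun (congrFun hab2 l) i
          simp only at h3
          rw [h3, sub_self]
      funext j i
      have := congrFun (hz i) j
      simp only [Pi.zero_apply] at this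
      omega
  refine h1.trans ?_
  rw [card_product, Fintype.card_piFinset]
  simp only [card_box, prod_const, card_univ, Fintype.card_fin]
  rw [← pow_mul]
  exact Nat.mul_le_mul_left _ (Nat.pow_le_pow_right (by omega)
    (Nat.mul_le_mul_left _ (by omega)))

end Pool.Agent.H7.Vojta
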