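import Mathlib
import Pool.Agent.H7.VojtaMain
import Pool.Agent.H7.VojtaPosDef
import Pool.Agent.H7.VojtaBox

/-!
# The height of an elliptic curve as an abstract height system
-/

set_option autoImplicit false

open Height NumberField WeierstrassCurve WeierstrassCurve.Affine

namespace Pool.Agent.H7.Vojta

universe u

section

variable {k : Type u} [Field k] [NumberField k]

lemma sum_places (g : InfinitePlace k ⊕ FinitePlace k → ℝ)
    (V : Finset (InfinitePlace k ⊕ FinitePlace k)) (hV : ∀ v, g v ≠ 0 → v ∈ V) :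
    ∑ v ∈ V, g v =
      ∑ v : InfinitePlace k, g (Sum.inl v) + ∑ᶠ v : FinitePlace k, g (Sum.inr v) := by
  classical
  rw [Finset.sum_sum_eq_sum_toLeft_add_sum_toRight]
  congr 1
  · apply Finset.sum_subset (Finset.subset_univ _)
    intro v _ hv
    by_contra h
    exact hv (Finset.mem_toLeft.mpr (hV _ h))
  · symm
    apply finsum_eq_sum_of_support_subset
    intro v hv
    exact Finset.mem_coe.mpr (Finset.mem_toRight.mpr (hV _ hv))

variable [DecidableEq k] (W : Affine k) [W.IsElliptic]

theorem exists_htSys : ∃ 𝓗 : HtSys (W⁄k).Point (InfinitePlace k ⊕ FinitePlace k),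
    (∀ P, 𝓗.h P = naive P) ∧
    ∀ (n : ℕ) (x : Fin n → (W⁄k).Point), 𝓗.gcd x = nearSum x := by
  classical
  obtain ⟨m, B, hm, hB, hmB⟩ := exists_local_bounds.{u, u} ({W.b₂, W.b₄, W.b₆, W.b₈} : Finset k)
  obtain ⟨C₀, hC₀0, hC₀⟩ := exists_parallelogram.{u, u} W
  have h12B : (1 : ℝ) ≤ 12 * B := by linarith
  have hm' : (m : k) ≠ 0 := by exact_mod_cast hm
  obtain ⟨hinf, hfin⟩ := hmB k
  have e₂ : (W⁄k).b₂ = algebraMap k k W.b₂ := W.map_b₂ (algebraMap k k)
  have e₄ : (W⁄k).b₄ = algebraMap k k W.b₄ := W.map_b₄ (algebraMap k k)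
  have e₆ : (W⁄k).b₆ = algebraMap k k W.b₆ := W.map_b₆ (algebraMap k k)
  have e₈ : (W⁄k).b₈ = algebraMap k k W.b₈ := W.map_b₈ (algebraMap k k)
  set w : InfinitePlace k ⊕ FinitePlace k → ℝ :=
    Sum.elim (fun v => (v.mult : ℝ)) (fun _ => 1) with hw
  have hw0 : ∀ v, 0 ≤ w v := by
    rintro (v | v)
    · exact Nat.cast_nonneg _
    · exact zero_le_one
  set c : InfinitePlace k ⊕ FinitePlace k → ℝ :=
    Sum.elim (fun _ => 12 * B) (fun v => (v (m : k))⁻¹) with hc
  set ν : InfinitePlace k ⊕ FinitePlace k → (W⁄k).Point → ℝ :=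
    Sum.elim (fun v => nearness v) (fun v => nearness v) with hν
  have hν0 : ∀ v x, 0 ≤ ν v x := by
    rintro (v | v) x
    · exact nearness_nonneg _ _
    · exact nearness_nonneg _ _
  have hν1 : ∀ v x, ν v x ≤ 1 := by
    rintro (v | v) x
    · exact nearness_le_one _ _
    · exact nearness_le_one _ _
  have hνpos : ∀ v x, x ≠ 0 → 0 < ν v x := by
    rintro (v | v) x hx
    · exact nearness_pos _ hx
    · exact nearness_pos _ hx
  have hlogeq : ∀ v x, x ≠ 0 → -Real.log (ν v x) ≠ 0 → ν v x ≠ 1 := by
    intro v x _ h h1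
    rw [h1, Real.log_one, neg_zero] at h
    exact h rfl
  have hνfin : ∀ x, x ≠ 0 → {v | ν v x ≠ 1}.Finite := by
    intro x hx
    have h1 := finite_support_nearness (K := k) (W' := (W⁄k)) hx
    have h2 : {v | ν v x ≠ 1} ⊆ (Set.range Sum.inl) ∪ (Sum.inr ''
        (Function.support fun w : FinitePlace k => -Real.log (nearness w x))) := by
      rintro (v | v) hv
      · exact Or.inl ⟨v, rfl⟩
      · refine Or.inr ⟨v, ?_, rfl⟩
        rw [Function.mem_support]
        intro h0
        apply hv
        change nearness v x = 1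
        have h3 : Real.log (nearness v x) = 0 := by linarith
        exact Real.eq_one_of_pos_of_log_eq_zero (nearness_pos _ hx) h3
    exact ((Set.finite_range _).union (Set.Finite.image _ h1)).subset h2
  have hc1 : ∀ v, 1 ≤ c v := by
    rintro (v | v)
    · exact h12B
    · exact (one_le_inv₀ (FinitePlace.pos_iff.mpr hm')).mpr (finitePlace_natCast_le_one v m)
  have hcfin : {v | c v ≠ 1}.Finite := by
    have h1 := FinitePlace.hasFiniteMulSupport hm'
    have h2 : {v | c v ≠ 1} ⊆ (Set.range Sum.inl) ∪ (Sum.inr ''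
        (Function.mulSupport fun w : FinitePlace k => w (m : k))) := by
      rintro (v | v) hv
      · exact Or.inl ⟨v, rfl⟩
      · refine Or.inr ⟨v, ?_, rfl⟩
        rw [Function.mem_mulSupport]
        intro h0
        apply hv
        change (v (m : k))⁻¹ = 1
        rw [h0, inv_one]
    exact ((Set.finite_range _).union (Set.Finite.image _ h1)).subset h2
  have hadd : ∀ v x y, ν v (x + y) ≤ c v * max (ν v x) (ν v y) := by
    rintro (v | v) x y
    · exact nearness_add_le_arch (W⁄k) v.val hB
        (by rw [e₂]; exact hinf v _ (by simp)) (by rw [e₄]; exact hinf v _ (by simp))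
        (by rw [e₆]; exact hinf v _ (by simp)) (by rw [e₈]; exact hinf v _ (by simp)) x y
    · have hv0 : 0 < v (m : k) := FinitePlace.pos_iff.mpr hm'
      have hle : ∀ c ∈ ({W.b₂, W.b₄, W.b₆, W.b₈} : Finset k),
          v.val (algebraMap k k c) ≤ (v (m : k))⁻¹ := fun c hc => by
        have := hfin v c hc
        rw [← one_div, le_div_iff₀ hv0, mul_comm]
        exact this
      exact nearness_add_le_nonarch (W⁄k) v.val
        (fun x y => FinitePlace.add_le v x y) (hc1 (Sum.inr v))
        (by rw [e₂]; exact hle _ (by simp)) (by rw [e₄]; exact hle _ (by simp))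
        (by rw [e₆]; exact hle _ (by simp)) (by rw [e₈]; exact hle _ (by simp)) x y
  refine ⟨{
    w := w
    w_nonneg := hw0
    c := c
    one_le_c := hc1
    c_fin := hcfin
    ν := ν
    ν_nonneg := hν0
    ν_le_one := hν1
    ν_neg := ?_
    ν_zero := ?_
    ν_pos := hνpos
    ν_add := hadd
    ν_fin := hνfin
    h := naive
    h_nonneg := naive_nonneg
    h_eq := ?_
    C := C₀ * totalWeight k
    C_nonneg := by positivity
    par := fun x y => hC₀ k x y
    northcott := finite_naive_le (W⁄k)
    gcd := fun {n} x => nearSum x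
    gcd_eq := ?_ }, fun P => rfl, fun n x => rfl⟩
  · rintro (v | v) x
    · exact nearness_neg _ _
    · exact nearness_neg _ _
  · rintro (v | v)
    · rfl
    · rfl
  · intro x hx V hV
    rw [sum_places (fun v => w v * -Real.log (ν v x)) V]
    · rw [← sum_nearness hx]
      congr 1
      apply finsum_congr
      intro v
      exact one_mul _
    · intro v hv
      apply hV
      apply hlogeq v x hx
      exact right_ne_zero_of_mul hv
  · intro n x j hj V hV
    rw [sum_places (fun v => w v * -Real.log (⨆ j, ν v (x j))) V]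
    · unfold nearSum
      congr 1
      apply finsum_congr
      intro v
      exact (one_mul _).symm
    · intro v hv
      apply hV
      intro h1
      apply right_ne_zero_of_mul hv
      have h2 : (⨆ j, ν v (x j)) = 1 := by
        apply le_antisymm
        · exact Real.iSup_le (fun j => hν1 v _) zero_le_one
        · rw [← h1]
          exact le_ciSup (Set.finite_range fun j => ν v (x j)).bddAbove j
      change -Real.log (⨆ j, ν v (x j)) = 0
      rw [h2, Real.log_one, neg_zero]

end

end Pool.Agent.H7.Vojta
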