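import Mathlib
import Pool.Agent.H7.VojtaBox
import Pool.Agent.H7.VojtaFg

/-!
# The large deviation estimate for finitely generated groups
-/

set_option autoImplicit false

open Finset

namespace Pool.Agent.H7.Vojta

lemma sqrt_pow_eq {H : ℝ} (hH : 0 ≤ H) (k : ℕ) : (√H) ^ k = H ^ ((k : ℝ) / 2) := by
  rw [Real.sqrt_eq_rpow, ← Real.rpow_natCast, ← Real.rpow_mul hH]
  congr 1
  ring

section

variable {G ι : Type*} [AddCommGroup G] (𝓗 : HtSys G ι)

lemma HtSys.finite_tuples {n : ℕ} (H : ℝ) :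
    {P : Fin n → G | ∑ j, 𝓗.h (P j) ≤ H}.Finite := by
  have h1 : {P : Fin n → G | ∀ j, P j ∈ {x : G | 𝓗.h x ≤ H}}.Finite :=
    Set.Finite.pi' fun _ => 𝓗.northcott H
  refine h1.subset ?_
  intro P hP j
  have hP' : ∑ j, 𝓗.h (P j) ≤ H := hP
  exact (single_le_sum (f := fun j => 𝓗.h (P j)) (fun j _ => 𝓗.h_nonneg _) (mem_univ j)).trans hP'

theorem large_count (Γ : AddSubgroup G) {r : ℕ} (R : Fin r → G) (T : Finset G)
    (hR : LinearIndependent ℤ R)
    (hT : ∀ x ∈ Γ, ∃ (a : Fin r → ℤ) (t : G), t ∈ T ∧ x = ∑ i, a i • R i + t)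
    {m n : ℕ} (φ : Fin m → Fin n → ℤ)
    (hφ : LinearIndependent ℚ fun i j => (φ i j : ℚ)) (c : Fin m → G) :
    ∃ C : ℝ, 0 ≤ C ∧ ∀ H : ℝ, 1 ≤ H → ∀ Q : ℝ, 1 ≤ Q →
      (({P : Fin n → G | (∀ j, P j ∈ Γ) ∧ ∑ j, 𝓗.h (P j) ≤ H ∧
        (∃ i, ∑ j, φ i j • P j - c i ≠ 0) ∧
        Q + C < 𝓗.gcd (fun i => ∑ j, φ i j • P j - c i)}.ncard : ℕ) : ℝ) ≤
      C * ((1 + Real.log H) * (H ^ (((r * (n - m) : ℕ) : ℝ) / 2) *
        (H ^ (((r * m : ℕ) : ℝ) / 2) * Q ^ (-(r * m / (r + 2) : ℝ)) +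
          H ^ (((r + 2 : ℕ) : ℝ) / 2) / Q))) := by
  classical
  obtain ⟨q, hq, hq0, hqn⟩ := exists_canonical (G := G) (h := 𝓗.h) (c := 𝓗.C) 𝓗.par 𝓗.h_nonneg
  have hqfin : ∀ B, {x | q x ≤ B}.Finite := fun B => by
    refine (𝓗.northcott (B + 𝓗.C)).subset ?_
    intro x hx
    have h1 : q x ≤ B := hx
    have h2 := hqn x
    rw [abs_le] at h2
    change 𝓗.h x ≤ B + 𝓗.C
    linarith
  obtain ⟨c₀, hc₀, hlow⟩ := exists_lower_bound hq hq0 hqfin R hR
  have hbox := fun t : Fin n → G => box_count 𝓗 R hR (fun i => c i - ∑ j, φ i j • t j)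
  choose D hD0 hD using hbox
  -- constants
  have hqT : 0 ≤ ∑ t ∈ T, q t := sum_nonneg fun t _ => hq0 t
  have h𝓗C := 𝓗.C_nonneg
  set K₁ : ℝ := (2 + 2 * 𝓗.C + 2 * ∑ t ∈ T, q t) / c₀ with hK₁
  have hK₁0 : 0 ≤ K₁ := by positivity
  set L : ℝ := √K₁ + 1 with hL
  have hL1 : 1 ≤ L := by
    have := Real.sqrt_nonneg K₁
    linarith
  set F : ℕ := (∑ i, ∑ j, (φ i j).natAbs) + 1 with hF
  have hF1 : 1 ≤ F := by omega
  have hFr : (1 : ℝ) ≤ F := by exact_mod_cast hF1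
  set TT := Fintype.piFinset (fun _ : Fin n => T) with hTT
  have hDs : 0 ≤ ∑ t ∈ TT, D t := sum_nonneg fun t _ => hD0 t
  have hFL : 1 ≤ F * L := by nlinarith
  have hlogFL : 0 ≤ Real.log (F * L) := Real.log_nonneg hFL
  set E₁ : ℝ := (1 + Real.log (F * L)) *
    ((3 * L) ^ (r * (n - m)) * ((F * L) ^ (r * m) + (F * L) ^ (r + 2))) with hE₁
  have hE₁0 : 0 ≤ E₁ := by positivity
  refine ⟨(∑ t ∈ TT, D t) + (∑ t ∈ TT, D t) * E₁, by positivity, ?_⟩
  intro H hH Q hQ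
  have hH0 : 0 < H := by linarith
  have hQ0 : 0 < Q := by linarith
  have hlogH : 0 ≤ Real.log H := Real.log_nonneg hH
  have hsH : 1 ≤ √H := by
    rw [Real.le_sqrt' one_pos]; linarith
  set M : ℕ := ⌊√(K₁ * H)⌋₊ + 1 with hM
  have hM1 : 1 ≤ M := by omega
  have hML : (M : ℝ) ≤ L * √H := by
    have h1 : (⌊√(K₁ * H)⌋₊ : ℝ) ≤ √(K₁ * H) := Nat.floor_le (Real.sqrt_nonneg _)
    have h2 : √(K₁ * H) = √K₁ * √H := Real.sqrt_mul hK₁0 H
    rw [hM, hL]
    push_cast
    rw [add_mul, one_mul, ← h2]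
    linarith
  have hMr : (1 : ℝ) ≤ M := by exact_mod_cast hM1
  -- the set of bad points
  set bad : Set (Fin n → G) := {P : Fin n → G | (∀ j, P j ∈ Γ) ∧ ∑ j, 𝓗.h (P j) ≤ H ∧
        (∃ i, ∑ j, φ i j • P j - c i ≠ 0) ∧
        Q + ((∑ t ∈ TT, D t) + (∑ t ∈ TT, D t) * E₁) <
          𝓗.gcd (fun i => ∑ j, φ i j • P j - c i)} with hbad
  set U : (Fin n → G) → Finset (Fin n → Fin r → ℤ) := fun t =>
    (Fintype.piFinset fun _ => box r M).filter fun a => (fun j => ∑ i, a j i • R i + t j) ∈ bad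
    with hU
  have hcover : bad ⊆ ((TT.biUnion fun t => (U t).image
      fun a => fun j => ∑ i, a j i • R i + t j : Finset (Fin n → G)) : Set (Fin n → G)) := by
    intro P hP
    have hP' := hP
    obtain ⟨hPΓ, hPH, -, -⟩ := hP'
    have hdec := fun j => hT (P j) (hPΓ j)
    choose a t ht hat using hdec
    rw [mem_coe, mem_biUnion]
    refine ⟨t, Fintype.mem_piFinset.mpr ht, ?_⟩
    rw [mem_image]
    have hPeq : (fun j => ∑ i, a j i • R i + t j) = P := funext fun j => (hat j).symm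
    refine ⟨a, ?_, hPeq⟩
    rw [hU, mem_filter, hPeq]
    refine ⟨?_, hP⟩
    rw [Fintype.mem_piFinset]
    intro j
    rw [mem_box]
    intro i
    have h1 := hlow (a j)
    have h2 : ∑ i, a j i • R i = P j - t j := by rw [hat j]; abel
    have h3 : q (P j - t j) ≤ 2 * q (P j) + 2 * q (t j) := hq.sub_le hq0 _ _
    have h4 : q (t j) ≤ ∑ t ∈ T, q t := single_le_sum (fun t _ => hq0 t) (ht j)
    have h5 := hqn (P j)
    rw [abs_le] at h5
    have h6 : 𝓗.h (P j) ≤ H :=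
      (single_le_sum (f := fun j => 𝓗.h (P j)) (fun j _ => 𝓗.h_nonneg _) (mem_univ j)).trans hPH
    have h7 : (a j i : ℝ) ^ 2 ≤ ∑ i, (a j i : ℝ) ^ 2 :=
      single_le_sum (f := fun i => (a j i : ℝ) ^ 2) (fun _ _ => sq_nonneg _) (mem_univ i)
    have h8 : (a j i : ℝ) ^ 2 ≤ K₁ * H := by
      rw [hK₁, div_mul_eq_mul_div, le_div_iff₀ hc₀]
      rw [h2] at h1
      have h9 : 𝓗.C ≤ 𝓗.C * H := le_mul_of_one_le_right h𝓗C hH
      have h10 : ∑ t ∈ T, q t ≤ (∑ t ∈ T, q t) * H := le_mul_of_one_le_right hqT hH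
      nlinarith
    have h9 : |(a j i : ℝ)| ≤ √(K₁ * H) := Real.abs_le_sqrt h8
    have h10 : |(a j i : ℝ)| < M := by
      rw [hM]
      push_cast
      exact h9.trans_lt (Nat.lt_floor_add_one _)
    have h11 : ((|a j i| : ℤ) : ℝ) < ((M : ℤ) : ℝ) := by
      rw [Int.cast_abs]
      exact_mod_cast h10
    exact (Int.cast_lt.mp h11).le
  -- counting each part
  have hpart : ∀ t ∈ TT, (#(U t) : ℝ) ≤ D t * (E₁ * ((1 + Real.log H) *
      (H ^ (((r * (n - m) : ℕ) : ℝ) / 2) * (H ^ (((r * m : ℕ) : ℝ) / 2) *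
        Q ^ (-(r * m / (r + 2) : ℝ)) + H ^ (((r + 2 : ℕ) : ℝ) / 2) / Q)))) := by
    intro t ht
    set S := (U t).image fun a => (fun i => ∑ j, φ i j • a j) with hS
    have h1 : #(U t) ≤ #S * (2 * M + 1) ^ (r * (n - m)) := by
      apply fibre_count φ hφ M S (U t) (filter_subset _ _)
      intro a ha
      exact mem_image_of_mem _ ha
    have h2 : (#S : ℝ) ≤ D t * (1 + Real.log ((F * M : ℕ) : ℝ)) *
        ((((F * M : ℕ) : ℝ)) ^ (r * m) * Q ^ (-(r * m / (r + 2) : ℝ)) +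
          (((F * M : ℕ) : ℝ)) ^ (r + 2) / Q) := by
      apply hD t (F * M) (Nat.one_le_iff_ne_zero.mpr (Nat.mul_ne_zero (by omega) (by omega))) Q hQ S
      · intro b hb
        rw [hS, mem_image] at hb
        obtain ⟨a, ha, rfl⟩ := hb
        have ha1 := (mem_filter.mp ha).1
        rw [Fintype.mem_piFinset]
        intro i
        rw [mem_box]
        intro i'
        rw [Finset.sum_apply]
        calc |∑ j, (φ i j • a j) i'| ≤ ∑ j, |(φ i j • a j) i'| := abs_sum_le_sum_abs _ _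
          _ ≤ ∑ j, |φ i j| * (M : ℤ) := by
              apply sum_le_sum
              intro j _
              rw [Pi.smul_apply, smul_eq_mul, abs_mul]
              exact mul_le_mul_of_nonneg_left
                (mem_box.mp (Fintype.mem_piFinset.mp ha1 j) i') (abs_nonneg _)
          _ = (∑ j, |φ i j|) * (M : ℤ) := by rw [sum_mul]
          _ ≤ (F : ℤ) * (M : ℤ) := by
              apply mul_le_mul_of_nonneg_right _ (Nat.cast_nonneg _)
              have e1 : ∑ j, |φ i j| ≤ ∑ i, ∑ j, |φ i j| :=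
                single_le_sum (f := fun i => ∑ j, |φ i j|)
                  (fun _ _ => sum_nonneg fun _ _ => abs_nonneg _) (mem_univ i)
              have e2 : ((∑ i, ∑ j, (φ i j).natAbs : ℕ) : ℤ) = ∑ i, ∑ j, |φ i j| := by
                push_cast
                rfl
              rw [hF]
              push_cast
              push_cast at e2
              linarith
          _ = ((F * M : ℕ) : ℤ) := by push_cast; ring
      · intro b hb
        rw [hS, mem_image] at hb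
        obtain ⟨a, ha, rfl⟩ := hb
        obtain ⟨-, -, ⟨i, hi⟩, hgcd⟩ := (mem_filter.mp ha).2
        have hconv : ∀ i, ∑ j, φ i j • (∑ i', a j i' • R i' + t j) - c i =
            ∑ i', (∑ j, φ i j • a j) i' • R i' - (c i - ∑ j, φ i j • t j) := by
          intro i
          simp only [smul_add, sum_add_distrib, Finset.sum_apply, Pi.smul_apply, sum_smul,
            smul_eq_mul, mul_smul, smul_sum]
          rw [sum_comm]
          abel
        constructor
        · refine ⟨i, ?_⟩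
          rw [← hconv]
          exact hi
        · have e1 : D t ≤ ∑ t ∈ TT, D t := single_le_sum (fun t _ => hD0 t) ht
          have e2 : 0 ≤ (∑ t ∈ TT, D t) * E₁ := by positivity
          simp only [hconv] at hgcd
          linarith
    have hFM : ((F * M : ℕ) : ℝ) ≤ F * L * √H := by
      push_cast
      rw [mul_assoc]
      exact mul_le_mul_of_nonneg_left hML (by positivity)
    have hFM0 : (0 : ℝ) < ((F * M : ℕ) : ℝ) := by
      push_cast
      positivity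
    have hlog : 1 + Real.log ((F * M : ℕ) : ℝ) ≤ (1 + Real.log (F * L)) * (1 + Real.log H) := by
      have e1 : Real.log ((F * M : ℕ) : ℝ) ≤ Real.log (F * L * √H) := Real.log_le_log hFM0 hFM
      rw [Real.log_mul (by positivity) (by positivity), Real.log_sqrt hH0.le] at e1
      nlinarith [mul_nonneg hlogFL hlogH]
    have hp1 : (((F * M : ℕ) : ℝ)) ^ (r * m) ≤ (F * L) ^ (r * m) * H ^ (((r * m : ℕ) : ℝ) / 2) := by
      rw [← sqrt_pow_eq hH0.le, ← mul_pow]
      exact pow_le_pow_left₀ hFM0.le hFM _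
    have hp2 : (((F * M : ℕ) : ℝ)) ^ (r + 2) ≤
        (F * L) ^ (r + 2) * H ^ (((r + 2 : ℕ) : ℝ) / 2) := by
      rw [← sqrt_pow_eq hH0.le, ← mul_pow]
      exact pow_le_pow_left₀ hFM0.le hFM _
    have hp3 : ((2 * M + 1 : ℕ) : ℝ) ^ (r * (n - m)) ≤
        (3 * L) ^ (r * (n - m)) * H ^ (((r * (n - m) : ℕ) : ℝ) / 2) := by
      rw [← sqrt_pow_eq hH0.le, ← mul_pow]
      apply pow_le_pow_left₀ (by positivity)
      push_cast
      nlinarith
    have h3 : (#(U t) : ℝ) ≤ #S * ((2 * M + 1 : ℕ) : ℝ) ^ (r * (n - m)) := by exact_mod_cast h1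
    set X1 := H ^ (((r * (n - m) : ℕ) : ℝ) / 2) with hX1
    set X2 := H ^ (((r * m : ℕ) : ℝ) / 2) * Q ^ (-(r * m / (r + 2) : ℝ)) with hX2
    set X3 := H ^ (((r + 2 : ℕ) : ℝ) / 2) / Q with hX3
    have hX10 : 0 ≤ X1 := by positivity
    have hX20 : 0 ≤ X2 := by positivity
    have hX30 : 0 ≤ X3 := by positivity
    have h4 : (((F * M : ℕ) : ℝ)) ^ (r * m) * Q ^ (-(r * m / (r + 2) : ℝ)) +
          (((F * M : ℕ) : ℝ)) ^ (r + 2) / Q ≤
        ((F * L) ^ (r * m) + (F * L) ^ (r + 2)) * (X2 + X3) := by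
      have e1 : (((F * M : ℕ) : ℝ)) ^ (r * m) * Q ^ (-(r * m / (r + 2) : ℝ)) ≤
          (F * L) ^ (r * m) * X2 := by
        rw [hX2, ← mul_assoc]
        exact mul_le_mul_of_nonneg_right hp1 (by positivity)
      have e2 : (((F * M : ℕ) : ℝ)) ^ (r + 2) / Q ≤ (F * L) ^ (r + 2) * X3 := by
        rw [hX3, ← mul_div_assoc]
        exact div_le_div_of_nonneg_right hp2 hQ0.le
      have e3 : 0 ≤ (F * L) ^ (r * m) * X3 := by positivity
      have e4 : 0 ≤ (F * L) ^ (r + 2) * X2 := by positivity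
      linarith
    calc (#(U t) : ℝ) ≤ #S * ((2 * M + 1 : ℕ) : ℝ) ^ (r * (n - m)) := h3
      _ ≤ (D t * (1 + Real.log ((F * M : ℕ) : ℝ)) *
          ((((F * M : ℕ) : ℝ)) ^ (r * m) * Q ^ (-(r * m / (r + 2) : ℝ)) +
          (((F * M : ℕ) : ℝ)) ^ (r + 2) / Q)) * ((3 * L) ^ (r * (n - m)) * X1) := by
          apply mul_le_mul h2 hp3 (by positivity)
          have : 0 ≤ Real.log ((F * M : ℕ) : ℝ) := Real.log_natCast_nonneg _
          have := hD0 t
          positivity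
      _ ≤ (D t * ((1 + Real.log (F * L)) * (1 + Real.log H)) *
          (((F * L) ^ (r * m) + (F * L) ^ (r + 2)) * (X2 + X3))) *
            ((3 * L) ^ (r * (n - m)) * X1) := by
          apply mul_le_mul_of_nonneg_right _ (by positivity)
          apply mul_le_mul _ h4 (by positivity)
          · have := hD0 t
            positivity
          · exact mul_le_mul_of_nonneg_left hlog (hD0 t)
      _ = _ := by rw [hE₁]; ring
  -- conclusion
  set Z : ℝ := (1 + Real.log H) * (H ^ (((r * (n - m) : ℕ) : ℝ) / 2) *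
    (H ^ (((r * m : ℕ) : ℝ) / 2) * Q ^ (-(r * m / (r + 2) : ℝ)) +
      H ^ (((r + 2 : ℕ) : ℝ) / 2) / Q)) with hZ
  have hZ0 : 0 ≤ Z := by positivity
  have hcard : bad.ncard ≤ ∑ t ∈ TT, #(U t) := by
    refine (Set.ncard_le_ncard hcover (Finset.finite_toSet _)).trans ?_
    rw [Set.ncard_coe_finset]
    refine card_biUnion_le.trans ?_
    exact sum_le_sum fun t _ => card_image_le
  calc (bad.ncard : ℝ) ≤ ∑ t ∈ TT, (#(U t) : ℝ) := by exact_mod_cast hcard
    _ ≤ ∑ t ∈ TT, D t * (E₁ * Z) := sum_le_sum hpart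
    _ = (∑ t ∈ TT, D t) * E₁ * Z := by rw [← sum_mul]; ring
    _ ≤ ((∑ t ∈ TT, D t) + (∑ t ∈ TT, D t) * E₁) * Z := by
        have : 0 ≤ (∑ t ∈ TT, D t) * Z := by positivity
        linarith

end

end Pool.Agent.H7.Vojta
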