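import Mathlib
import Pool.Agent.H7.VojtaLarge

/-!
# Counting the exceptional points: several centres, and all heights
-/

set_option autoImplicit false

open Finset

namespace Pool.Agent.H7.Vojta

section

variable {G ι : Type*} [AddCommGroup G] (𝓗 : HtSys G ι)

lemma HtSys.gcd_nonneg {n : ℕ} (x : Fin n → G) (hx : ∃ j, x j ≠ 0) : 0 ≤ 𝓗.gcd x := by
  classical
  obtain ⟨j, hj⟩ := hx
  rw [𝓗.gcd_eq x j hj (𝓗.ν_fin _ hj).toFinset (fun v hv => by
    rw [Set.Finite.mem_toFinset]; exact hv)]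
  apply sum_nonneg
  intro v _
  apply mul_nonneg (𝓗.w_nonneg v)
  rw [neg_nonneg]
  apply Real.log_nonpos
  · exact Real.iSup_nonneg fun j => 𝓗.ν_nonneg v _
  · exact Real.iSup_le (fun j => 𝓗.ν_le_one v _) zero_le_one

/-- The shape of the counting function. -/
noncomputable def shape (r n : ℕ) (α : ℝ) {N : ℕ} (m : Fin N → ℕ) (H : ℝ) : ℝ :=
  ∑ l, (H ^ (r * n / 2 - α * (r * m l / (r + 2)) : ℝ) + H ^ (r * (n - m l + 1) / 2 + 1 - α : ℝ))

lemma exponents_nonneg {r n m : ℕ} (hmn : m ≤ n) {α : ℝ} (_hα0 : 0 < α) (hα1 : α ≤ 1) :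
    (0 : ℝ) ≤ r * n / 2 - α * (r * m / (r + 2)) ∧ (0 : ℝ) ≤ r * (n - m + 1) / 2 + 1 - α := by
  have hr : (0 : ℝ) ≤ r := Nat.cast_nonneg r
  have hm0 : (0 : ℝ) ≤ m := Nat.cast_nonneg m
  have hm : (m : ℝ) ≤ n := by exact_mod_cast hmn
  constructor
  · have h1 : (r : ℝ) * m / (r + 2) ≤ r * n / 2 := by
      rw [div_le_div_iff₀ (by linarith) (by norm_num)]
      have := mul_le_mul_of_nonneg_left hm hr
      have := mul_nonneg (mul_nonneg hr (hm0.trans hm)) hr
      nlinarith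
    have h2 : (0 : ℝ) ≤ r * m / (r + 2) := by positivity
    have h3 : α * (r * m / (r + 2)) ≤ r * m / (r + 2) := mul_le_of_le_one_left h2 hα1
    linarith
  · have : (0 : ℝ) ≤ r * (n - m + 1) := mul_nonneg hr (by linarith)
    linarith

lemma exponents_pos {r n m : ℕ} (hmn : m ≤ n) (hr1 : 1 ≤ r) (hn1 : 1 ≤ n) {α : ℝ} (_hα0 : 0 < α)
    (hα1 : α ≤ 1) :
    (1 / 6 : ℝ) ≤ r * n / 2 - α * (r * m / (r + 2)) ∧
      (1 / 6 : ℝ) ≤ r * (n - m + 1) / 2 + 1 - α := by
  have hr : (1 : ℝ) ≤ r := by exact_mod_cast hr1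
  have hn : (1 : ℝ) ≤ n := by exact_mod_cast hn1
  have hm0 : (0 : ℝ) ≤ m := Nat.cast_nonneg m
  have hm : (m : ℝ) ≤ n := by exact_mod_cast hmn
  have hrn : (1 : ℝ) ≤ r * n := by nlinarith
  constructor
  · have h1 : (r : ℝ) * m / (r + 2) ≤ r * n / 3 := by
      rw [div_le_div_iff₀ (by linarith) (by norm_num)]
      have h4 : (r : ℝ) * m ≤ r * n := mul_le_mul_of_nonneg_left hm (by linarith)
      nlinarith
    have h2 : (0 : ℝ) ≤ r * m / (r + 2) := by positivity
    have h3 : α * (r * m / (r + 2)) ≤ r * m / (r + 2) := mul_le_of_le_one_left h2 hα1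
    linarith
  · have : (1 : ℝ) ≤ r * (n - m + 1) := by nlinarith
    linarith

lemma half_rpow_le {H e : ℝ} (hH : 0 < H) (he : 1 / 6 ≤ e) :
    (H / 2) ^ e ≤ (1 / 2 : ℝ) ^ (1 / 6 : ℝ) * H ^ e := by
  rw [div_eq_mul_one_div, Real.mul_rpow hH.le (by norm_num), mul_comm]
  apply mul_le_mul_of_nonneg_right _ (by positivity)
  exact Real.rpow_le_rpow_of_exponent_ge (by norm_num) (by norm_num) he

theorem exceptional_count (Γ : AddSubgroup G) {r : ℕ} (R : Fin r → G) (T : Finset G)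
    (hR : LinearIndependent ℤ R)
    (hT : ∀ x ∈ Γ, ∃ (a : Fin r → ℤ) (t : G), t ∈ T ∧ x = ∑ i, a i • R i + t)
    {N n : ℕ} (m : Fin N → ℕ) (φ : (l : Fin N) → Fin (m l) → Fin n → ℤ)
    (hφ : ∀ l, LinearIndependent ℚ fun i j => (φ l i j : ℚ)) (c : (l : Fin N) → Fin (m l) → G)
    {ε α : ℝ} (hε : 0 < ε) (hα0 : 0 < α) (hα1 : α ≤ 1) :
    ∃ C : ℝ, 0 ≤ C ∧ ∀ H : ℝ, 1 ≤ H →
      (({P : Fin n → G | (∀ j, P j ∈ Γ) ∧ ∑ j, 𝓗.h (P j) ≤ H ∧
        (∀ l, ∃ i, ∑ j, φ l i j • P j - c l i ≠ 0) ∧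
        ε * (∑ j, 𝓗.h (P j)) ^ α + C <
          ∑ l, ((m l : ℝ) - 1) * 𝓗.gcd (fun i => ∑ j, φ l i j • P j - c l i)}.ncard : ℕ) : ℝ) ≤
      C * ((1 + Real.log H) * shape r n α m H) := by
  classical
  have hmn : ∀ l, m l ≤ n := fun l => by
    obtain ⟨e, -, he, -⟩ := exists_separating (φ l) (hφ l)
    omega
  have hlarge := fun l => large_count 𝓗 Γ R T hR hT (φ l) (hφ l) (c l)
  choose D hD0 hD using hlarge
  have hDs : 0 ≤ ∑ l, D l := sum_nonneg fun l _ => hD0 l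
  set W : ℝ := (N + 1) * (n + 1) with hW
  have hW0 : 0 < W := by positivity
  set ε₂ : ℝ := ε / W * (1 / 2) ^ α with hε₂
  have hε₂0 : 0 < ε₂ := by positivity
  set C₀ : ℝ := W * (1 + ∑ l, D l) with hC₀
  have hC₀0 : 0 ≤ C₀ := by positivity
  -- the case of no centres
  rcases Nat.eq_zero_or_pos N with hN | hN
  · subst hN
    refine ⟨0, le_rfl, ?_⟩
    intro H hH
    have hempty : {P : Fin n → G | (∀ j, P j ∈ Γ) ∧ ∑ j, 𝓗.h (P j) ≤ H ∧
        (∀ l, ∃ i, ∑ j, φ l i j • P j - c l i ≠ 0) ∧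
        ε * (∑ j, 𝓗.h (P j)) ^ α + 0 <
          ∑ l, ((m l : ℝ) - 1) * 𝓗.gcd (fun i => ∑ j, φ l i j • P j - c l i)} = ∅ := by
      rw [Set.eq_empty_iff_forall_notMem]
      rintro P ⟨-, -, -, hP⟩
      rw [Fin.sum_univ_zero] at hP
      have : 0 ≤ (∑ j, 𝓗.h (P j)) ^ α :=
        Real.rpow_nonneg (sum_nonneg fun j _ => 𝓗.h_nonneg _) _
      nlinarith
    rw [hempty, Set.ncard_empty]
    simp
  -- bad points
  set Bad : ℝ → Set (Fin n → G) := fun H => {P : Fin n → G | (∀ j, P j ∈ Γ) ∧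
        ∑ j, 𝓗.h (P j) ≤ H ∧
        (∀ l, ∃ i, ∑ j, φ l i j • P j - c l i ≠ 0) ∧
        ε * (∑ j, 𝓗.h (P j)) ^ α + C₀ <
          ∑ l, ((m l : ℝ) - 1) * 𝓗.gcd (fun i => ∑ j, φ l i j • P j - c l i)} with hBad
  have hBadfin : ∀ H, (Bad H).Finite := fun H => (𝓗.finite_tuples H).subset fun P hP => hP.2.1
  -- the function bounding the count
  set f : ℝ → ℝ := fun H => (1 + Real.log H) * shape r n α m H with hf
  have hshape1 : ∀ H : ℝ, 1 ≤ H → 1 ≤ shape r n α m H := by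
    intro H hH
    unfold shape
    have h1 : ∀ l ∈ (univ : Finset (Fin N)),
        0 ≤ H ^ (r * n / 2 - α * (r * m l / (r + 2)) : ℝ) +
          H ^ (r * (n - m l + 1) / 2 + 1 - α : ℝ) := fun l _ => by positivity
    refine le_trans ?_ (single_le_sum h1 (mem_univ (⟨0, hN⟩ : Fin N)))
    have h2 := (exponents_nonneg (r := r) (hmn ⟨0, hN⟩) hα0 hα1).1
    have h3 := Real.one_le_rpow hH h2
    have h4 : 0 ≤ H ^ (r * (n - m ⟨0, hN⟩ + 1) / 2 + 1 - α : ℝ) := by positivity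
    linarith
  have hf1 : ∀ H : ℝ, 1 ≤ H → 1 ≤ f H := fun H hH => by
    have h1 := hshape1 H hH
    have h2 := Real.log_nonneg hH
    change 1 ≤ (1 + Real.log H) * shape r n α m H
    nlinarith
  -- enlarging the constant
  have hreduce : (∃ K : ℝ, 0 ≤ K ∧ ∀ H : ℝ, 1 ≤ H → ((Bad H).ncard : ℝ) ≤ K * f H) →
      ∃ C : ℝ, 0 ≤ C ∧ ∀ H : ℝ, 1 ≤ H →
      (({P : Fin n → G | (∀ j, P j ∈ Γ) ∧ ∑ j, 𝓗.h (P j) ≤ H ∧
        (∀ l, ∃ i, ∑ j, φ l i j • P j - c l i ≠ 0) ∧
        ε * (∑ j, 𝓗.h (P j)) ^ α + C <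
          ∑ l, ((m l : ℝ) - 1) * 𝓗.gcd (fun i => ∑ j, φ l i j • P j - c l i)}.ncard : ℕ) : ℝ) ≤
      C * ((1 + Real.log H) * shape r n α m H) := by
    rintro ⟨K, hK0, hK⟩
    refine ⟨K + C₀, by positivity, ?_⟩
    intro H hH
    have h1 : {P : Fin n → G | (∀ j, P j ∈ Γ) ∧ ∑ j, 𝓗.h (P j) ≤ H ∧
        (∀ l, ∃ i, ∑ j, φ l i j • P j - c l i ≠ 0) ∧
        ε * (∑ j, 𝓗.h (P j)) ^ α + (K + C₀) <
          ∑ l, ((m l : ℝ) - 1) * 𝓗.gcd (fun i => ∑ j, φ l i j • P j - c l i)} ⊆ Bad H := by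
      rintro P ⟨hP1, hP2, hP3, hP4⟩
      exact ⟨hP1, hP2, hP3, by linarith⟩
    have h2 : (({P : Fin n → G | (∀ j, P j ∈ Γ) ∧ ∑ j, 𝓗.h (P j) ≤ H ∧
        (∀ l, ∃ i, ∑ j, φ l i j • P j - c l i ≠ 0) ∧
        ε * (∑ j, 𝓗.h (P j)) ^ α + (K + C₀) <
          ∑ l, ((m l : ℝ) - 1) * 𝓗.gcd (fun i => ∑ j, φ l i j • P j - c l i)}.ncard : ℕ) : ℝ) ≤
        ((Bad H).ncard : ℝ) := by exact_mod_cast Set.ncard_le_ncard h1 (hBadfin H)
    have h3 := hK H hH
    have h4 := hf1 H hH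
    have h5 : 0 ≤ C₀ * f H := by positivity
    change _ ≤ (K + C₀) * f H
    linarith
  apply hreduce
  -- the trivial cases
  by_cases htriv : r = 0 ∨ n = 0
  · have hfin : {P : Fin n → G | ∀ j, P j ∈ Γ}.Finite := by
      rcases htriv with h0 | h0
      · have hΓ : (Γ : Set G).Finite := by
          refine (Finset.finite_toSet T).subset ?_
          intro x hx
          obtain ⟨a, t, ht, hxt⟩ := hT x hx
          subst h0
          rw [univ_eq_empty, sum_empty, zero_add] at hxt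
          rw [hxt]
          exact ht
        exact Set.Finite.pi' fun _ => hΓ
      · subst h0
        exact Set.toFinite _
    refine ⟨{P : Fin n → G | ∀ j, P j ∈ Γ}.ncard, Nat.cast_nonneg _, ?_⟩
    intro H hH
    have h1 : (Bad H).ncard ≤ {P : Fin n → G | ∀ j, P j ∈ Γ}.ncard :=
      Set.ncard_le_ncard (fun P hP => hP.1) hfin
    have h2 : ((Bad H).ncard : ℝ) ≤ {P : Fin n → G | ∀ j, P j ∈ Γ}.ncard := by exact_mod_cast h1
    exact h2.trans (le_mul_of_one_le_right (Nat.cast_nonneg _) (hf1 H hH))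
  have hr1 : 1 ≤ r := by
    rcases Nat.eq_zero_or_pos r with h | h
    · exact absurd (Or.inl h) htriv
    · exact h
  have hn1 : 1 ≤ n := by
    rcases Nat.eq_zero_or_pos n with h | h
    · exact absurd (Or.inr h) htriv
    · exact h
  -- the dyadic recursion
  set C₅ : ℝ := ∑ l, D l * (ε₂ ^ (-(r * m l / (r + 2) : ℝ)) + ε₂⁻¹) with hC₅
  have hC₅0 : 0 ≤ C₅ := sum_nonneg fun l _ => mul_nonneg (hD0 l) (by positivity)
  have hdyad : ∀ H : ℝ, 1 ≤ H → ((Bad H).ncard : ℝ) ≤ (Bad (H / 2)).ncard + C₅ * f H := by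
    intro H hH
    have hH0 : 0 < H := by linarith
    have hlogH : 0 ≤ Real.log H := Real.log_nonneg hH
    have hHα : 0 < H ^ α := Real.rpow_pos_of_pos hH0 _
    set Q : ℝ := 1 + ε₂ * H ^ α with hQ
    have hQ1 : 1 ≤ Q := by
      have : 0 ≤ ε₂ * H ^ α := by positivity
      linarith
    set L : Fin N → Set (Fin n → G) := fun l => {P : Fin n → G | (∀ j, P j ∈ Γ) ∧
        ∑ j, 𝓗.h (P j) ≤ H ∧ (∃ i, ∑ j, φ l i j • P j - c l i ≠ 0) ∧
        Q + D l < 𝓗.gcd (fun i => ∑ j, φ l i j • P j - c l i)} with hL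
    have hLfin : ∀ l, (L l).Finite := fun l => (𝓗.finite_tuples H).subset fun P hP => hP.2.1
    have hsub : Bad H ⊆ Bad (H / 2) ∪ ⋃ l, L l := by
      rintro P ⟨hP1, hP2, hP3, hP4⟩
      by_cases hP5 : ∑ j, 𝓗.h (P j) ≤ H / 2
      · exact Or.inl ⟨hP1, hP5, hP3, hP4⟩
      · right
        rw [Set.mem_iUnion]
        by_contra hcon
        push Not at hcon
        have h1 : ∀ l, 𝓗.gcd (fun i => ∑ j, φ l i j • P j - c l i) ≤ Q + D l := by
          intro l
          by_contra hl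
          exact hcon l ⟨hP1, hP2, hP3 l, not_le.mp hl⟩
        have h2 : ∀ l, ((m l : ℝ) - 1) * 𝓗.gcd (fun i => ∑ j, φ l i j • P j - c l i) ≤
            n * (Q + ∑ l, D l) := by
          intro l
          have h3 := 𝓗.gcd_nonneg _ (hP3 l)
          have h4 : (m l : ℝ) ≤ n := by exact_mod_cast hmn l
          have h5 : D l ≤ ∑ l, D l := single_le_sum (fun l _ => hD0 l) (mem_univ l)
          have h6 := h1 l
          calc ((m l : ℝ) - 1) * 𝓗.gcd (fun i => ∑ j, φ l i j • P j - c l i) ≤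
                n * 𝓗.gcd (fun i => ∑ j, φ l i j • P j - c l i) :=
                mul_le_mul_of_nonneg_right (by linarith) h3
            _ ≤ n * (Q + ∑ l, D l) := by
                apply mul_le_mul_of_nonneg_left _ (Nat.cast_nonneg n)
                linarith
        have h3 : ∑ l, ((m l : ℝ) - 1) * 𝓗.gcd (fun i => ∑ j, φ l i j • P j - c l i) ≤
            N * (n * (Q + ∑ l, D l)) := by
          refine (sum_le_sum fun l _ => h2 l).trans ?_
          rw [sum_const, card_univ, Fintype.card_fin, nsmul_eq_mul]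
        have h4 : (N : ℝ) * (n * (Q + ∑ l, D l)) ≤ W * (Q + ∑ l, D l) := by
          rw [← mul_assoc]
          apply mul_le_mul_of_nonneg_right _ (by linarith)
          rw [hW]
          have : (0 : ℝ) ≤ N := Nat.cast_nonneg _
          have : (0 : ℝ) ≤ n := Nat.cast_nonneg _
          nlinarith
        have h5 : W * (Q + ∑ l, D l) = ε * (1 / 2) ^ α * H ^ α + C₀ := by
          rw [hQ, hC₀, hε₂]
          field_simp
          ring
        have h6 : (1 / 2 : ℝ) ^ α * H ^ α ≤ (∑ j, 𝓗.h (P j)) ^ α := by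
          rw [← Real.mul_rpow (by norm_num) hH0.le]
          apply Real.rpow_le_rpow (by positivity) _ hα0.le
          linarith
        have h7 : ε * (1 / 2) ^ α * H ^ α ≤ ε * (∑ j, 𝓗.h (P j)) ^ α := by
          rw [mul_assoc]
          exact mul_le_mul_of_nonneg_left h6 hε.le
        linarith
    have hcount : (Bad H).ncard ≤ (Bad (H / 2)).ncard + ∑ l, (L l).ncard := by
      have hUfin : (⋃ l, L l).Finite := Set.finite_iUnion hLfin
      refine (Set.ncard_le_ncard hsub ((hBadfin _).union hUfin)).trans ?_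
      refine (Set.ncard_union_le _ _).trans ?_
      apply Nat.add_le_add_left
      have h1 : (⋃ l, L l) = ((univ.biUnion fun l => (hLfin l).toFinset : Finset (Fin n → G)) :
          Set (Fin n → G)) := by
        ext P
        simp
      rw [h1, Set.ncard_coe_finset]
      refine card_biUnion_le.trans (sum_le_sum fun l _ => ?_)
      rw [Set.ncard_eq_toFinset_card _ (hLfin l)]
    have hLl : ∀ l, ((L l).ncard : ℝ) ≤ D l * (ε₂ ^ (-(r * m l / (r + 2) : ℝ)) + ε₂⁻¹) *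
        ((1 + Real.log H) * (H ^ (r * n / 2 - α * (r * m l / (r + 2)) : ℝ) +
          H ^ (r * (n - m l + 1) / 2 + 1 - α : ℝ))) := by
      intro l
      have h1 := hD l H hH Q hQ1
      have hε₂H : 0 < ε₂ * H ^ α := by positivity
      set p : ℝ := r * m l / (r + 2) with hp
      have hp0 : 0 ≤ p := by positivity
      have h2 : Q ^ (-p) ≤ ε₂ ^ (-p) * H ^ (-(α * p)) := by
        calc Q ^ (-p) ≤ (ε₂ * H ^ α) ^ (-p) := by
              apply Real.rpow_le_rpow_of_nonpos hε₂H _ (by linarith)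
              linarith
          _ = ε₂ ^ (-p) * H ^ (-(α * p)) := by
              rw [Real.mul_rpow hε₂0.le hHα.le, ← Real.rpow_mul hH0.le]
              congr 2
              ring
      have h3 : 1 / Q ≤ ε₂⁻¹ * H ^ (-α) := by
        rw [Real.rpow_neg hH0.le, ← mul_inv, one_div]
        apply inv_anti₀ hε₂H
        linarith
      have hnm : ((r * (n - m l) : ℕ) : ℝ) = r * (n - m l : ℝ) := by
        rw [Nat.cast_mul, Nat.cast_sub (hmn l)]
      have h4 : H ^ (((r * (n - m l) : ℕ) : ℝ) / 2) * (H ^ (((r * m l : ℕ) : ℝ) / 2) *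
          Q ^ (-p)) ≤ ε₂ ^ (-p) * H ^ (r * n / 2 - α * p : ℝ) := by
        calc _ ≤ H ^ (((r * (n - m l) : ℕ) : ℝ) / 2) * (H ^ (((r * m l : ℕ) : ℝ) / 2) *
              (ε₂ ^ (-p) * H ^ (-(α * p)))) := by gcongr
          _ = ε₂ ^ (-p) * (H ^ (((r * (n - m l) : ℕ) : ℝ) / 2) * H ^ (((r * m l : ℕ) : ℝ) / 2) *
              H ^ (-(α * p))) := by ring
          _ = ε₂ ^ (-p) * H ^ (r * n / 2 - α * p : ℝ) := by
              rw [← Real.rpow_add hH0, ← Real.rpow_add hH0, hnm]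
              congr 2
              push_cast
              ring
      have h5 : H ^ (((r * (n - m l) : ℕ) : ℝ) / 2) * (H ^ (((r + 2 : ℕ) : ℝ) / 2) / Q) ≤
          ε₂⁻¹ * H ^ (r * (n - m l + 1) / 2 + 1 - α : ℝ) := by
        calc _ = H ^ (((r * (n - m l) : ℕ) : ℝ) / 2) * (H ^ (((r + 2 : ℕ) : ℝ) / 2) *
              (1 / Q)) := by ring
          _ ≤ H ^ (((r * (n - m l) : ℕ) : ℝ) / 2) * (H ^ (((r + 2 : ℕ) : ℝ) / 2) *
              (ε₂⁻¹ * H ^ (-α))) := by gcongr
          _ = ε₂⁻¹ * (H ^ (((r * (n - m l) : ℕ) : ℝ) / 2) * H ^ (((r + 2 : ℕ) : ℝ) / 2) *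
              H ^ (-α)) := by ring
          _ = _ := by
              rw [← Real.rpow_add hH0, ← Real.rpow_add hH0, hnm]
              congr 2
              push_cast
              ring
      have hE1 : 0 ≤ ε₂ ^ (-p) * H ^ (r * (n - m l + 1) / 2 + 1 - α : ℝ) := by positivity
      have hE2 : 0 ≤ ε₂⁻¹ * H ^ (r * n / 2 - α * p : ℝ) := by positivity
      calc ((L l).ncard : ℝ) ≤ D l * ((1 + Real.log H) *
            (H ^ (((r * (n - m l) : ℕ) : ℝ) / 2) * (H ^ (((r * m l : ℕ) : ℝ) / 2) * Q ^ (-p) +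
            H ^ (((r + 2 : ℕ) : ℝ) / 2) / Q))) := h1
        _ ≤ D l * ((1 + Real.log H) * (ε₂ ^ (-p) * H ^ (r * n / 2 - α * p : ℝ) +
            ε₂⁻¹ * H ^ (r * (n - m l + 1) / 2 + 1 - α : ℝ))) := by
            apply mul_le_mul_of_nonneg_left _ (hD0 l)
            apply mul_le_mul_of_nonneg_left _ (by linarith)
            rw [mul_add]
            exact add_le_add h4 h5
        _ ≤ D l * ((1 + Real.log H) * ((ε₂ ^ (-p) + ε₂⁻¹) * (H ^ (r * n / 2 - α * p : ℝ) +
            H ^ (r * (n - m l + 1) / 2 + 1 - α : ℝ)))) := by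
            apply mul_le_mul_of_nonneg_left _ (hD0 l)
            apply mul_le_mul_of_nonneg_left _ (by linarith)
            linarith
        _ = _ := by ring
    calc ((Bad H).ncard : ℝ) ≤ (Bad (H / 2)).ncard + ∑ l, ((L l).ncard : ℝ) := by
          exact_mod_cast hcount
      _ ≤ (Bad (H / 2)).ncard + ∑ l, D l * (ε₂ ^ (-(r * m l / (r + 2) : ℝ)) + ε₂⁻¹) *
          ((1 + Real.log H) * (H ^ (r * n / 2 - α * (r * m l / (r + 2)) : ℝ) +
            H ^ (r * (n - m l + 1) / 2 + 1 - α : ℝ))) := by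
          linarith [sum_le_sum fun l (_ : l ∈ (univ : Finset (Fin N))) => hLl l]
      _ ≤ (Bad (H / 2)).ncard + ∑ l, D l * (ε₂ ^ (-(r * m l / (r + 2) : ℝ)) + ε₂⁻¹) * f H := by
          have : ∀ l ∈ (univ : Finset (Fin N)),
              D l * (ε₂ ^ (-(r * m l / (r + 2) : ℝ)) + ε₂⁻¹) *
          ((1 + Real.log H) * (H ^ (r * n / 2 - α * (r * m l / (r + 2)) : ℝ) +
            H ^ (r * (n - m l + 1) / 2 + 1 - α : ℝ))) ≤
              D l * (ε₂ ^ (-(r * m l / (r + 2) : ℝ)) + ε₂⁻¹) * f H := by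
            intro l _
            apply mul_le_mul_of_nonneg_left _ (mul_nonneg (hD0 l) (by positivity))
            apply mul_le_mul_of_nonneg_left _ (by linarith)
            unfold shape
            exact single_le_sum (f := fun l => H ^ (r * n / 2 - α * (r * m l / (r + 2)) : ℝ) +
              H ^ (r * (n - m l + 1) / 2 + 1 - α : ℝ)) (fun l _ => by positivity) (mem_univ l)
          linarith [sum_le_sum this]
      _ = (Bad (H / 2)).ncard + C₅ * f H := by rw [hC₅, sum_mul]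
  -- conclusion of the recursion
  set ρ : ℝ := (1 / 2 : ℝ) ^ (1 / 6 : ℝ) with hρ
  have hρ0 : 0 < ρ := by positivity
  have hρ1 : ρ < 1 := Real.rpow_lt_one (by norm_num) (by norm_num) (by norm_num)
  have hfhalf : ∀ H : ℝ, 2 ≤ H → f (H / 2) ≤ ρ * f H := by
    intro H hH
    have hH0 : 0 < H := by linarith
    have h1 : Real.log (H / 2) ≤ Real.log H := Real.log_le_log (by linarith) (by linarith)
    have h2 : 0 ≤ Real.log (H / 2) := Real.log_nonneg (by linarith)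
    have h3 : shape r n α m (H / 2) ≤ ρ * shape r n α m H := by
      unfold shape
      rw [mul_sum]
      apply sum_le_sum
      intro l _
      obtain ⟨e1, e2⟩ := exponents_pos (hmn l) hr1 hn1 hα0 hα1
      rw [mul_add ρ]
      exact add_le_add (half_rpow_le hH0 e1) (half_rpow_le hH0 e2)
    have h4 : 0 ≤ shape r n α m (H / 2) := by
      have := hshape1 (H / 2) (by linarith)
      linarith
    change (1 + Real.log (H / 2)) * shape r n α m (H / 2) ≤
      ρ * ((1 + Real.log H) * shape r n α m H)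
    calc (1 + Real.log (H / 2)) * shape r n α m (H / 2) ≤
          (1 + Real.log H) * (ρ * shape r n α m H) :=
          mul_le_mul (by linarith) h3 h4 (by linarith)
      _ = _ := by ring
  set K : ℝ := (Bad 2).ncard + C₅ / (1 - ρ) with hK
  have hK0 : 0 ≤ K := by
    have : 0 < 1 - ρ := by linarith
    positivity
  have hKC : C₅ ≤ K * (1 - ρ) := by
    have h1 : 0 < 1 - ρ := by linarith
    have h2 : C₅ / (1 - ρ) ≤ K := by
      rw [hK]
      have : (0 : ℝ) ≤ (Bad 2).ncard := Nat.cast_nonneg _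
      linarith
    rwa [div_le_iff₀ h1] at h2
  have hind : ∀ k : ℕ, ∀ H : ℝ, 1 ≤ H → H < 2 ^ (k + 1) → ((Bad H).ncard : ℝ) ≤ K * f H := by
    intro k
    have hsmall : ∀ H : ℝ, 1 ≤ H → H < 2 → ((Bad H).ncard : ℝ) ≤ K * f H := by
      intro H hH1 hH2
      have h1 : Bad H ⊆ Bad 2 := fun P hP => ⟨hP.1, hP.2.1.trans hH2.le, hP.2.2⟩
      have h2 : ((Bad H).ncard : ℝ) ≤ (Bad 2).ncard := by
        exact_mod_cast Set.ncard_le_ncard h1 (hBadfin 2)
      have h3 : ((Bad 2).ncard : ℝ) ≤ K := by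
        rw [hK]
        have : 0 ≤ C₅ / (1 - ρ) := div_nonneg hC₅0 (by linarith)
        linarith
      exact (h2.trans h3).trans (le_mul_of_one_le_right hK0 (hf1 H hH1))
    induction k with
    | zero =>
      intro H hH1 hH2
      rw [zero_add, pow_one] at hH2
      exact hsmall H hH1 hH2
    | succ k ih =>
      intro H hH1 hH2
      rcases lt_or_ge H 2 with h | h
      · exact hsmall H hH1 h
      · have h1 := ih (H / 2) (by linarith) (by
          rw [div_lt_iff₀ (by norm_num)]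
          calc H < 2 ^ (k + 1 + 1) := hH2
            _ = 2 ^ (k + 1) * 2 := pow_succ _ _)
        have h2 := hdyad H hH1
        have h3 := hfhalf H h
        have h4 := hf1 H hH1
        have h5 : K * f (H / 2) ≤ K * (ρ * f H) := mul_le_mul_of_nonneg_left h3 hK0
        have h6 : C₅ * f H ≤ K * (1 - ρ) * f H :=
          mul_le_mul_of_nonneg_right hKC (by linarith)
        linarith
  refine ⟨K, hK0, fun H hH => ?_⟩
  obtain ⟨k, hk⟩ := pow_unbounded_of_one_lt H (one_lt_two : (1 : ℝ) < 2)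
  exact hind k H hH (hk.trans_le (pow_le_pow_right₀ (by norm_num) (by omega)))

end

end Pool.Agent.H7.Vojta
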