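import Mathlib
import Pool.Agent.H7.VojtaExc
import Pool.Agent.H7.VojtaInst

/-!
# Counting the exceptional points on blow-ups of powers of an elliptic curve
-/

set_option autoImplicit false

open Height NumberField WeierstrassCurve WeierstrassCurve.Affine

namespace Pool.Agent.H7.Vojta

universe u

/-- The statement of the main theorem for one curve, in terms of naive heights. -/
def ExcStmt {k : Type u} [Field k] [NumberField k] [DecidableEq k] (W : Affine k) : Prop :=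
  ∀ (Γ : AddSubgroup W.Point), Γ.FG → ∀ {N n : ℕ} (m : Fin N → ℕ)
    (φ : (l : Fin N) → Fin (m l) → Fin n → ℤ),
    (∀ l, LinearIndependent ℚ fun i j => (φ l i j : ℚ)) →
    ∀ (c : (l : Fin N) → Fin (m l) → W.Point) (ε α : ℝ), 0 < ε → 0 < α → α ≤ 1 →
    ∃ C : ℝ, 0 ≤ C ∧ ∀ H : ℝ, 1 ≤ H →
      {P : Fin n → W.Point | ∑ j, naive (P j) ≤ H}.Finite ∧
      (({P : Fin n → W.Point | (∀ j, P j ∈ Γ) ∧ ∑ j, naive (P j) ≤ H ∧
        (∀ l, ∃ i, ∑ j, φ l i j • P j - c l i ≠ 0) ∧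
        ε * (∑ j, naive (P j)) ^ α + C <
          ∑ l, ((m l : ℝ) - 1) * nearSum (fun i => ∑ j, φ l i j • P j - c l i)}.ncard : ℕ) : ℝ) ≤
      C * ((1 + Real.log H) * shape (Module.finrank ℤ Γ) n α m H)

theorem excStmt {k : Type u} [Field k] [NumberField k] [DecidableEq k] (W : Affine k)
    [W.IsElliptic] : ExcStmt W := by
  have h : ExcStmt (W⁄k) := by
    intro Γ hΓ N n m φ hφ c ε α hε hα0 hα1
    obtain ⟨𝓗, h1, h2⟩ := exists_htSys W
    obtain ⟨R, T, hR, hT⟩ := exists_basis_mod_finite Γ hΓ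
    obtain ⟨C, hC0, hC⟩ := exceptional_count 𝓗 Γ R T hR hT m φ hφ c hε hα0 hα1
    refine ⟨C, hC0, ?_⟩
    intro H hH
    have h3 := hC H hH
    simp only [h1, h2] at h3
    refine ⟨?_, h3⟩
    have h4 := 𝓗.finite_tuples (n := n) H
    simp only [h1] at h4
    exact h4
  have hW : (W⁄k) = W := W.map_id
  exact hW ▸ h

end Pool.Agent.H7.Vojta
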